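import Pool.Agent.LKS.Defs

/-!
# LKS/Cnv (difficulty 2): comparison with the definitions of ACB

PROOFS.  `ACB.ex` and `RSG.ex` are equal (unfold both; `push_cast`, `ring_nf`).  The structures have the same fields.
-/

open scoped Manifold ContDiff Topology
open Set Filter
open Complex (I)
open Pool.Agent.RSG (E3 E4 S2 S3 S4 ex cj c1 c2 ht fh pS3 pS4)
open Pool.Agent.RBM (ThickT OnT)
open Pool.Agent.RBH (Tube)
open Pool.Agent.PTH (SP ISP)
open Pool.Agent.KNH (circ rot)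
open Pool.Agent.LKF (LinkT OnF TubF TwinF)
open Pool.Agent.LKT (ThickC TubesC OffC SurgJ s1 s2 κa κb RR ΘU ΘH dir)
open Pool.Agent.LKB (Mf Std OLoop)

namespace Pool.Agent.LKS

theorem ex_eq (x : ℝ) : ACB.ex x = ex x := by
  rfl

variable {N : Type*} [TopologicalSpace N] [ChartedSpace E4 N]

theorem thick_iff {γ : ℝ × E3 → N} {ε : ℝ} : ThickC (𝓡 4) γ ε ↔ ACB.Thick γ ε :=
  ⟨fun h => ⟨h.pos, h.per, h.loc, h.inj⟩, fun h => ⟨h.pos, h.per, h.loc, h.inj⟩⟩

theorem tubes_iff {α : Type} {γ : α → ℝ × E3 → N} {ε : ℝ} : TubesC (𝓡 4) γ ε ↔ ACB.Tubes γ ε :=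
  ⟨fun h => ⟨fun i => thick_iff.1 (h.thick i), h.disj⟩, fun h => ⟨fun i => thick_iff.2 (h.thick i), h.disj⟩⟩

theorem surg_iff {α : Type} {γ : α → ℝ × E3 → N} {ε : ℝ} {X : Type*} [TopologicalSpace X] [ChartedSpace E4 X] :
    Nonempty (SurgJ (𝓡 4) γ ε X) ↔ Nonempty (ACB.Surg γ ε X) := by
  constructor
  · rintro ⟨S⟩
    exact ⟨{
      A := S.A
      Q := S.Q
      A_loc := S.A_loc
      A_inj := S.A_inj
      Q_loc := S.Q_loc
      glue := fun i l r v h0 h1 => by rw [ex_eq]; exact S.glue i l r v h0 h1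
      Q_inj := S.Q_inj
      disj := S.disj
      cover := S.cover }⟩
  · rintro ⟨S⟩
    exact ⟨{
      A := S.A
      Q := S.Q
      A_loc := S.A_loc
      A_inj := S.A_inj
      Q_loc := S.Q_loc
      glue := fun i l r v h0 h1 => by rw [← ex_eq]; exact S.glue i l r v h0 h1
      Q_inj := S.Q_inj
      disj := S.disj
      cover := S.cover }⟩

end Pool.Agent.LKS
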