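import Pool.Agent.LKS.Defs
import Pool.Agent.ACB.CmT
import Pool.Agent.RSG.NewS

/-!
# LKS/Comm (difficulty 4): surgery and twins commute

PROOF.  `A' : Y → X`: `A' (S.A p) = S'.A (D.A p)` for `p` off the circles, `A' (S.Q a (0, v)) = S'.Q a (0, v)` (define by choice with `S.cover`; well defined by
`S.A_inj`, `S.disj`, `S.Q_inj`).  `Q' i z = S'.A (D.Q i z)`.
(G1) `S.A p` (`p` off the circles) is on a torus `S.A ∘ κ i` iff `OnF κ p`; `S.Q a (0, v)` is on no torus (`S.disj`).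
(G2) for `p` off `κ`, off the circles: `OffC (D.A ∘ γ) (D.A p)` (the cores of the circles are off `κ`; `D.A_inj`).
(G3) `OffC (D.A ∘ γ) (D.Q i z)` if `fh z ≠ 0`: otherwise `D.Q i z = D.A (γ a (u, 0))`; by `D.disj` `c1 z, c2 z ≠ 0`, so by `D.glue`
     `D.Q i z = D.A (κ i (l, ρ ex m, t))` (`0 < ρ = 2|c1||c2| < 1`; `t = arg c1 - arg c2`, `m = arg c2 + j t`, `l = arg fh + n t`), `κ i (..) = γ a (u, 0)`: the tubes are disjoint.
(G4) `A' (S.Q a (z, v)) = S'.Q a (z, v)` for `‖z‖ < ε` (`z = r ex l ≠ 0`: `S.glue`, `S'.glue`; the point `γ a (l, r v)` is off the circles).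
`A_loc` at a point off the tori: `S.A p`: near `p` (open set of the points off the circles: compact cores, `P` Hausdorff, `α` finite; see `ACB/SrU.lean` `sru_off_open`)
`A' ∘ S.A = S'.A ∘ D.A`, use `ACB.cmt_quot`; `S.Q a (0, v)`: `A' ∘ S.Q a = S'.Q a` near `(0, v)`.  `A_inj`: three cases (`S'.A_inj`, `D.A_inj`; `S'.disj`; `S'.Q_inj`).
`Q_loc`: G3.  `Q_inj`: `S'.A_inj` and `D.Q_inj`.  `glue`: `S'.A (D.A (κ i (..))) = A' (S.A (κ i (..)))`.  `disj`: `D.disj`, `S'.disj`.  `cover`: `S'.cover`, `D.cover`.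
-/

open scoped Manifold ContDiff Topology
open Set Filter
open Complex (I)
open Pool.Agent.RSG (E3 E4 S2 S3 S4 ex cj c1 c2 ht fh pS3 pS4)
open Pool.Agent.RBM (ThickT OnT)
open Pool.Agent.RBH (Tube)
open Pool.Agent.PTH (SP ISP)
open Pool.Agent.KNH (circ rot)
open Pool.Agent.LKF (LinkT OnF TubF TwinF)
open Pool.Agent.LKT (ThickC TubesC OffC SurgJ s1 s2 κa κb RR ΘU ΘH dir)
open Pool.Agent.LKB (Mf Std OLoop)

namespace Pool.Agent.LKS

variable {E : Type*} [NormedAddCommGroup E] [NormedSpace ℝ E] {H : Type*} [TopologicalSpace H]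
  {J : ModelWithCorners ℝ E H}
  {P : Type*} [TopologicalSpace P] [ChartedSpace H P]

/-- the core of a thick circle is compact -/
theorem Comm_core {γ : ℝ × E3 → P} {ε : ℝ} (h : ThickC J γ ε) : IsCompact (range fun l : ℝ => γ (l, 0)) := by
  have h0 : ‖(0 : E3)‖ < ε := by rw [norm_zero]; exact h.pos
  have hc : Continuous fun l : ℝ => γ (l, 0) := by
    rw [continuous_iff_continuousAt]
    intro l
    have h1 : ContinuousAt γ (l, 0) := (h.loc l 0 h0).contMDiffAt.continuousAt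
    exact ContinuousAt.comp (f := fun l : ℝ => (l, (0 : E3))) (x := l) h1 (by fun_prop)
  have hp : Function.Periodic (fun l : ℝ => γ (l, 0)) 1 := fun l => h.per l 0 h0
  have e : range (fun l : ℝ => γ (l, 0)) = (fun l : ℝ => γ (l, 0)) '' Icc 0 1 := by
    rw [← hp.image_Icc one_pos 0, zero_add]
  rw [e]
  exact isCompact_Icc.image hc

/-- the set of the points off the circles is open -/
theorem Comm_open [T2Space P] {α : Type*} [Finite α] {γ : α → ℝ × E3 → P} {ε : ℝ} (h : TubesC J γ ε) {p : P}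
    (hp : OffC γ p) : ∀ᶠ p' in 𝓝 p, OffC γ p' := by
  have h1 : ∀ a, ∀ᶠ p' in 𝓝 p, ∀ l, p' ≠ γ a (l, 0) := by
    intro a
    have h3 : IsClosed (range fun l : ℝ => γ a (l, 0)) := (Comm_core (h.thick a)).isClosed
    have h4 : p ∈ (range fun l : ℝ => γ a (l, 0))ᶜ := by
      rintro ⟨l, hl⟩
      exact hp a l hl.symm
    filter_upwards [h3.isOpen_compl.mem_nhds h4] with p' hp' l h
    exact hp' ⟨l, h.symm⟩
  filter_upwards [eventually_all.2 h1] with p' hp' a l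
  exact hp' a l

theorem Comm_norm (v : S2) (r : ℝ) (hr : 0 ≤ r) : ‖r • v.1‖ = r := by
  have hv1 : ‖v.1‖ = 1 := by
    have := v.2
    rwa [mem_sphere_zero_iff_norm] at this
  rw [norm_smul, hv1, mul_one, Real.norm_of_nonneg hr]

/-- the points of the tubes are off the cores -/
theorem Comm_off {α : Type*} {γ : α → ℝ × E3 → P} {ε : ℝ} (h : TubesC J γ ε) {a : α} {l : ℝ} {y : E3} (hy : ‖y‖ < ε)
    (h0 : y ≠ 0) : OffC γ (γ a (l, y)) := by
  have h0' : ‖(0 : E3)‖ < ε := by rw [norm_zero]; exact (h.thick a).pos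
  intro a' l' e
  by_cases ha : a = a'
  · subst ha
    exact h0 ((h.thick a).inj l y l' 0 hy h0' e).1
  · exact h.disj a a' ha l y l' 0 hy h0' e

theorem comm [T2Space P] {ι α : Type*} [Finite α] {κ : ι → ℝ × ℂ × ℝ → P} {n j : ι → ℤ}
    (hκ : LinkT J κ) {γ : α → ℝ × E3 → P} {ε : ℝ} (hε : 0 < ε) (hγ : TubesC J γ ε) (hd : Disjoint (TubF κ) (TubsC γ ε))
    {X₀ : Type*} [TopologicalSpace X₀] [ChartedSpace E4 X₀] (D : TwinF J κ n j X₀)
    {Y : Type*} [TopologicalSpace Y] [ChartedSpace E4 Y] (S : SurgJ J γ ε Y)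
    {X : Type*} [TopologicalSpace X] [ChartedSpace E4 X] (S' : SurgJ (𝓡 4) (fun a q => D.A (γ a q)) ε X) :
    Nonempty (TwinF (𝓡 4) (fun i q => S.A (κ i q)) n j X) := by
  have h0 : ‖(0 : E3)‖ < ε := by rw [norm_zero]; exact hε
  have htub : ∀ i l v t, ‖v‖ < 1 → κ i (l, v, t) ∈ TubF κ := fun i l v t hv => ⟨i, l, v, t, hv, rfl⟩
  have off1 : ∀ i l v t, ‖v‖ < 1 → OffC γ (κ i (l, v, t)) := by
    intro i l v t hv a u e
    exact Set.disjoint_left.1 hd (htub i l v t hv) ⟨a, u, 0, h0, e⟩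
  have on1 : ∀ a u y, ‖y‖ < ε → ¬ OnF κ (γ a (u, y)) := by
    rintro a u y hy ⟨i, l, t, e⟩
    exact Set.disjoint_left.1 hd (htub i l 0 t (by simp)) ⟨a, u, y, hy, e.symm⟩
  have G1 : ∀ p, OffC γ p → (OnF (fun i q => S.A (κ i q)) (S.A p) ↔ OnF κ p) := by
    intro p hp
    constructor
    · rintro ⟨i, l, t, e⟩
      exact ⟨i, l, t, S.A_inj p _ hp (off1 i l 0 t (by simp)) e⟩
    · rintro ⟨i, l, t, e⟩
      exact ⟨i, l, t, congrArg S.A e⟩
  have G1' : ∀ a v, ¬ OnF (fun i q => S.A (κ i q)) (S.Q a (0, v)) := by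
    rintro a v ⟨i, l, t, e⟩
    exact S.disj a v _ (off1 i l 0 t (by simp)) e
  have G2 : ∀ p, ¬ OnF κ p → OffC γ p → OffC (fun a q => D.A (γ a q)) (D.A p) := by
    intro p hp hp' a u e
    exact hp' a u (D.A_inj p _ hp (on1 a u 0 h0) e)
  have G3 : ∀ i z, fh z ≠ 0 → OffC (fun a q => D.A (γ a q)) (D.Q i z) := by
    intro i z hf a u e
    have e : D.Q i z = D.A (γ a (u, 0)) := e
    by_cases hz : c1 z = 0 ∨ c2 z = 0
    · exact D.disj i z _ hf hz (on1 a u 0 h0) e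
    · push Not at hz
      obtain ⟨l, m, t, e1, e2, e3⟩ := RSG.exists_phase (n i) (j i) z
      have key := D.glue i z l m t hf hz.1 hz.2
        (by rw [show m + (1 - (j i : ℝ)) * t = ((1 : ℤ) : ℝ) * m + ((1 - j i : ℤ) : ℝ) * t by push_cast; ring]; exact e1)
        (by rw [show m - (j i : ℝ) * t = ((1 : ℤ) : ℝ) * m + ((-j i : ℤ) : ℝ) * t by push_cast; ring]; exact e2) e3
      have hn := RSG.glue_norm hf m
      have hne : ((2 * ‖c1 z‖ * ‖c2 z‖ : ℝ) : ℂ) * ex m ≠ 0 := by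
        have g1 := norm_pos_iff.2 hz.1
        have g2 := norm_pos_iff.2 hz.2
        have g3 : 0 < 2 * ‖c1 z‖ * ‖c2 z‖ := by positivity
        exact mul_ne_zero (by exact_mod_cast g3.ne') (RSG.ex_ne m)
      have hno : ¬ OnF κ (κ i (l, ((2 * ‖c1 z‖ * ‖c2 z‖ : ℝ) : ℂ) * ex m, t)) := by
        rintro ⟨i', l', t', hl'⟩
        have hii := hκ.disj i i' _ _ _ l' 0 t' hn (by simp) hl'
        subst hii
        exact hne ((hκ.thick i).inj _ _ _ l' 0 t' hn (by simp) hl').1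
      rw [key] at e
      have h2 := D.A_inj _ _ hno (on1 a u 0 h0) e
      exact off1 i _ _ _ hn a u h2
  -- the map
  have hex : ∀ q : Y, ∃ x : X, (∀ p, OffC γ p → q = S.A p → x = S'.A (D.A p)) ∧
      ∀ a v, q = S.Q a (0, v) → x = S'.Q a (0, v) := by
    intro q
    rcases S.cover q with ⟨p, hp, rfl⟩ | ⟨a, v, rfl⟩
    · refine ⟨S'.A (D.A p), fun p' hp' h => ?_, fun a v h => ?_⟩
      · rw [S.A_inj p p' hp hp' h]
      · exact absurd h.symm (S.disj a v p hp)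
    · refine ⟨S'.Q a (0, v), fun p' hp' h => ?_, fun a' v' h => ?_⟩
      · exact absurd h (S.disj a v p' hp')
      · obtain ⟨h1, h2⟩ := S.Q_inj a a' v v' h
        rw [h1, h2]
  choose f hfA' hfQ' using hex
  have hfA : ∀ p, OffC γ p → f (S.A p) = S'.A (D.A p) := fun p hp => hfA' _ p hp rfl
  have hfQ0 : ∀ a (v : S2), f (S.Q a (0, v)) = S'.Q a (0, v) := fun a v => hfQ' _ a v rfl
  have hfQ : ∀ a (z : ℂ) (v : S2), ‖z‖ < ε → f (S.Q a (z, v)) = S'.Q a (z, v) := by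
    intro a z v hz
    by_cases hz0 : z = 0
    · rw [hz0]
      exact hfQ0 a v
    · have hr : 0 < ‖z‖ := norm_pos_iff.2 hz0
      obtain ⟨l, hl⟩ := RSG.ex_surj (u := z / ‖z‖) (by
        rw [norm_div, Complex.norm_real, norm_norm, div_self hr.ne'])
      have hl' : z = (‖z‖ : ℂ) * ex l := by
        rw [← hl]
        have : ((‖z‖ : ℝ) : ℂ) ≠ 0 := by exact_mod_cast hr.ne'
        field_simp
      have e1 := S.glue a l ‖z‖ v hr hz
      have e2 : S'.Q a ((‖z‖ : ℂ) * ex l, v) = S'.A (D.A (γ a (l, ‖z‖ • v.1))) := S'.glue a l ‖z‖ v hr hz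
      rw [← hl'] at e1 e2
      have hn := Comm_norm v ‖z‖ hr.le
      have hof : OffC γ (γ a (l, ‖z‖ • v.1)) := by
        refine Comm_off hγ (by rw [hn]; exact hz) ?_
        rw [← norm_pos_iff, hn]
        exact hr
      rw [e1, e2]
      exact hfA _ hof
  refine ⟨{ A := f, Q := fun i z => S'.A (D.Q i z), A_loc := ?_, A_inj := ?_, Q_loc := ?_,
            Q_inj := ?_, glue := ?_, disj := ?_, cover := ?_ }⟩
  · intro q hq
    rcases S.cover q with ⟨p, hp, rfl⟩ | ⟨a, v, rfl⟩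
    · rw [G1 p hp] at hq
      have hc : IsLocalDiffeomorphAt J (𝓡 4) ∞ (S'.A ∘ D.A) p :=
        IsLocalDiffeomorphAt.comp (hf := D.A_loc p hq) (hg := S'.A_loc _ (G2 p hq hp))
      refine ACB.cmt_quot (S.A_loc p hp) hc ?_
      filter_upwards [Comm_open hγ hp] with p' hp'
      exact hfA p' hp'
    · have hz : ‖(0 : ℂ)‖ < ε := by rw [norm_zero]; exact hε
      refine ACB.cmt_quot (S.Q_loc a 0 v hz) (S'.Q_loc a 0 v hz) ?_
      have h3 : IsOpen {x : ℂ × S2 | ‖x.1‖ < ε} := isOpen_lt (continuous_norm.comp continuous_fst) continuous_const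
      filter_upwards [h3.mem_nhds (show ((0 : ℂ), v) ∈ {x : ℂ × S2 | ‖x.1‖ < ε} from hz)] with x hx
      exact hfQ a x.1 x.2 hx
  · intro q q' hq hq' h
    rcases S.cover q with ⟨p, hp, rfl⟩ | ⟨a, v, rfl⟩
    · rw [G1 p hp] at hq
      rcases S.cover q' with ⟨p', hp', rfl⟩ | ⟨a', v', rfl⟩
      · rw [G1 p' hp'] at hq'
        rw [hfA p hp, hfA p' hp'] at h
        rw [D.A_inj p p' hq hq' (S'.A_inj _ _ (G2 p hq hp) (G2 p' hq' hp') h)]
      · rw [hfA p hp, hfQ0] at h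
        exact absurd h.symm (S'.disj a' v' _ (G2 p hq hp))
    · rcases S.cover q' with ⟨p', hp', rfl⟩ | ⟨a', v', rfl⟩
      · rw [G1 p' hp'] at hq'
        rw [hfA p' hp', hfQ0] at h
        exact absurd h (S'.disj a v _ (G2 p' hq' hp'))
      · rw [hfQ0, hfQ0] at h
        obtain ⟨h1, h2⟩ := S'.Q_inj a a' v v' h
        rw [h1, h2]
  · intro i z hf
    exact IsLocalDiffeomorphAt.comp (hf := D.Q_loc i z hf) (hg := S'.A_loc _ (G3 i z hf))
  · intro i z i' z' hf hf' h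
    exact D.Q_inj i z i' z' hf hf' (S'.A_inj _ _ (G3 i z hf) (G3 i' z' hf') h)
  · intro i z l m t hf h1 h2 e1 e2 e3
    rw [D.glue i z l m t hf h1 h2 e1 e2 e3]
    exact (hfA _ (off1 i _ _ _ (RSG.glue_norm hf m))).symm
  · intro i z q hf hz hq h
    rcases S.cover q with ⟨p, hp, rfl⟩ | ⟨a, v, rfl⟩
    · rw [G1 p hp] at hq
      rw [hfA p hp] at h
      exact D.disj i z p hf hz hq (S'.A_inj _ _ (G3 i z hf) (G2 p hq hp) h)
    · rw [hfQ0] at h
      exact S'.disj a v _ (G3 i z hf) h.symm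
  · intro x
    rcases S'.cover x with ⟨y, hy, rfl⟩ | ⟨a, v, rfl⟩
    · rcases D.cover y with ⟨p, hp, rfl⟩ | ⟨i, z, hf, rfl⟩
      · have hof : OffC γ p := fun a l e => hy a l (congrArg D.A e)
        exact Or.inl ⟨S.A p, by rw [G1 p hof]; exact hp, (hfA p hof).symm⟩
      · exact Or.inr ⟨i, z, hf, rfl⟩
    · exact Or.inl ⟨S.Q a (0, v), G1' a v, (hfQ0 a v).symm⟩

end Pool.Agent.LKS
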