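import Pool.Agent.LKS.Defs

/-!
# LKS/LkA (difficulty 2): images of thick tori and thick circles

PROOFS.  All from: a point `κ₁ i (l, v, t)`, `‖v‖ < 1`, is off the tori `κ₀` (disjoint tubes); `D₀.A` is there a local diffeomorphism, and injective on the
points off the tori `κ₀`.  The same for `S.A` and the circles.
-/

open scoped Manifold ContDiff Topology
open Set Filter
open Complex (I)
open Pool.Agent.RSG (E3 E4 S2 S3 S4 ex cj c1 c2 ht fh pS3 pS4)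
open Pool.Agent.RBM (ThickT OnT)
open Pool.Agent.RBH (Tube)
open Pool.Agent.PTH (SP ISP)
open Pool.Agent.KNH (circ rot)
open Pool.Agent.LKF (LinkT OnF TubF TwinF)
open Pool.Agent.LKT (ThickC TubesC OffC SurgJ s1 s2 κa κb RR ΘU ΘH dir)
open Pool.Agent.LKB (Mf Std OLoop)

namespace Pool.Agent.LKS

variable {E : Type*} [NormedAddCommGroup E] [NormedSpace ℝ E] {H : Type*} [TopologicalSpace H]
  {J : ModelWithCorners ℝ E H}
  {P : Type*} [TopologicalSpace P] [ChartedSpace H P]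

/-- a point of the tube of one torus is off the others; and off its own torus if `v ≠ 0` -/
theorem off_v {ι : Type*} {κ : ι → ℝ × ℂ × ℝ → P} (hκ : LinkT J κ) (i : ι) (l : ℝ) {v : ℂ} (hv : ‖v‖ < 1) (h0 : v ≠ 0) (t : ℝ) :
    ¬ OnF κ (κ i (l, v, t)) := by
  rintro ⟨i', l', t', he⟩
  have h1 : i = i' := hκ.disj i i' l v t l' 0 t' hv (by simp) he
  subst h1
  exact h0 ((hκ.thick i).inj l v t l' 0 t' hv (by simp) he).1

theorem off_tub {ι : Type*} {κ : ι → ℝ × ℂ × ℝ → P} {p : P} (h : p ∉ TubF κ) : ¬ OnF κ p := by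
  rintro ⟨i, l, t, rfl⟩
  exact h ⟨i, l, 0, t, by simp, rfl⟩

theorem offC_tub {α : Type*} {γ : α → ℝ × E3 → P} {ε : ℝ} (hε : 0 < ε) {p : P} (h : p ∉ TubsC γ ε) : OffC γ p := by
  rintro a l rfl
  exact h ⟨a, l, 0, by simpa using hε, rfl⟩

theorem LkA_link {ι' : Type*} {κ' : ι' → ℝ × ℂ × ℝ → P} (hκ' : LinkT J κ') {E' : Type*} [NormedAddCommGroup E']
    [NormedSpace ℝ E'] {H' : Type*} [TopologicalSpace H'] {J' : ModelWithCorners ℝ E' H'} {X : Type*}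
    [TopologicalSpace X] [ChartedSpace H' X] {F : P → X}
    (hF : ∀ p ∈ TubF κ', IsLocalDiffeomorphAt J J' ∞ F p) (hi : InjOn F (TubF κ')) :
    LinkT J' (fun i q => F (κ' i q)) where
  thick := fun i =>
    { perl := fun l v t => congrArg F ((hκ'.thick i).perl l v t)
      pert := fun l v t => congrArg F ((hκ'.thick i).pert l v t)
      loc := fun l v t hv =>
        IsLocalDiffeomorphAt.comp (hf := (hκ'.thick i).loc l v t hv) (hg := hF _ ⟨i, l, v, t, hv, rfl⟩) ..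
      inj := fun l v t l' v' t' hv hv' he =>
        (hκ'.thick i).inj l v t l' v' t' hv hv' (hi ⟨i, l, v, t, hv, rfl⟩ ⟨i, l', v', t', hv', rfl⟩ he) }
  disj := fun i i' l v t l' v' t' hv hv' he =>
    hκ'.disj i i' l v t l' v' t' hv hv' (hi ⟨i, l, v, t, hv, rfl⟩ ⟨i', l', v', t', hv', rfl⟩ he)

theorem LkA_thick {γ : ℝ × E3 → P} {ε : ℝ} (hγ : ThickC J γ ε) {E' : Type*} [NormedAddCommGroup E']
    [NormedSpace ℝ E'] {H' : Type*} [TopologicalSpace H'] {J' : ModelWithCorners ℝ E' H'} {X : Type*}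
    [TopologicalSpace X] [ChartedSpace H' X] {F : P → X}
    (hF : ∀ l v, ‖v‖ < ε → IsLocalDiffeomorphAt J J' ∞ F (γ (l, v)))
    (hi : ∀ l v l' v', ‖v‖ < ε → ‖v'‖ < ε → F (γ (l, v)) = F (γ (l', v')) → γ (l, v) = γ (l', v')) :
    ThickC J' (fun q => F (γ q)) ε where
  pos := hγ.pos
  per := fun l v hv => congrArg F (hγ.per l v hv)
  loc := fun l v hv => IsLocalDiffeomorphAt.comp (hf := hγ.loc l v hv) (hg := hF l v hv) ..
  inj := fun l v l' v' hv hv' he => hγ.inj l v l' v' hv hv' (hi l v l' v' hv hv' he)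

theorem link_A {ι : Type*} {κ : ι → ℝ × ℂ × ℝ → P} {n j : ι → ℤ} {X : Type*} [TopologicalSpace X] [ChartedSpace E4 X]
    (D : TwinF J κ n j X) {ι' : Type*} {κ' : ι' → ℝ × ℂ × ℝ → P} (hκ' : LinkT J κ') (hd : Disjoint (TubF κ) (TubF κ')) :
    LinkT (𝓡 4) (fun i q => D.A (κ' i q)) := by
  have h1 : ∀ p ∈ TubF κ', ¬ OnF κ p := fun p hp => off_tub (Set.disjoint_right.1 hd hp)
  exact LkA_link hκ' (fun p hp => D.A_loc p (h1 p hp)) fun p hp p' hp' he => D.A_inj p p' (h1 p hp) (h1 p' hp') he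

theorem link_S {α : Type*} {γ : α → ℝ × E3 → P} {ε : ℝ} (hε : 0 < ε) {X : Type*} [TopologicalSpace X] [ChartedSpace E4 X]
    (S : SurgJ J γ ε X) {ι' : Type*} {κ' : ι' → ℝ × ℂ × ℝ → P} (hκ' : LinkT J κ') (hd : Disjoint (TubsC γ ε) (TubF κ')) :
    LinkT (𝓡 4) (fun i q => S.A (κ' i q)) := by
  have h1 : ∀ p ∈ TubF κ', OffC γ p := fun p hp => offC_tub hε (Set.disjoint_right.1 hd hp)
  exact LkA_link hκ' (fun p hp => S.A_loc p (h1 p hp)) fun p hp p' hp' he => S.A_inj p p' (h1 p hp) (h1 p' hp') he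

theorem tubes_A {ι : Type*} {κ : ι → ℝ × ℂ × ℝ → P} {n j : ι → ℤ} {X : Type*} [TopologicalSpace X] [ChartedSpace E4 X]
    (D : TwinF J κ n j X) {α : Type*} {γ : α → ℝ × E3 → P} {ε : ℝ} (hγ : TubesC J γ ε) (hd : Disjoint (TubF κ) (TubsC γ ε)) :
    TubesC (𝓡 4) (fun a q => D.A (γ a q)) ε := by
  have h1 : ∀ a l v, ‖v‖ < ε → ¬ OnF κ (γ a (l, v)) := fun a l v hv =>
    off_tub (Set.disjoint_right.1 hd ⟨a, l, v, hv, rfl⟩)
  refine ⟨fun a => LkA_thick (hγ.thick a) (fun l v hv => D.A_loc _ (h1 a l v hv))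
    fun l v l' v' hv hv' he => D.A_inj _ _ (h1 a l v hv) (h1 a l' v' hv') he, ?_⟩
  intro a a' haa l v l' v' hv hv' he
  exact hγ.disj a a' haa l v l' v' hv hv' (D.A_inj _ _ (h1 a l v hv) (h1 a' l' v' hv') he)

theorem thick_A {ι : Type*} {κ : ι → ℝ × ℂ × ℝ → P} {n j : ι → ℤ} {X : Type*} [TopologicalSpace X] [ChartedSpace E4 X]
    (D : TwinF J κ n j X) {γ : ℝ × E3 → P} {ε : ℝ} (hγ : ThickC J γ ε) (hd : ∀ l v, ‖v‖ < ε → γ (l, v) ∉ TubF κ) :
    ThickC (𝓡 4) (fun q => D.A (γ q)) ε :=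
  LkA_thick hγ (fun l v hv => D.A_loc _ (off_tub (hd l v hv)))
    fun l v l' v' hv hv' he => D.A_inj _ _ (off_tub (hd l v hv)) (off_tub (hd l' v' hv')) he

theorem thick_S {α : Type*} {γ : α → ℝ × E3 → P} {ε : ℝ} (hε : 0 < ε) {X : Type*} [TopologicalSpace X] [ChartedSpace E4 X]
    (S : SurgJ J γ ε X) {ν : ℝ × E3 → P} {ε' : ℝ} (hν : ThickC J ν ε') (hd : ∀ l v, ‖v‖ < ε' → ν (l, v) ∉ TubsC γ ε) :
    ThickC (𝓡 4) (fun q => S.A (ν q)) ε' :=
  LkA_thick hν (fun l v hv => S.A_loc _ (offC_tub hε (hd l v hv)))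
    fun l v l' v' hv hv' he => S.A_inj _ _ (offC_tub hε (hd l v hv)) (offC_tub hε (hd l' v' hv')) he

end Pool.Agent.LKS
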