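import Pool.Agent.LKS.Uni
import Pool.Agent.LKS.LkA

/-!
# LKS/Comp (difficulty 3-4): gluing the twins in two steps

PROOF.  `κ = Sum.elim κ₀ κ₁`; `A p = D₁.A (D₀.A p)`, `Q (inl i) z = D₁.A (D₀.Q i z)`, `Q (inr i) z = D₁.Q i z`.
(F1) `¬ OnF κ p ↔ ¬ OnF κ₀ p ∧ ¬ OnF κ₁ p`.
(F2) for `p` off `κ₀`: `OnF (D₀.A ∘ κ₁) (D₀.A p) ↔ OnF κ₁ p` (`κ₁ i (l, 0, t)` is off `κ₀`: disjoint tubes; `D₀.A_inj`).
(F2') `D₀.A (κ₁ i (l, v, t))`, `0 < ‖v‖ < 1`, is off the tori `D₀.A ∘ κ₁` (F2 and: `κ₁ i (l, v, t)` is off the tori `κ₁`).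
(F3) `D₀.Q i z` (`fh z ≠ 0`) is not of the form `D₀.A (κ₁ i' (l, v, t))`, `‖v‖ < 1`: `c1 z ≠ 0`, `c2 z ≠ 0` by `D₀.disj`, so `D₀.Q i z = D₀.A (κ₀ i (l', ρ ex m, t'))`
     by `D₀.glue` (choose `l' m t'`: `t' = arg c1 - arg c2`, `m = arg c2 + j t'`, `l' = arg fh + n t'` (divided by `2π`), `0 < ρ = 2|c1||c2| < 1`), and
     `κ₀ i (..) = κ₁ i' (..)` contradicts the disjointness of the tubes.  In particular `D₀.Q i z` is off the tori `D₀.A ∘ κ₁`.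
`A_loc`, `A_inj`: F1, F2.  `Q_loc`: F3.  `Q_inj`: (inl, inl) `D₁.A_inj`, `D₀.Q_inj`; (inr, inr) `D₁.Q_inj`; (inl, inr): `D₁.A (D₀.Q i z) = D₁.Q i' z'`: if `c1 z' = 0` or
`c2 z' = 0`: `D₁.disj` and F3; otherwise `D₁.Q i' z' = D₁.A (D₀.A (κ₁ i' (l, ρ ex m, t)))`, `D₀.Q i z = D₀.A (κ₁ i' (..))` by `D₁.A_inj` (F2'), contradiction F3.
`glue`: inl: `D₀.glue` and apply `D₁.A`; inr: `D₁.glue`.  `disj`: inl: `D₁.A_inj` and `D₀.disj`; inr: `D₁.disj`.  `cover`: `D₁.cover`, `D₀.cover`.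
-/

open scoped Manifold ContDiff Topology
open Set Filter
open Complex (I)
open Pool.Agent.RSG (E3 E4 S2 S3 S4 ex cj c1 c2 ht fh pS3 pS4)
open Pool.Agent.RBM (ThickT OnT)
open Pool.Agent.RBH (Tube)
open Pool.Agent.PTH (SP ISP)
open Pool.Agent.KNH (circ rot)
open Pool.Agent.LKF (LinkT OnF TubF TwinF)
open Pool.Agent.LKT (ThickC TubesC OffC SurgJ s1 s2 κa κb RR ΘU ΘH dir)
open Pool.Agent.LKB (Mf Std OLoop)

namespace Pool.Agent.LKS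

variable {E : Type*} [NormedAddCommGroup E] [NormedSpace ℝ E] {H : Type*} [TopologicalSpace H]
  {J : ModelWithCorners ℝ E H}
  {P : Type*} [TopologicalSpace P] [ChartedSpace H P]

omit [TopologicalSpace P] in
theorem Comp_onF {ι₀ ι₁ : Type*} {κ₀ : ι₀ → ℝ × ℂ × ℝ → P} {κ₁ : ι₁ → ℝ × ℂ × ℝ → P} {p : P} :
    OnF (Sum.elim κ₀ κ₁) p ↔ OnF κ₀ p ∨ OnF κ₁ p := by
  constructor
  · rintro ⟨i | i, h⟩
    · exact Or.inl ⟨i, h⟩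
    · exact Or.inr ⟨i, h⟩
  · rintro (⟨i, h⟩ | ⟨i, h⟩)
    · exact ⟨Sum.inl i, h⟩
    · exact ⟨Sum.inr i, h⟩

theorem comp {ι₀ ι₁ : Type*} {κ₀ : ι₀ → ℝ × ℂ × ℝ → P} {κ₁ : ι₁ → ℝ × ℂ × ℝ → P} {n₀ j₀ : ι₀ → ℤ} {n₁ j₁ : ι₁ → ℤ}
    (hL : LinkT J (Sum.elim κ₀ κ₁)) {Y : Type*} [TopologicalSpace Y] [ChartedSpace E4 Y] (D₀ : TwinF J κ₀ n₀ j₀ Y)
    {X : Type*} [TopologicalSpace X] [ChartedSpace E4 X] (D₁ : TwinF (𝓡 4) (fun i q => D₀.A (κ₁ i q)) n₁ j₁ X) :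
    Nonempty (TwinF J (Sum.elim κ₀ κ₁) (Sum.elim n₀ n₁) (Sum.elim j₀ j₁) X) := by
  have hL0 : LinkT J κ₀ := ⟨fun i => hL.thick (Sum.inl i), fun i i' l v t l' v' t' hv hv' he =>
    Sum.inl_injective (hL.disj (Sum.inl i) (Sum.inl i') l v t l' v' t' hv hv' he)⟩
  have hL1 : LinkT J κ₁ := ⟨fun i => hL.thick (Sum.inr i), fun i i' l v t l' v' t' hv hv' he =>
    Sum.inr_injective (hL.disj (Sum.inr i) (Sum.inr i') l v t l' v' t' hv hv' he)⟩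
  -- the two families are disjoint
  have hne : ∀ (i : ι₀) (i' : ι₁) (l : ℝ) (v : ℂ) (t l' : ℝ) (v' : ℂ) (t' : ℝ), ‖v‖ < 1 → ‖v'‖ < 1 →
      κ₀ i (l, v, t) ≠ κ₁ i' (l', v', t') := fun i i' l v t l' v' t' hv hv' he =>
    absurd (hL.disj (Sum.inl i) (Sum.inr i') l v t l' v' t' hv hv' he) (by simp)
  have h01 : ∀ (i : ι₁) (l : ℝ) (v : ℂ) (t : ℝ), ‖v‖ < 1 → ¬ OnF κ₀ (κ₁ i (l, v, t)) := by
    rintro i l v t hv ⟨i', l', t', he⟩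
    exact hne i' i l' 0 t' l v t (by simp) hv he.symm
  have hLA : LinkT (𝓡 4) (fun i q => D₀.A (κ₁ i q)) := by
    refine link_A D₀ hL1 ?_
    rw [Set.disjoint_left]
    rintro p ⟨i, l, v, t, hv, rfl⟩ ⟨i', l', v', t', hv', he⟩
    exact hne i i' l v t l' v' t' hv hv' he
  have hon : ∀ p, ¬ OnF κ₀ p → ¬ OnF κ₁ p → ¬ OnF (fun i q => D₀.A (κ₁ i q)) (D₀.A p) := by
    rintro p h0 h1 ⟨i, l, t, he⟩
    exact h1 ⟨i, l, t, D₀.A_inj _ _ h0 (h01 i l 0 t (by simp)) he⟩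
  -- the points of the first twins are not in the tubes
  have hQ : ∀ (i : ι₀) (z : S4), fh z ≠ 0 → ∀ (i' : ι₁) (l : ℝ) (v : ℂ) (t : ℝ), ‖v‖ < 1 →
      D₀.Q i z ≠ D₀.A (κ₁ i' (l, v, t)) := by
    intro i z hz i' l v t hv he
    by_cases h1 : c1 z = 0
    · exact D₀.disj i z _ hz (Or.inl h1) (h01 i' l v t hv) he
    by_cases h2 : c2 z = 0
    · exact D₀.disj i z _ hz (Or.inr h2) (h01 i' l v t hv) he
    obtain ⟨l', v', t', hv', -, hoff, hA⟩ := twin_pt hL0 D₀ i hz h1 h2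
    rw [hA Y D₀] at he
    exact hne i i' l' v' t' l v t hv' hv (D₀.A_inj _ _ hoff (h01 i' l v t hv) he)
  have hQo : ∀ (i : ι₀) (z : S4), fh z ≠ 0 → ¬ OnF (fun i q => D₀.A (κ₁ i q)) (D₀.Q i z) := by
    rintro i z hz ⟨i', l, t, he⟩
    exact hQ i z hz i' l 0 t (by simp) he
  have hQQ : ∀ (i : ι₀) (z : S4) (i' : ι₁) (z' : S4), fh z ≠ 0 → fh z' ≠ 0 → D₁.A (D₀.Q i z) ≠ D₁.Q i' z' := by
    intro i z i' z' hz hz' he
    by_cases h1 : c1 z' = 0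
    · exact D₁.disj i' z' _ hz' (Or.inl h1) (hQo i z hz) he.symm
    by_cases h2 : c2 z' = 0
    · exact D₁.disj i' z' _ hz' (Or.inr h2) (hQo i z hz) he.symm
    obtain ⟨l', v', t', hv', -, hoff, hA⟩ := twin_pt hLA D₁ i' hz' h1 h2
    rw [hA X D₁] at he
    exact hQ i z hz i' l' v' t' hv' (D₁.A_inj _ _ (hQo i z hz) hoff he)
  have hsp : ∀ p, ¬ OnF (Sum.elim κ₀ κ₁) p → ¬ OnF κ₀ p ∧ ¬ OnF κ₁ p := fun p hp =>
    ⟨fun h => hp (Comp_onF.2 (Or.inl h)), fun h => hp (Comp_onF.2 (Or.inr h))⟩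
  refine ⟨{
    A := fun p => D₁.A (D₀.A p)
    Q := Sum.elim (fun i z => D₁.A (D₀.Q i z)) (fun i z => D₁.Q i z)
    A_loc := ?_
    A_inj := ?_
    Q_loc := ?_
    Q_inj := ?_
    glue := ?_
    disj := ?_
    cover := ?_ }⟩
  · intro p hp
    obtain ⟨h0, h1⟩ := hsp p hp
    exact IsLocalDiffeomorphAt.comp (hf := D₀.A_loc p h0) (hg := D₁.A_loc _ (hon p h0 h1)) ..
  · intro p p' hp hp' he
    obtain ⟨h0, h1⟩ := hsp p hp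
    obtain ⟨h0', h1'⟩ := hsp p' hp'
    exact D₀.A_inj _ _ h0 h0' (D₁.A_inj _ _ (hon p h0 h1) (hon p' h0' h1') he)
  · rintro (i | i) z hz
    · exact IsLocalDiffeomorphAt.comp (hf := D₀.Q_loc i z hz) (hg := D₁.A_loc _ (hQo i z hz)) ..
    · exact D₁.Q_loc i z hz
  · rintro (i | i) z (i' | i') z' hz hz' he
    · have h1 := D₀.Q_inj i z i' z' hz hz' (D₁.A_inj _ _ (hQo i z hz) (hQo i' z' hz') he)
      exact ⟨congrArg Sum.inl h1.1, h1.2⟩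
    · exact absurd he (hQQ i z i' z' hz hz')
    · exact absurd he.symm (hQQ i' z' i z hz' hz)
    · have h1 := D₁.Q_inj i z i' z' hz hz' he
      exact ⟨congrArg Sum.inr h1.1, h1.2⟩
  · rintro (i | i) z l m t hz h1 h2 e1 e2 e3
    · exact congrArg D₁.A (D₀.glue i z l m t hz h1 h2 e1 e2 e3)
    · exact D₁.glue i z l m t hz h1 h2 e1 e2 e3
  · rintro (i | i) z p hz hc hp he
    · obtain ⟨h0, h1⟩ := hsp p hp
      exact D₀.disj i z p hz hc h0 (D₁.A_inj _ _ (hQo i z hz) (hon p h0 h1) he)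
    · obtain ⟨h0, h1⟩ := hsp p hp
      exact D₁.disj i z _ hz hc (hon p h0 h1) he
  · intro q
    rcases D₁.cover q with ⟨y, hy, rfl⟩ | ⟨i, z, hz, rfl⟩
    · rcases D₀.cover y with ⟨p, hp, rfl⟩ | ⟨i, z, hz, rfl⟩
      · refine Or.inl ⟨p, fun h => ?_, rfl⟩
        rcases Comp_onF.1 h with h | ⟨i, l, t, h⟩
        · exact hp h
        · exact hy ⟨i, l, t, congrArg D₀.A h⟩
      · exact Or.inr ⟨Sum.inl i, z, hz, rfl⟩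
    · exact Or.inr ⟨Sum.inr i, z, hz, rfl⟩

end Pool.Agent.LKS
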