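import Pool.Agent.LKT.Defs
import Pool.Agent.LKB.Defs

/-!
# LKS/Defs: splitting, definitions

* `PD J F`: the bijection `F` is a diffeomorphism.
* `sg v`: the point `(p + F v) / |p + F v|` of `S3`, `p = (4i/5, -3/5)`, `F` an isometry of `ℝ³` onto the orthogonal of `p`.
* `nu (l, v) = (sg v, circ l)`: thick circle of `S3 × S1`.  `NuB r`: its open tube of radius `r`.
* `N1 = (-1, 0)`, `N2 = (0, -1)`, `tor n j t = (4i/5 ex (-n t), -3/5 ex (-j t))`.
* `TubsC γ ε`: union of the open tubes of the thick circles.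
* `QE r κ`: for all `n`, `j` the twins can be glued along `κ`, the result being obtained from `S⁴` by `r` surgeries on circles.
-/

open scoped Manifold ContDiff Topology
open Set Filter
open Complex (I)
open Pool.Agent.RSG (E3 E4 S2 S3 S4 ex cj c1 c2 ht fh pS3 pS4)
open Pool.Agent.RBM (ThickT OnT)
open Pool.Agent.RBH (Tube)
open Pool.Agent.PTH (SP ISP)
open Pool.Agent.KNH (circ)
open Pool.Agent.LKF (LinkT OnF TubF TwinF)
open Pool.Agent.LKT (ThickC TubesC OffC SurgJ s1 s2)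
open Pool.Agent.LKB (Mf Std)

namespace Pool.Agent.LKS

/-- the bijection `F` is a diffeomorphism -/
def PD {E : Type*} [NormedAddCommGroup E] [NormedSpace ℝ E] {H : Type*} [TopologicalSpace H]
    (J : ModelWithCorners ℝ E H) {P : Type*} [TopologicalSpace P] [ChartedSpace H P] (F : Equiv.Perm P) : Prop :=
  ∀ p, IsLocalDiffeomorphAt J J ∞ F p

/-- the union of the open tubes -/
def TubsC {P ι : Type*} (γ : ι → ℝ × E3 → P) (ε : ℝ) : Set P := {p | ∃ (i : ι) (u : ℝ) (y : E3), ‖y‖ < ε ∧ p = γ i (u, y)}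

/-- the point `(p + F v) / |p + F v|`, `p = (4i/5, -3/5)` -/
noncomputable def sg (v : E3) : S3 :=
  pS3 ⟨v 0, 4 / 5 + 3 / 5 * v 1⟩ ⟨-3 / 5 + 4 / 5 * v 1, v 2⟩

/-- thick circle of `S3 × S1` -/
noncomputable def nu (q : ℝ × E3) : SP := (sg q.2, circ q.1)

/-- the open tube of radius `r` -/
def NuB (r : ℝ) : Set SP := {p | ∃ (l : ℝ) (v : E3), ‖v‖ < r ∧ p = nu (l, v)}

/-- the point `(-1, 0)` -/
noncomputable def N1 : S3 := pS3 (-1) 0
/-- the point `(0, -1)` -/
noncomputable def N2 : S3 := pS3 0 (-1)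

/-- closed curve on a torus of `S3` -/
noncomputable def tor (n j : ℤ) (t : ℝ) : S3 := pS3 (4 / 5 * I * ex (-n * t)) (-3 / 5 * ex (-j * t))

/-- The twins can be glued, and the result is obtained from `S⁴` by `r` surgeries on circles. -/
def QE {ι : Type} (r : ℕ) (κ : ι → ℝ × ℂ × ℝ → SP) : Prop :=
  ∀ n j : ι → ℤ, ∃ M : Mf, Std r M ∧ Nonempty (TwinF ISP κ n j M.X)

end Pool.Agent.LKS
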