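import Pool.Agent.LKS.Kab
import Pool.Agent.LKT.UnH
import Pool.Agent.LKT.ExJ
import Pool.Agent.LKJ.Main
import Pool.Agent.KNH.TopQ
import Pool.Agent.ACB.CmF

/-!
# LKS/HopB (difficulty 3): the Hopf link alone

PROOFS.  `surgJ_two`: `V` = surgery of `SP` along `γ 0` (`LKT.exists_surgJ` for `Unit`), `g = SV.A ∘ γ 1` is a thick circle of `V` (the tube of `γ 1` is disjoint from the tube of `γ 0`), `Y` = surgery of `V` along `g`
(`ACB.exists_surg`), and `SurgJ ISP γ ε Y`: `A = S.A ∘ SV.A`, `Q 0 (z, v) = S.A (SV.Q () (z, v))`, `Q 1 = S.Q ()`: copy the proof of `ACB.surg_from` (or of `LKT.surg_opt`) with the model `ISP` on the first manifold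
(or change the model of `SP` as in `LKT/ExJ.lean`, `exists_surgJ_gen`).
`hopf_base`: `hopf' m₁ m₂` (explicit circles `TwS_g ![κa, κb]`), `surgJ_two`: `TwS_g ![κa, κb] 0 = TwS_g (fun _ : Unit => κa) ()` (rfl), so by `unk' 0 0` the manifold `V` carries `TwinF ISP (fun _ : Unit => κa) 0 0`, i.e.
`TwinP ISP κa 0 0 V` (`κa = prd (..)`, see κa_thick in UnA), `KNH.dic` (`KNH/DicM`), `KNH.gluck_unique`: `V ≃ₘ S4`: `Std 0 ⟨V⟩`.  So `Std 1 ⟨Y⟩`.  `D : TwinF ISP ![κa, κb] ![m₁, m₂] ![m₂, m₁] Y` from `hopf'`, the twists are changed by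
`LKJ.jany` (`link_ab`).
-/

open scoped Manifold ContDiff Topology
open Set Filter
open Complex (I)
open Pool.Agent.RSG (E3 E4 S2 S3 S4 ex cj c1 c2 ht fh pS3 pS4)
open Pool.Agent.RBM (ThickT OnT)
open Pool.Agent.RBH (Tube)
open Pool.Agent.PTH (SP ISP)
open Pool.Agent.KNH (circ rot)
open Pool.Agent.LKF (LinkT OnF TubF TwinF)
open Pool.Agent.LKT (ThickC TubesC OffC SurgJ s1 s2 κa κb RR ΘU ΘH dir)
open Pool.Agent.LKB (Mf Std OLoop)

namespace Pool.Agent.LKS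

theorem surgJ_two {γ : Fin 2 → ℝ × E3 → SP} {ε : ℝ} (hγ : TubesC ISP γ ε) :
    ∃ (V : Type) (_ : TopologicalSpace V) (_ : ChartedSpace E4 V) (Y : Type) (_ : TopologicalSpace Y) (_ : ChartedSpace E4 Y),
      IsManifold (𝓡 4) ∞ V ∧ T2Space V ∧ IsManifold (𝓡 4) ∞ Y ∧ T2Space Y ∧
      Nonempty (SurgJ ISP (fun _ : Unit => γ 0) ε V) ∧ (∃ g : ℝ × E3 → V, ACB.IsSurg (fun _ : Unit => g) Y) ∧
      Nonempty (SurgJ ISP γ ε Y) := by
  have hpos : 0 < ε := (hγ.thick 0).pos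
  have h0 : ‖(0 : E3)‖ < ε := by rw [norm_zero]; exact hpos
  have hd : ∀ (l : ℝ) (v : E3) (l' : ℝ) (v' : E3), ‖v‖ < ε → ‖v'‖ < ε → γ 1 (l, v) ≠ γ 0 (l', v') :=
    fun l v l' v' hv hv' => hγ.disj 1 0 (by decide) l v l' v' hv hv'
  have hγ0 : TubesC ISP (fun _ : Unit => γ 0) ε :=
    ⟨fun _ => hγ.thick 0, fun i i' h => absurd (Subsingleton.elim i i') h⟩
  obtain ⟨V, _, _, hV1, hV2, ⟨SV⟩⟩ := LKT.exists_surgJ hγ0
  have hk1 : ∀ l (v : E3), ‖v‖ < ε → OffC (fun _ : Unit => γ 0) (γ 1 (l, v)) :=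
    fun l v hv _ l' => hd l v l' 0 hv h0
  have hth : ACB.Thick (fun x => SV.A (γ 1 x)) ε := by
    refine ⟨hpos, ?_, ?_, ?_⟩
    · intro l v hv
      show SV.A (γ 1 (l + 1, v)) = SV.A (γ 1 (l, v))
      rw [(hγ.thick 1).per l v hv]
    · intro l v hv
      exact IsLocalDiffeomorphAt.comp (hf := (hγ.thick 1).loc l v hv)
        (hg := SV.A_loc _ (hk1 l v hv)) ..
    · intro l v l' v' hv hv' he
      exact (hγ.thick 1).inj l v l' v' hv hv' (SV.A_inj _ _ (hk1 l v hv) (hk1 l' v' hv') he)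
  obtain ⟨Y, _, _, hY1, hY2, ⟨S⟩⟩ := ACB.exists_surg hth
  have htub : ACB.Tubes (fun _ : Unit => fun x => SV.A (γ 1 x)) ε :=
    ⟨fun _ => hth, fun i j h => absurd (Subsingleton.elim i j) h⟩
  have hoff2 : ∀ p, OffC γ p → OffC (fun _ : Unit => γ 0) p := fun p hp _ l => hp 0 l
  have ha : ∀ p, OffC γ p → ACB.Off (fun _ : Unit => fun x => SV.A (γ 1 x)) (SV.A p) := by
    intro p hp _ l he
    exact hp 1 l (SV.A_inj p (γ 1 (l, 0)) (hoff2 p hp) (hk1 l 0 h0) he)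
  have hb : ∀ (z : ℂ) (w : S2), ‖z‖ < ε →
      ACB.Off (fun _ : Unit => fun x => SV.A (γ 1 x)) (SV.Q () (z, w)) := by
    intro z w hz _ l' he
    by_cases hz0 : z = 0
    · subst hz0
      exact SV.disj () w (γ 1 (l', 0)) (hk1 l' 0 h0) he
    · obtain ⟨l, hl⟩ := ACB.ex_polar z
      have hr : 0 < ‖z‖ := norm_pos_iff.2 hz0
      have hg : SV.Q () (z, w) = SV.A (γ 0 (l, ‖z‖ • w.1)) := by
        have := SV.glue () l ‖z‖ w hr hz
        rw [← this]
        congr 2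
      have hw : ‖‖z‖ • w.1‖ < ε := by
        rw [norm_smul, norm_norm, norm_eq_of_mem_sphere w, mul_one]
        exact hz
      have hoff : OffC (fun _ : Unit => γ 0) (γ 0 (l, ‖z‖ • w.1)) := by
        intro _ l'' he2
        have h3 := ((hγ.thick 0).inj l (‖z‖ • w.1) l'' 0 hw h0 he2).1
        have h4 : ‖‖z‖ • w.1‖ = 0 := by rw [h3, norm_zero]
        rw [norm_smul, norm_norm, norm_eq_of_mem_sphere w, mul_one] at h4
        exact hz0 (norm_eq_zero.1 h4)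
      rw [hg] at he
      have h5 := SV.A_inj _ _ hoff (hk1 l' 0 h0) he
      exact hd l' 0 l (‖z‖ • w.1) h0 hw h5.symm
  have hb0 : ∀ w : S2, ACB.Off (fun _ : Unit => fun x => SV.A (γ 1 x)) (SV.Q () (0, w)) :=
    fun w => hb 0 w (by rw [norm_zero]; exact hpos)
  refine ⟨V, inferInstance, inferInstance, Y, inferInstance, inferInstance, hV1, hV2, hY1, hY2, ⟨SV⟩,
    ⟨_, ε, htub, ⟨S⟩⟩, ⟨{ A := fun p => S.A (SV.A p)
                          Q := ![fun x => S.A (SV.Q () x), S.Q ()]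
                          A_loc := ?_
                          A_inj := ?_
                          Q_loc := ?_
                          glue := ?_
                          Q_inj := ?_
                          disj := ?_
                          cover := ?_ }⟩⟩
  · intro p hp
    exact IsLocalDiffeomorphAt.comp (hf := SV.A_loc p (hoff2 p hp)) (hg := S.A_loc _ (ha p hp)) ..
  · intro p p' hp hp' he
    exact SV.A_inj p p' (hoff2 p hp) (hoff2 p' hp') (S.A_inj _ _ (ha p hp) (ha p' hp') he)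
  · intro o z v hz
    fin_cases o
    · exact IsLocalDiffeomorphAt.comp (hf := SV.Q_loc () z v hz) (hg := S.A_loc _ (hb z v hz)) ..
    · exact S.Q_loc () z v hz
  · intro o l r v hr hr'
    fin_cases o
    · show S.A (SV.Q () (r * RSG.ex l, v)) = S.A (SV.A (γ 0 (l, r • v.1)))
      rw [SV.glue () l r v hr hr']
    · exact S.glue () l r v hr hr'
  · intro o o' v v' he
    fin_cases o <;> fin_cases o'
    · have h1 : S.A (SV.Q () (0, v)) = S.A (SV.Q () (0, v')) := he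
      exact ⟨rfl, (SV.Q_inj () () v v' (S.A_inj _ _ (hb0 v) (hb0 v') h1)).2⟩
    · exact absurd he.symm (S.disj () v' _ (hb0 v))
    · exact absurd he (S.disj () v _ (hb0 v'))
    · exact ⟨rfl, (S.Q_inj () () v v' he).2⟩
  · intro o v p hp
    fin_cases o
    · intro he
      have h1 : S.A (SV.Q () (0, v)) = S.A (SV.A p) := he
      exact SV.disj () v p (hoff2 p hp) (S.A_inj _ _ (hb0 v) (ha p hp) h1)
    · exact S.disj () v _ (ha p hp)
  · intro q
    rcases S.cover q with ⟨x, hx, hq⟩ | ⟨_, v, hq⟩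
    · rcases SV.cover x with ⟨p, hp, hxp⟩ | ⟨i, w, hxw⟩
      · refine Or.inl ⟨p, ?_, by rw [hq, hxp]⟩
        intro o l
        fin_cases o
        · exact hp () l
        · intro he
          refine hx () l ?_
          show x = SV.A (γ 1 (l, 0))
          rw [hxp]
          exact congrArg SV.A he
      · exact Or.inr ⟨0, w, by rw [hq, hxw]; rfl⟩
    · exact Or.inr ⟨1, v, by rw [hq]; rfl⟩

/-- the thick knot of `κa` -/
theorem HopB_thick : RSG.Thick fun q : ℝ × ℂ => pS3 ((Real.sqrt (1 - ‖q.2‖ ^ 2 / 4) : ℝ) * ex q.1) (q.2 / 2) := by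
  refine LKT.thick_congr (LKT.thick_sw (LKT.thick_half (RSG.std_thick 0))) ?_ ?_
  · intro l v
    have h1 : ex (l + 1) = ex l := by
      have := RSG.ex_add_int l 1
      simpa using this
    simp only [h1]
  · intro l v hv
    have hv2 : ‖v‖ < 2 := by linarith
    obtain ⟨h1, h2, -⟩ := LKT.κa_s hv2 l 0
    obtain ⟨h3, h4, -⟩ := LKT.κb_s hv2 l 0
    have h5 : (κb (l, v, 0)).1 = RSG.std 0 (l, v / 2) := by rw [LKT.κb_eq]; rfl
    change (κa (l, v, 0)).1 = LKT.sw (RSG.std 0 (l, v / 2))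
    rw [← h5]
    obtain ⟨h6, h7⟩ := LKT.sw_s (κb (l, v, 0)).1
    exact LKT.s_ext (by rw [h1, h6, h3]) (by rw [h2, h7, h4])

theorem HopB_on (p : SP) : OnF (fun _ : Unit => κa) p ↔ OnT κa p :=
  ⟨fun ⟨_, h⟩ => h, fun h => ⟨(), h⟩⟩

/-- a family with one member -/
theorem HopB_one {n j : ℤ} {X : Type} [TopologicalSpace X] [ChartedSpace E4 X]
    (D : TwinF ISP (fun _ : Unit => κa) (fun _ => n) (fun _ => j) X) :
    Nonempty (RBM.TwinP ISP κa n j X) := by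
  refine ⟨{ A := D.A
            Q := D.Q ()
            A_loc := fun p hp => D.A_loc p (fun h => hp ((HopB_on p).1 h))
            A_inj := fun p p' hp hp' he => D.A_inj p p' (fun h => hp ((HopB_on p).1 h))
              (fun h => hp' ((HopB_on p').1 h)) he
            Q_loc := D.Q_loc ()
            Q_inj := fun z z' h h' he => (D.Q_inj () z () z' h h' he).2
            glue := D.glue ()
            disj := fun z p hz hc hp => D.disj () z p hz hc (fun h => hp ((HopB_on p).1 h))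
            cover := ?_ }⟩
  intro q
  rcases D.cover q with ⟨p, hp, hq⟩ | ⟨_, z, hz, hq⟩
  · exact Or.inl ⟨p, fun h => hp ((HopB_on p).2 h), hq⟩
  · exact Or.inr ⟨z, hz, hq⟩


theorem hopf_base (m a : Fin 2 → ℤ) : ∃ M : Mf, Std 1 M ∧ Nonempty (TwinF ISP ![κa, κb] m a M.X) := by
  obtain ⟨h1, h2, h3, h4⟩ := LKT.hopf' (m 0) (m 1)
  obtain ⟨V, _, _, Y, _, _, hV1, hV2, hY1, hY2, ⟨SV⟩, ⟨g, hg⟩, ⟨SY⟩⟩ := surgJ_two h1
  have hSV : SurgJ ISP (LKT.TwS_g fun _ : Unit => κa) (1 / 4) V := SV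
  obtain ⟨D0, -⟩ := (LKT.unk' 0 0).2.2.2 V hSV
  obtain ⟨D1⟩ := HopB_one D0
  have hD1 : Nonempty (RBM.TwinP ISP
      (KNH.prd fun q : ℝ × ℂ => pS3 ((Real.sqrt (1 - ‖q.2‖ ^ 2 / 4) : ℝ) * ex q.1) (q.2 / 2)) 0 0 V) := ⟨D1⟩
  have hVS : Nonempty (V ≃ₘ⟮𝓡 4, 𝓡 4⟯ S4) := KNH.gluck_unique HopB_thick (KNH.dic.1 hD1)
  obtain ⟨D, -⟩ := h4 Y SY
  have hm : (![m 0, m 1] : Fin 2 → ℤ) = m := by
    funext i
    fin_cases i <;> rfl
  rw [hm] at D
  have hD := LKJ.jany (P := SP) LKT.link_ab a ⟨D⟩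
  exact ⟨⟨Y⟩, ⟨⟨V⟩, hVS, g, hg⟩, hD⟩

end Pool.Agent.LKS
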