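import Pool.Agent.LKS.Kab
import Pool.Agent.LKF.ShrM
import Pool.Agent.LKF.GerF

/-!
# LKS/Shk (difficulty 2-3): shrinking the tubes into `NuB (1/20)`

PROOF.  `F = (NuB (1/20))ᶜ` is closed (`nuB_open`).  The torus of `κ i` is in `NuB (1/20)`: `κ i (l, 0, t) = rot t (κ i (l, 0, 0)) = (c i l, circ t)` (equivariance; `rot t (x, z) = (x, z circ t)`), `c i l = sg v`, `‖v‖ < 1/20`, so it is
`nu (t, v)`.  `LKF.shrink` for each `i`: `κ' i`, equivariant, equal to `κ i` near the torus, tube contained in that of `κ i` and disjoint from `F`.  `LinkT` for `κ'` (subtubes).  `QE`: `LKF.germF` (take the minimum of the radii `η i`, `ι` finite).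
-/

open scoped Manifold ContDiff Topology
open Set Filter
open Complex (I)
open Pool.Agent.RSG (E3 E4 S2 S3 S4 ex cj c1 c2 ht fh pS3 pS4)
open Pool.Agent.RBM (ThickT OnT)
open Pool.Agent.RBH (Tube)
open Pool.Agent.PTH (SP ISP)
open Pool.Agent.KNH (circ rot)
open Pool.Agent.LKF (LinkT OnF TubF TwinF)
open Pool.Agent.LKT (ThickC TubesC OffC SurgJ s1 s2 κa κb RR ΘU ΘH dir)
open Pool.Agent.LKB (Mf Std OLoop)

namespace Pool.Agent.LKS

theorem shk {ι : Type} [Finite ι] {κ : ι → ℝ × ℂ × ℝ → SP} (hκ : LinkT ISP κ) (he : ∀ i, COR.Equi rot (κ i))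
    {c : ι → ℝ → S3} (hc : ∀ i l, κ i (l, 0, 0) = (c i l, 1)) (hs : ∀ i l, c i l ∈ sg '' Metric.ball 0 (1 / 20))
    {r : ℕ} (hQ : QE r κ) :
    ∃ κ' : ι → ℝ × ℂ × ℝ → SP, LinkT ISP κ' ∧ (∀ i, COR.Equi rot (κ' i)) ∧ (∀ i l, κ' i (l, 0, 0) = (c i l, 1)) ∧
      TubF κ' ⊆ NuB (1 / 20) ∧ QE r κ' := by
  classical
  have hF : IsClosed (NuB (1 / 20))ᶜ := (nuB_open (1 / 20)).isClosed_compl
  have h : ∀ (i : ι) (l t : ℝ), κ i (l, 0, t) ∉ (NuB (1 / 20))ᶜ := by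
    intro i l t hn
    apply hn
    obtain ⟨v, hv, hv'⟩ := hs i l
    refine ⟨t, v, by simpa using hv, ?_⟩
    rw [he i l 0 t, hc i l, ← hv']
    show (sg v, (1 : Circle) * circ t) = (sg v, circ t)
    rw [one_mul]
  choose κ' hT hE hg hsub hcl hdis using fun i => LKF.shrink (hκ.thick i) hF (h i)
  choose η hη hge using hg
  have hL : LinkT ISP κ' := by
    refine ⟨hT, ?_⟩
    intro i i' l v t l' v' t' hv hv' heq
    obtain ⟨l₁, v₁, t₁, h1, h2⟩ := hsub i ⟨l, v, t, hv, rfl⟩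
    obtain ⟨l₂, v₂, t₂, h3, h4⟩ := hsub i' ⟨l', v', t', hv', rfl⟩
    exact hκ.disj i i' l₁ v₁ t₁ l₂ v₂ t₂ h1 h3 (by rw [← h2, ← h4, heq])
  obtain ⟨η₀, hη₀, hle⟩ : ∃ η₀ : ℝ, 0 < η₀ ∧ ∀ i, η₀ ≤ η i := by
    rcases isEmpty_or_nonempty ι with hι | hι
    · exact ⟨1, one_pos, fun i => hι.elim i⟩
    · obtain ⟨i₀, hi₀⟩ := Finite.exists_min η
      exact ⟨η i₀, hη i₀, hi₀⟩
  refine ⟨κ', hL, fun i => hE i rot (he i), ?_, ?_, ?_⟩
  · intro i l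
    rw [hge i l 0 0 (by rw [norm_zero]; exact hη i), hc i l]
  · rintro p ⟨i, hp⟩
    by_contra hn
    exact Set.disjoint_left.1 (hdis i) (subset_closure hp) hn
  · intro n j
    obtain ⟨M, hM, ⟨D⟩⟩ := hQ n j
    exact ⟨M, hM, LKF.germF hη₀ hκ hL (fun i l v t hv => hge i l v t (lt_of_lt_of_le hv (hle i))) D⟩

end Pool.Agent.LKS
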