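import Pool.Agent.LKS.StdS
import Pool.Agent.LKS.Shk
import Pool.Agent.LKS.HopB
import Pool.Agent.LKR.Rel
import Pool.Agent.LKF.ImgF
import Pool.Agent.KNH.TopQ

/-!
# LKS/Ind: the induction on the number of components

`ind`: every labelled link with `k + 1` components carries `QE k`.
`fin4`: `QE k κ` for every equivariant family `κ` of `k + 1` thick tori.
-/

open scoped Manifold ContDiff Topology
open Set Filter
open Complex (I)
open Pool.Agent.RSG (E3 E4 S2 S3 S4 ex cj c1 c2 ht fh pS3 pS4)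
open Pool.Agent.RBM (ThickT OnT TwinP)
open Pool.Agent.RBH (Tube)
open Pool.Agent.PTH (SP ISP)
open Pool.Agent.KNH (circ rot Hat prd)
open Pool.Agent.KNT (U)
open Pool.Agent.CLG (io)
open Pool.Agent.LKF (LinkT OnF TubF TwinF LS MonoF)
open Pool.Agent.LKR (Lk Spl1 Spl2 Og Ps PInv)
open Pool.Agent.LKT (κa κb)
open Pool.Agent.LKB (Mf Std OLoop)

namespace Pool.Agent.LKS

theorem QE_mono {ι : Type} (r : ℕ) : MonoF.{0} ISP (QE (ι := ι) r) := by
  rintro κ κ' - - ⟨φ, hφ, h⟩ hQ n j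
  obtain ⟨⟨n', j'⟩, hnj⟩ := hφ (n, j)
  obtain ⟨M, hM, hD⟩ := hQ n' j'
  refine ⟨M, hM, ?_⟩
  have h1 := h M.X n' j' hD
  rw [hnj] at h1
  exact h1

theorem QE_e {ι ι₂ : Type} {r : ℕ} {κ : ι₂ → ℝ × ℂ × ℝ → SP} (e : ι ≃ ι₂) (h : QE r κ) : QE r (fun i => κ (e i)) := by
  intro n j
  obtain ⟨M, hM, ⟨D⟩⟩ := h (fun i => n (e.symm i)) (fun i => j (e.symm i))
  obtain ⟨D', -⟩ := twin_e D e
  simp only [Equiv.symm_apply_apply] at D'
  exact ⟨M, hM, ⟨D'⟩⟩

theorem QE_perm {ι : Type} (r : ℕ) : PInv (QE (ι := ι) r) := by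
  intro σ κ hQ
  have h := QE_e σ.symm hQ
  simpa only [Equiv.apply_symm_apply] using h

theorem ls_e {ι ι₂ : Type} {r : ℕ} (e : ι ≃ ι₂) {S : ι₂ → Set S3} (h : LS (QE r) S) : LS (QE r) (fun i => S (e i)) := by
  obtain ⟨c, κ, hL, hE, hc, hr, hQ⟩ := h
  exact ⟨fun i => c (e i), fun i => κ (e i), link_e hL e, fun i => hE _, fun i l => hc _ l, fun i => hr _, QE_e e hQ⟩

/-- one torus -/
theorem twin_one {ι : Type} [Subsingleton ι] {κ : ℝ × ℂ × ℝ → SP} {n j : ι → ℤ} (i₀ : ι) {X : Type}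
    [TopologicalSpace X] [ChartedSpace E4 X] (D : TwinP ISP κ (n i₀) (j i₀) X) : Nonempty (TwinF ISP (fun _ : ι => κ) n j X) := by
  have hon : ∀ p, OnF (fun _ : ι => κ) p ↔ OnT κ p := fun p => ⟨fun ⟨_, h⟩ => h, fun h => ⟨i₀, h⟩⟩
  have hi : ∀ i, i = i₀ := fun i => Subsingleton.elim i i₀
  exact ⟨{
    A := D.A
    Q := fun _ => D.Q
    A_loc := fun p hp => D.A_loc p (fun h => hp ((hon p).2 h))
    A_inj := fun p p' hp hp' => D.A_inj p p' (fun h => hp ((hon p).2 h)) (fun h => hp' ((hon p').2 h))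
    Q_loc := fun _ z hz => D.Q_loc z hz
    Q_inj := fun i z i' z' hz hz' h => ⟨Subsingleton.elim _ _, D.Q_inj z z' hz hz' h⟩
    glue := by
      intro i z l m t hz h1 h2 e1 e2 e3
      rw [hi i] at e1 e2 e3
      exact D.glue z l m t hz h1 h2 e1 e2 e3
    disj := fun _ z p hz hc hp => D.disj z p hz hc (fun h => hp ((hon p).2 h))
    cover := by
      intro q
      rcases D.cover q with ⟨p, hp, h⟩ | ⟨z, hz, h⟩
      · exact Or.inl ⟨p, fun h => hp ((hon p).1 h), h⟩
      · exact Or.inr ⟨i₀, z, hz, h⟩ }⟩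

/-- the axis -/
theorem qe_axis {ι : Type} [Subsingleton ι] (i₀ : ι) : QE 0 (fun _ : ι => prd (RSG.std 0)) := by
  intro n j
  obtain ⟨D⟩ := KNH.dic.2 (RSG.base_unknot 0 (n i₀) (j i₀))
  exact ⟨⟨S4⟩, ⟨Diffeomorph.refl _ _ _⟩, twin_one i₀ D⟩

theorem nuB_mono {r r' : ℝ} (h : r ≤ r') : NuB r ⊆ NuB r' := by
  rintro p ⟨l, v, hv, hp⟩
  exact ⟨l, v, hv.trans_le h, hp⟩

theorem ls_axis {ι : Type} [Subsingleton ι] (i₀ : ι) : LS (QE 0) (fun _ : ι => Hat U) := by
  refine ⟨fun _ l => RSG.std 0 (l, 0), fun _ => prd (RSG.std 0), ⟨fun _ => KNH.prd_thick (RSG.std_thick 0), ?_⟩,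
    fun _ => KNH.prd_equi _, fun _ l => KNH.prd_core l, fun _ => ?_, qe_axis i₀⟩
  · intro i i' _ _ _ _ _ _ _ _ _
    exact Subsingleton.elim _ _
  · rw [KNH.hat_axis]
    congr 1
    funext l
    unfold RSG.std
    simp

/-- the induction hypothesis -/
def IH (k : ℕ) : Prop := ∀ (ι : Type) [Finite ι], Nat.card ι = k + 1 → ∀ S : ι → Set S3, Lk S → LS (QE k) S

open Classical in
noncomputable def eU {ι : Type} (i₀ : ι) : ι ≃ Unit ⊕ {i : ι // i ≠ i₀} where
  toFun i := if h : i = i₀ then Sum.inl () else Sum.inr ⟨i, h⟩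
  invFun x := Sum.elim (fun _ => i₀) (fun i => i.1) x
  left_inv i := by
    by_cases h : i = i₀
    · simp [h]
    · simp [h]
  right_inv x := by
    rcases x with x | x
    · simp
    · simp [x.2]

open Classical in
noncomputable def eH {ι : Type} (i₀ i₁ : ι) (hne : i₁ ≠ i₀) : ι ≃ Fin 2 ⊕ {i : ι // i ≠ i₀ ∧ i ≠ i₁} where
  toFun i := if h : i = i₁ then Sum.inl 0 else if h' : i = i₀ then Sum.inl 1 else Sum.inr ⟨i, h', h⟩
  invFun x := Sum.elim ![i₁, i₀] (fun i => i.1) x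
  left_inv i := by
    by_cases h : i = i₁
    · simp [h]
    · by_cases h' : i = i₀
      · subst h'
        simp [h]
      · simp [h, h']
  right_inv x := by
    rcases x with x | x
    · fin_cases x
      · simp
      · simp [hne.symm]
    · simp [x.2.1, x.2.2]

/-- the small part -/
theorem small {ι : Type} [Finite ι] {m : ℕ} (ih : IH m) (hk : Nat.card ι = m + 1) {S : ι → Set S3} (hS : Lk S)
    (hs : ∀ i, S i ⊆ sg '' Metric.ball 0 (1 / 20)) :
    ∃ (c : ι → ℝ → S3) (κ : ι → ℝ × ℂ × ℝ → SP), LinkT ISP κ ∧ (∀ i, COR.Equi rot (κ i)) ∧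
      (∀ i l, κ i (l, 0, 0) = (c i l, 1)) ∧ (∀ i, range (c i) = S i) ∧ TubF κ ⊆ NuB (1 / 20) ∧ QE m κ := by
  obtain ⟨c, κ, hL, hE, hc, hr, hQ⟩ := ih ι hk S hS
  obtain ⟨κ', hL', hE', hc', hT, hQ'⟩ := shk hL hE hc (fun i l => hs i (by rw [← hr i]; exact mem_range_self l)) hQ
  exact ⟨c, κ', hL', hE', hc', hr, hT, hQ'⟩

theorem ind1 {k : ℕ} (ih : ∀ m < k, IH m) {ι : Type} [Finite ι] (hk : Nat.card ι = k + 1) {S : ι → Set S3} (hS : Lk S)
    {i₀ : ι} (h0 : S i₀ = Hat U) (h1 : ∀ i, i ≠ i₀ → S i ⊆ sg '' Metric.ball 0 (1 / 20)) : LS (QE k) S := by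
  have hcard : Nat.card {i : ι // i ≠ i₀} = k := by
    have h2 := Nat.card_congr (eU i₀)
    rw [Nat.card_sum, hk, Nat.card_unique] at h2
    omega
  rcases k with _ | m
  · have : Subsingleton ι := (Nat.card_eq_one_iff_unique.1 hk).1
    have h2 : S = fun _ => Hat U := by
      funext i
      rw [Subsingleton.elim i i₀, h0]
    rw [h2]
    exact ls_axis i₀
  · obtain ⟨c, κ, hL, hE, hc, hr, hT, hQ⟩ := small (ih m (Nat.lt_succ_self m)) hcard
      (LKR.ls_sub hS (fun i => i ≠ i₀)) (fun i => h1 i.1 i.2)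
    have h2 : S = fun i => (Sum.elim (fun _ : Unit => Hat U) (fun i : {i : ι // i ≠ i₀} => S i.1)) (eU i₀ i) := by
      funext i
      by_cases h : i = i₀
      · subst h
        simp [eU, h0]
      · simp [eU, h]
    rw [h2]
    apply ls_e
    refine ⟨Sum.elim (fun _ l => pS3 0 (ex l)) c, Sum.elim (fun _ => κb) κ, link_sum link_b hL ?_, ?_, ?_, ?_, ?_⟩
    · exact disj_b.mono_right (hT.trans (nuB_mono (by norm_num)))
    · rintro (i | i)
      · exact equi_b
      · exact hE i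
    · rintro (i | i) l
      · exact core_b l
      · exact hc i l
    · rintro (i | i)
      · exact range_b
      · exact hr i
    · intro n j
      obtain ⟨M, hM, hD⟩ := hQ (fun i => n (Sum.inr i)) (fun i => j (Sum.inr i))
      obtain ⟨M', hM', hD'⟩ := stdU (n (Sum.inl ())) (j (Sum.inl ())) hL hT hM hD
      refine ⟨M', hM', ?_⟩
      have e1 : Sum.elim (fun _ : Unit => n (Sum.inl ())) (fun i => n (Sum.inr i)) = n := by
        funext i
        rcases i with i | i <;> rfl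
      have e2 : Sum.elim (fun _ : Unit => j (Sum.inl ())) (fun i => j (Sum.inr i)) = j := by
        funext i
        rcases i with i | i <;> rfl
      rw [e1, e2] at hD'
      exact hD'

theorem ind2 {k : ℕ} (ih : ∀ m < k, IH m) {ι : Type} [Finite ι] (hk : Nat.card ι = k + 1) {S : ι → Set S3} (hS : Lk S)
    {i₀ i₁ : ι} (hne : i₁ ≠ i₀) (h0 : S i₀ = Hat U) (h1 : S i₁ = io '' Og 1)
    (h2 : ∀ i, i ≠ i₀ → i ≠ i₁ → S i ⊆ sg '' Metric.ball 0 (1 / 20)) : LS (QE k) S := by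
  have hcard : Nat.card {i : ι // i ≠ i₀ ∧ i ≠ i₁} + 1 = k := by
    have h3 := Nat.card_congr (eH i₀ i₁ hne)
    rw [Nat.card_sum, hk, Nat.card_eq_fintype_card (α := Fin 2), Fintype.card_fin] at h3
    omega
  have h3 : S = fun i => (Sum.elim ![io '' Og 1, Hat U] (fun i : {i : ι // i ≠ i₀ ∧ i ≠ i₁} => S i.1)) (eH i₀ i₁ hne i) := by
    funext i
    by_cases h : i = i₁
    · subst h
      simp [eH, h1]
    · by_cases h' : i = i₀
      · subst h'
        simp [eH, h, h0]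
      · simp [eH, h, h']
  have hra : range (fun l : ℝ => pS3 (ex l) 0) = io '' Og 1 := range_a
  rcases k with _ | m
  · omega
  rcases m with _ | m
  · have : IsEmpty {i : ι // i ≠ i₀ ∧ i ≠ i₁} := by
      rw [← Finite.card_eq_zero_iff]
      omega
    have h4 : S = fun i => (![io '' Og 1, Hat U] : Fin 2 → Set S3) (((eH i₀ i₁ hne).trans (Equiv.sumEmpty _ _)) i) := by
      rw [h3]
      funext i
      show _ = _
      rcases h5 : eH i₀ i₁ hne i with x | x
      · simp [h5]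
      · exact isEmptyElim x
    rw [h4]
    apply ls_e
    refine ⟨![fun l => pS3 (ex l) 0, fun l => pS3 0 (ex l)], ![κa, κb], LKT.link_ab, ?_, ?_, ?_, fun n j => hopf_base n j⟩
    · intro i
      fin_cases i
      · exact equi_a
      · exact equi_b
    · intro i l
      fin_cases i
      · exact core_a l
      · exact core_b l
    · intro i
      fin_cases i
      · exact hra
      · exact range_b
  · obtain ⟨c, κ, hL, hE, hc, hr, hT, hQ⟩ := small (ih m (by omega)) (by omega)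
      (LKR.ls_sub hS (fun i => i ≠ i₀ ∧ i ≠ i₁)) (fun i => h2 i.1 i.2.1 i.2.2)
    rw [h3]
    apply ls_e
    refine ⟨Sum.elim ![fun l => pS3 (ex l) 0, fun l => pS3 0 (ex l)] c, Sum.elim ![κa, κb] κ, link_sum LKT.link_ab hL ?_,
      ?_, ?_, ?_, ?_⟩
    · exact disj_ab.mono_right (hT.trans (nuB_mono (by norm_num)))
    · rintro (i | i)
      · fin_cases i
        · exact equi_a
        · exact equi_b
      · exact hE i
    · rintro (i | i) l
      · fin_cases i
        · exact core_a l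
        · exact core_b l
      · exact hc i l
    · rintro (i | i)
      · fin_cases i
        · exact hra
        · exact range_b
      · exact hr i
    · intro n j
      obtain ⟨M, hM, hD⟩ := hQ (fun i => n (Sum.inr i)) (fun i => j (Sum.inr i))
      obtain ⟨M', hM', hD'⟩ := stdH (fun i => n (Sum.inl i)) (fun i => j (Sum.inl i)) hL hT hM hD
      refine ⟨M', hM', ?_⟩
      have e1 : Sum.elim (fun i => n (Sum.inl i)) (fun i => n (Sum.inr i)) = n := by
        funext i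
        rcases i with i | i <;> rfl
      have e2 : Sum.elim (fun i => j (Sum.inl i)) (fun i => j (Sum.inr i)) = j := by
        funext i
        rcases i with i | i <;> rfl
      rw [e1, e2] at hD'
      exact hD'

/-- **The induction.** -/
theorem ind (k : ℕ) : IH k := by
  induction k using Nat.strong_induction_on with
  | _ k ih =>
    intro ι _ hk S hS
    have : Nonempty ι := (Nat.card_pos_iff.1 (by omega)).1
    obtain ⟨r, hr, hball⟩ := ball_nu
    obtain ⟨S', hS', hsp, hrel⟩ := LKR.split_rel.{0} hS hr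
    refine (hrel _ (QE_mono k) (QE_perm k)).2 ?_
    rcases hsp with ⟨i₀, h0, h1⟩ | ⟨i₀, i₁, hne, h0, h1, h2⟩
    · exact ind1 ih hk hS' h0 (fun i hi => (h1 i hi).trans hball)
    · exact ind2 ih hk hS' hne h0 h1 (fun i hi hi' => (h2 i hi hi').trans hball)

/-- **Every link.** -/
theorem fin4 {ι : Type} [Finite ι] {k : ℕ} (hk : Nat.card ι = k + 1) {κ : ι → ℝ × ℂ × ℝ → SP} (hκ : LinkT ISP κ)
    (hE : ∀ i, COR.Equi rot (κ i)) {c : ι → ℝ → S3} (hc : ∀ i l, κ i (l, 0, 0) = (c i l, 1)) : QE k κ :=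
  LKF.LS_image (QE_mono k) (ind k ι hk (fun i => range (c i)) ⟨c, κ, hκ, hE, hc, fun _ => rfl, trivial⟩) hκ hE hc (fun _ => rfl)

end Pool.Agent.LKS
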