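import Pool.Agent.LKS.Defs
import Pool.Agent.RSG.SphB
import Pool.Agent.RSG.LDc
import Pool.Agent.KNH.CirM

/-!
# LKS/NuT (difficulty 3): the thick circle `nu`

PROOFS.  `a = ⟨v 0, 4/5 + 3/5 v 1⟩`, `b = ⟨-3/5 + 4/5 v 1, v 2⟩`: `|a|² + |b|² = 1 + |v|²`, so `sg v = (a, b) / √(1 + |v|²)` (pS3 normalises).
`sg_bk x`: inverse of `sg` on the half sphere `{h x > 0}`, `h x = 4/5 x₁ - 3/5 x₂`: `w = (x₀, 3/5 x₁ + 4/5 x₂, x₃) / h x`; `h (sg v) = 1/√(1+|v|²)`.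
`nu_loc`: `sg` is a local diffeomorphism (smooth, with a smooth inverse on an open set), `circ` is a local diffeomorphism (see `KNH`: search circ_ld / `pb`), product.
`sg_s1`: `|a| ≥ 4/5 - 3/5 |v 1| ≥ 74/100`, `√(1+|v|²) ≤ √1.01 < 1.005`; `sg_s2`: `|b| ≥ 3/5 - 4/5 |v 1| ≥ 52/100`.
`tor`: `|4i/5 ex|² + |3/5 ex|² = 1` so pS3 does not change the vector.
-/

open scoped Manifold ContDiff Topology
open Set Filter
open Complex (I)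
open Pool.Agent.RSG (E3 E4 S2 S3 S4 ex cj c1 c2 ht fh pS3 pS4)
open Pool.Agent.RBM (ThickT OnT)
open Pool.Agent.RBH (Tube)
open Pool.Agent.PTH (SP ISP)
open Pool.Agent.KNH (circ rot)
open Pool.Agent.LKF (LinkT OnF TubF TwinF)
open Pool.Agent.LKT (ThickC TubesC OffC SurgJ s1 s2 κa κb RR ΘU ΘH dir)
open Pool.Agent.LKB (Mf Std OLoop)

namespace Pool.Agent.LKS

/-- the inverse of `sg` -/
noncomputable def sgi (x : S3) : E3 :=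
  WithLp.toLp 2 ![x.1 0 / (4 / 5 * x.1 1 - 3 / 5 * x.1 2), (3 / 5 * x.1 1 + 4 / 5 * x.1 2) / (4 / 5 * x.1 1 - 3 / 5 * x.1 2),
    x.1 3 / (4 / 5 * x.1 1 - 3 / 5 * x.1 2)]

/-- the norm `√(1 + |v|²)` -/
noncomputable def NuT_n (v : E3) : ℝ := Real.sqrt (1 + ‖v‖ ^ 2)

theorem NuT_pos (v : E3) : 0 < NuT_n v := Real.sqrt_pos.2 (by positivity)

theorem NuT_sq (v : E3) : NuT_n v ^ 2 = 1 + ‖v‖ ^ 2 := Real.sq_sqrt (by positivity)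

theorem NuT_E3 (v : E3) : ‖v‖ ^ 2 = v 0 ^ 2 + v 1 ^ 2 + v 2 ^ 2 := by
  rw [RSG.SphB_norm, Fin.sum_univ_three]

theorem NuT_vec (v : E3) :
    ‖(WithLp.toLp 2 ![v 0, 4 / 5 + 3 / 5 * v 1, -3 / 5 + 4 / 5 * v 1, v 2] : E4)‖ = NuT_n v := by
  have h1 : ‖(WithLp.toLp 2 ![v 0, 4 / 5 + 3 / 5 * v 1, -3 / 5 + 4 / 5 * v 1, v 2] : E4)‖ ^ 2 = NuT_n v ^ 2 := by
    rw [RSG.SphB_norm, Fin.sum_univ_four, NuT_sq, NuT_E3]
    change v 0 ^ 2 + (4 / 5 + 3 / 5 * v 1) ^ 2 + (-3 / 5 + 4 / 5 * v 1) ^ 2 + v 2 ^ 2 = _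
    ring
  exact (pow_left_inj₀ (norm_nonneg _) (NuT_pos v).le two_ne_zero).1 h1

theorem NuT_coe (v : E3) :
    ((sg v : S3) : E4) = (NuT_n v)⁻¹ • (WithLp.toLp 2 ![v 0, 4 / 5 + 3 / 5 * v 1, -3 / 5 + 4 / 5 * v 1, v 2] : E4) := by
  have hne : (WithLp.toLp 2 ![v 0, 4 / 5 + 3 / 5 * v 1, -3 / 5 + 4 / 5 * v 1, v 2] : E4) ≠ 0 := by
    rw [← norm_pos_iff, NuT_vec]
    exact NuT_pos v
  have h := RSG.toSph_coe (⟨EuclideanSpace.single 0 1, by simp⟩ : S3) hne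
  rw [NuT_vec] at h
  exact h

theorem NuT_val (v : E3) : (sg v).1 0 = (NuT_n v)⁻¹ * v 0 ∧ (sg v).1 1 = (NuT_n v)⁻¹ * (4 / 5 + 3 / 5 * v 1) ∧
    (sg v).1 2 = (NuT_n v)⁻¹ * (-3 / 5 + 4 / 5 * v 1) ∧ (sg v).1 3 = (NuT_n v)⁻¹ * v 2 := by
  rw [NuT_coe]
  exact ⟨rfl, rfl, rfl, rfl⟩

theorem NuT_h (v : E3) : 4 / 5 * (sg v).1 1 - 3 / 5 * (sg v).1 2 = (NuT_n v)⁻¹ := by
  obtain ⟨-, h1, h2, -⟩ := NuT_val v
  rw [h1, h2]
  ring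

theorem NuT_hsq (v : E3) : (4 / 5 * (sg v).1 1 - 3 / 5 * (sg v).1 2) ^ 2 * (1 + ‖v‖ ^ 2) = 1 := by
  rw [NuT_h, ← NuT_sq, ← mul_pow, inv_mul_cancel₀ (NuT_pos v).ne', one_pow]

theorem NuT_co (x : S3) : sgi x 0 = x.1 0 / (4 / 5 * x.1 1 - 3 / 5 * x.1 2) ∧
    sgi x 1 = (3 / 5 * x.1 1 + 4 / 5 * x.1 2) / (4 / 5 * x.1 1 - 3 / 5 * x.1 2) ∧
    sgi x 2 = x.1 3 / (4 / 5 * x.1 1 - 3 / 5 * x.1 2) := ⟨rfl, rfl, rfl⟩

theorem sgi_sg (v : E3) : sgi (sg v) = v := by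
  obtain ⟨h0, h1, h2, h3⟩ := NuT_val v
  obtain ⟨e0, e1, e2⟩ := NuT_co (sg v)
  have hn := (NuT_pos v).ne'
  have hni := inv_ne_zero hn
  rw [NuT_h] at e0 e1 e2
  ext i
  fin_cases i
  · change sgi (sg v) 0 = v 0
    rw [e0, h0, mul_div_cancel_left₀ _ hni]
  · change sgi (sg v) 1 = v 1
    rw [e1, h1, h2, div_eq_iff hni]
    ring
  · change sgi (sg v) 2 = v 2
    rw [e2, h3, mul_div_cancel_left₀ _ hni]

theorem sg_inj : Function.Injective sg := fun v v' h => by rw [← sgi_sg v, h, sgi_sg]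

/-- the image of `sg` -/
theorem sg_sgi {x : S3} (hx : 0 < 4 / 5 * x.1 1 - 3 / 5 * x.1 2) : sg (sgi x) = x := by
  set h := 4 / 5 * x.1 1 - 3 / 5 * x.1 2 with hh
  obtain ⟨e0, e1, e2⟩ := NuT_co x
  rw [← hh] at e0 e1 e2
  have hs := RSG.SphB_sph x
  rw [Fin.sum_univ_four] at hs
  have hn : NuT_n (sgi x) = h⁻¹ := by
    have h1 : NuT_n (sgi x) ^ 2 = (h⁻¹) ^ 2 := by
      rw [NuT_sq, NuT_E3, e0, e1, e2]
      have h2 : h ^ 2 + (x.1 0 ^ 2 + (3 / 5 * x.1 1 + 4 / 5 * x.1 2) ^ 2 + x.1 3 ^ 2) = 1 := by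
        rw [hh, ← hs]
        ring
      field_simp
      linarith
    exact (pow_left_inj₀ (NuT_pos _).le (inv_pos.2 hx).le two_ne_zero).1 h1
  obtain ⟨h0, h1, h2, h3⟩ := NuT_val (sgi x)
  rw [hn, inv_inv, e0] at h0
  rw [hn, inv_inv, e1] at h1
  rw [hn, inv_inv, e1] at h2
  rw [hn, inv_inv, e2] at h3
  apply Subtype.ext
  ext i
  fin_cases i
  · change (sg (sgi x)).1 0 = x.1 0
    rw [h0, mul_div_cancel₀ _ hx.ne']
  · change (sg (sgi x)).1 1 = x.1 1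
    rw [h1]
    field_simp
    rw [hh]
    ring
  · change (sg (sgi x)).1 2 = x.1 2
    rw [h2]
    field_simp
    rw [hh]
    ring
  · change (sg (sgi x)).1 3 = x.1 3
    rw [h3, mul_div_cancel₀ _ hx.ne']

theorem sg_pos (v : E3) : 0 < 4 / 5 * (sg v).1 1 - 3 / 5 * (sg v).1 2 := by
  rw [NuT_h]
  exact inv_pos.2 (NuT_pos v)

theorem NuT_sg_smooth (v : E3) : ContMDiffAt 𝓘(ℝ, E3) (𝓡 3) ∞ sg v := by
  have hc (i : Fin 3) : ContDiff ℝ ∞ fun w : E3 => w i := (EuclideanSpace.proj (𝕜 := ℝ) i).contDiff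
  have hm : ContDiff ℝ ∞ fun z : ℝ × ℝ => (⟨z.1, z.2⟩ : ℂ) := Complex.equivRealProdCLM.symm.contDiff
  have ha : ContDiff ℝ ∞ fun w : E3 => (⟨w 0, 4 / 5 + 3 / 5 * w 1⟩ : ℂ) :=
    hm.comp ((hc 0).prodMk (contDiff_const.add (contDiff_const.mul (hc 1))))
  have hb : ContDiff ℝ ∞ fun w : E3 => (⟨-3 / 5 + 4 / 5 * w 1, w 2⟩ : ℂ) :=
    hm.comp ((contDiff_const.add (contDiff_const.mul (hc 1))).prodMk (hc 2))
  refine RSG.pS3_smooth ha.contMDiff.contMDiffAt hb.contMDiff.contMDiffAt ?_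
  rw [RSG.SphB_cx, RSG.SphB_cx]
  nlinarith [sq_nonneg (v 0), sq_nonneg (v 1), sq_nonneg (v 2)]

theorem NuT_cont : Continuous fun x : S3 => 4 / 5 * x.1 1 - 3 / 5 * x.1 2 := by
  have hc (i : Fin 4) : Continuous fun x : S3 => x.1 i := (RSG.SphA_coord (n := 3) i).continuous
  exact (continuous_const.mul (hc 1)).sub (continuous_const.mul (hc 2))

theorem NuT_sgi_smooth {x : S3} (hx : 0 < 4 / 5 * x.1 1 - 3 / 5 * x.1 2) :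
    ContMDiffAt (𝓡 3) 𝓘(ℝ, E3) ∞ sgi x := by
  have := Fact.mk (@finrank_euclideanSpace_fin ℝ _ (3 + 1))
  have h0 : ContMDiff (𝓡 3) 𝓘(ℝ, E4) ∞ (Subtype.val : S3 → E4) := contMDiff_coe_sphere (n := 3)
  have hc (i : Fin 4) : ContDiffAt ℝ ∞ (fun z : E4 => z i) x.1 := (EuclideanSpace.proj (𝕜 := ℝ) i).contDiff.contDiffAt
  have hd : ContDiffAt ℝ ∞ (fun z : E4 => 4 / 5 * z 1 - 3 / 5 * z 2) x.1 :=
    (contDiffAt_const.mul (hc 1)).sub (contDiffAt_const.mul (hc 2))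
  have h1 : ContDiffAt ℝ ∞ (fun z : E4 => ![z 0 / (4 / 5 * z 1 - 3 / 5 * z 2),
      (3 / 5 * z 1 + 4 / 5 * z 2) / (4 / 5 * z 1 - 3 / 5 * z 2), z 3 / (4 / 5 * z 1 - 3 / 5 * z 2)]) x.1 := by
    rw [contDiffAt_pi]
    intro i
    fin_cases i
    · exact (hc 0).div hd hx.ne'
    · exact ((contDiffAt_const.mul (hc 1)).add (contDiffAt_const.mul (hc 2))).div hd hx.ne'
    · exact (hc 3).div hd hx.ne'
  have h2 : ContDiffAt ℝ ∞ (fun z : E4 => (WithLp.toLp 2 ![z 0 / (4 / 5 * z 1 - 3 / 5 * z 2),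
      (3 / 5 * z 1 + 4 / 5 * z 2) / (4 / 5 * z 1 - 3 / 5 * z 2), z 3 / (4 / 5 * z 1 - 3 / 5 * z 2)] : E3)) x.1 :=
    ((PiLp.continuousLinearEquiv 2 ℝ (fun _ : Fin 3 => ℝ)).symm.contDiff.contDiffAt).comp x.1 h1
  exact h2.contMDiffAt.comp x (h0 x)

theorem sg_loc (v : E3) : IsLocalDiffeomorphAt 𝓘(ℝ, E3) (𝓡 3) ∞ sg v := by
  have hU : ∀ᶠ x : S3 in 𝓝 (sg v), 0 < 4 / 5 * x.1 1 - 3 / 5 * x.1 2 :=
    NuT_cont.continuousAt.eventually (lt_mem_nhds (sg_pos v))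
  refine RSG.ld_two (g := sgi) (Eventually.of_forall NuT_sg_smooth) ?_ (Eventually.of_forall sgi_sg) ?_
  · filter_upwards [hU] with x hx
    exact NuT_sgi_smooth hx
  · filter_upwards [hU] with x hx
    exact sg_sgi hx

theorem nu_loc (q : ℝ × E3) : IsLocalDiffeomorphAt 𝓘(ℝ, ℝ × E3) ISP ∞ nu q := by
  have h1 := RSG.ld_prodMap (sg_loc q.2) (KNH.circ_ld q.1)
  rw [← modelWithCornersSelf_prod, chartedSpaceSelf_prod] at h1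
  have h2 : IsLocalDiffeomorphAt 𝓘(ℝ, ℝ × E3) 𝓘(ℝ, E3 × ℝ) ∞ (Equiv.prodComm ℝ E3) q :=
    CSG.ld_of_perm (contDiff_snd.prodMk contDiff_fst) (contDiff_snd.prodMk contDiff_fst) q
  exact IsLocalDiffeomorphAt.comp (hf := h2) (g := Prod.map sg circ) (hg := h1)

theorem nu_inj {l l' : ℝ} {v v' : E3} (h : nu (l, v) = nu (l', v')) : v = v' ∧ ∃ m : ℤ, l' = l + m := by
  have h1 : sg v = sg v' := congrArg Prod.fst h
  have h2 : circ l = circ l' := congrArg Prod.snd h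
  exact ⟨sg_inj h1, KNH.circ_eq.1 h2.symm⟩

theorem nu_per (l : ℝ) (v : E3) : nu (l + 1, v) = nu (l, v) := by
  have h1 : circ (l + 1) = circ l := by
    have := KNH.circ_int 1
    rw [Int.cast_one] at this
    rw [KNH.circ_add, this, mul_one]
  change ((sg v, circ (l + 1)) : SP) = (sg v, circ l)
  rw [h1]

theorem nu_thick {ε : ℝ} (hε : 0 < ε) : ThickC ISP nu ε where
  pos := hε
  per := fun l v _ => nu_per l v
  loc := fun l v _ => nu_loc (l, v)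
  inj := fun _ _ _ _ _ _ h => nu_inj h

theorem NuT_le {v : E3} (h : ‖v‖ ≤ 1 / 10) : ‖v‖ ^ 2 ≤ 1 / 100 ∧ v 1 ≤ 1 / 10 ∧ -(1 / 10) ≤ v 1 := by
  have h1 : ‖v‖ ^ 2 ≤ 1 / 100 := by nlinarith [norm_nonneg v]
  have h2 := NuT_E3 v
  have h3 : v 1 ^ 2 ≤ (1 / 10) ^ 2 := by nlinarith [sq_nonneg (v 0), sq_nonneg (v 2)]
  exact ⟨h1, (abs_le_of_sq_le_sq' h3 (by norm_num)).2, (abs_le_of_sq_le_sq' h3 (by norm_num)).1⟩

theorem sg_s1 {v : E3} (h : ‖v‖ ≤ 1 / 10) : 7 / 10 ≤ ‖s1 (sg v)‖ := by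
  obtain ⟨h1, h2, h3⟩ := NuT_le h
  obtain ⟨e0, e1, e2, e3⟩ := NuT_val v
  have hs : ‖s1 (sg v)‖ ^ 2 = (sg v).1 0 ^ 2 + (sg v).1 1 ^ 2 := RSG.SphB_cx _ _
  have hn := NuT_pos v
  have hq := NuT_sq v
  have h4 : (7 / 10 : ℝ) ^ 2 ≤ ‖s1 (sg v)‖ ^ 2 := by
    rw [hs, e0, e1, mul_pow, mul_pow, ← mul_add, inv_pow, hq, ← div_eq_inv_mul, le_div_iff₀ (by positivity)]
    nlinarith [sq_nonneg (v 0)]
  exact le_of_pow_le_pow_left₀ two_ne_zero (norm_nonneg _) h4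

theorem sg_s2 {v : E3} (h : ‖v‖ ≤ 1 / 10) : 1 / 2 ≤ ‖s2 (sg v)‖ := by
  obtain ⟨h1, h2, h3⟩ := NuT_le h
  obtain ⟨e0, e1, e2, e3⟩ := NuT_val v
  have hs : ‖s2 (sg v)‖ ^ 2 = (sg v).1 2 ^ 2 + (sg v).1 3 ^ 2 := RSG.SphB_cx _ _
  have hn := NuT_pos v
  have hq := NuT_sq v
  have h4 : (1 / 2 : ℝ) ^ 2 ≤ ‖s2 (sg v)‖ ^ 2 := by
    rw [hs, e2, e3, mul_pow, mul_pow, ← mul_add, inv_pow, hq, ← div_eq_inv_mul, le_div_iff₀ (by positivity)]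
    nlinarith [sq_nonneg (v 2)]
  exact le_of_pow_le_pow_left₀ two_ne_zero (norm_nonneg _) h4

theorem sg_zero : sg 0 = pS3 (4 / 5 * I) (-3 / 5) := by
  have h1 : (⟨(0 : E3) 0, 4 / 5 + 3 / 5 * (0 : E3) 1⟩ : ℂ) = 4 / 5 * I := by
    apply Complex.ext <;> simp
  have h2 : (⟨-3 / 5 + 4 / 5 * (0 : E3) 1, (0 : E3) 2⟩ : ℂ) = -3 / 5 := by
    apply Complex.ext <;> simp
  unfold sg
  rw [h1, h2]

theorem NuT_tor (n j : ℤ) (t : ℝ) : ‖4 / 5 * I * ex (-n * t)‖ ^ 2 + ‖-3 / 5 * ex (-j * t)‖ ^ 2 = 1 := by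
  rw [norm_mul, norm_mul, norm_mul, Complex.norm_I, RSG.ex_norm, RSG.ex_norm]
  norm_num

theorem tor_s1 (n j : ℤ) (t : ℝ) : s1 (tor n j t) = 4 / 5 * I * ex (-n * t) :=
  (RSG.pS3_c (NuT_tor n j t)).1

theorem tor_s2 (n j : ℤ) (t : ℝ) : s2 (tor n j t) = -3 / 5 * ex (-j * t) :=
  (RSG.pS3_c (NuT_tor n j t)).2

theorem NuT_ex {p : SP} (hp : 0 < 4 / 5 * p.1.1 1 - 3 / 5 * p.1.1 2) : ∃ l : ℝ, p = nu (l, sgi p.1) := by
  obtain ⟨l, hl⟩ := KNH.circ_surj p.2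
  refine ⟨l, ?_⟩
  unfold nu
  rw [sg_sgi hp, hl]

theorem NuT_hsgi {x : S3} (hx : 0 < 4 / 5 * x.1 1 - 3 / 5 * x.1 2) :
    (4 / 5 * x.1 1 - 3 / 5 * x.1 2) ^ 2 * (1 + ‖sgi x‖ ^ 2) = 1 := by
  have h := NuT_hsq (sgi x)
  rw [sg_sgi hx] at h
  exact h

theorem nuB_open (r : ℝ) : IsOpen (NuB r) := by
  rcases le_or_gt r 0 with hr | hr
  · have h1 : NuB r = ∅ := by
      rw [eq_empty_iff_forall_notMem]
      rintro p ⟨l, v, hv, -⟩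
      exact absurd hv (not_lt.2 (hr.trans (norm_nonneg v)))
    rw [h1]
    exact isOpen_empty
  · have h1 : NuB r = {p : SP | 0 < 4 / 5 * p.1.1 1 - 3 / 5 * p.1.1 2} ∩
        {p : SP | 1 < (4 / 5 * p.1.1 1 - 3 / 5 * p.1.1 2) ^ 2 * (1 + r ^ 2)} := by
      ext p
      constructor
      · rintro ⟨l, v, hv, rfl⟩
        refine ⟨sg_pos v, ?_⟩
        change 1 < (4 / 5 * (sg v).1 1 - 3 / 5 * (sg v).1 2) ^ 2 * (1 + r ^ 2)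
        have h2 := NuT_hsq v
        have h3 := sg_pos v
        have h4 : 0 < (4 / 5 * (sg v).1 1 - 3 / 5 * (sg v).1 2) ^ 2 := by positivity
        have h5 : ‖v‖ ^ 2 < r ^ 2 := by nlinarith [norm_nonneg v]
        nlinarith
      · rintro ⟨h2, h3⟩
        obtain ⟨l, hl⟩ := NuT_ex h2
        refine ⟨l, sgi p.1, ?_, hl⟩
        have h4 := NuT_hsgi h2
        have h5 : 0 < (4 / 5 * p.1.1 1 - 3 / 5 * p.1.1 2) ^ 2 := pow_pos h2 2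
        have h6 : ‖sgi p.1‖ ^ 2 < r ^ 2 := by
          have h7 : (4 / 5 * p.1.1 1 - 3 / 5 * p.1.1 2) ^ 2 * (1 + ‖sgi p.1‖ ^ 2) <
              (4 / 5 * p.1.1 1 - 3 / 5 * p.1.1 2) ^ 2 * (1 + r ^ 2) := by rw [h4]; exact h3
          have h8 := lt_of_mul_lt_mul_left h7 h5.le
          linarith
        exact lt_of_pow_lt_pow_left₀ 2 hr.le h6
    rw [h1]
    have hc : Continuous fun p : SP => 4 / 5 * p.1.1 1 - 3 / 5 * p.1.1 2 := NuT_cont.comp continuous_fst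
    exact (isOpen_lt continuous_const hc).inter (isOpen_lt continuous_const ((hc.pow 2).mul continuous_const))

theorem nuB_closed (r : ℝ) : IsClosed {p : SP | ∃ (l : ℝ) (v : E3), ‖v‖ ≤ r ∧ p = nu (l, v)} := by
  rcases lt_or_ge r 0 with hr | hr
  · have h1 : {p : SP | ∃ (l : ℝ) (v : E3), ‖v‖ ≤ r ∧ p = nu (l, v)} = ∅ := by
      rw [eq_empty_iff_forall_notMem]
      rintro p ⟨l, v, hv, -⟩
      exact absurd hv (not_le.2 (hr.trans_le (norm_nonneg v)))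
    rw [h1]
    exact isClosed_empty
  · have h1 : {p : SP | ∃ (l : ℝ) (v : E3), ‖v‖ ≤ r ∧ p = nu (l, v)} =
        {p : SP | 0 ≤ 4 / 5 * p.1.1 1 - 3 / 5 * p.1.1 2} ∩
        {p : SP | 1 ≤ (4 / 5 * p.1.1 1 - 3 / 5 * p.1.1 2) ^ 2 * (1 + r ^ 2)} := by
      ext p
      constructor
      · rintro ⟨l, v, hv, rfl⟩
        refine ⟨(sg_pos v).le, ?_⟩
        change 1 ≤ (4 / 5 * (sg v).1 1 - 3 / 5 * (sg v).1 2) ^ 2 * (1 + r ^ 2)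
        have h2 := NuT_hsq v
        have h3 := sg_pos v
        have h4 : 0 < (4 / 5 * (sg v).1 1 - 3 / 5 * (sg v).1 2) ^ 2 := by positivity
        have h5 : ‖v‖ ^ 2 ≤ r ^ 2 := by nlinarith [norm_nonneg v]
        nlinarith
      · rintro ⟨h2, h3⟩
        have h2' : 0 < 4 / 5 * p.1.1 1 - 3 / 5 * p.1.1 2 := by
          refine lt_of_le_of_ne h2 fun h => ?_
          change (1 : ℝ) ≤ (4 / 5 * p.1.1 1 - 3 / 5 * p.1.1 2) ^ 2 * (1 + r ^ 2) at h3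
          rw [← h] at h3
          norm_num at h3
        obtain ⟨l, hl⟩ := NuT_ex h2'
        refine ⟨l, sgi p.1, ?_, hl⟩
        have h4 := NuT_hsgi h2'
        have h5 : 0 < (4 / 5 * p.1.1 1 - 3 / 5 * p.1.1 2) ^ 2 := pow_pos h2' 2
        have h6 : ‖sgi p.1‖ ^ 2 ≤ r ^ 2 := by
          have h7 : (4 / 5 * p.1.1 1 - 3 / 5 * p.1.1 2) ^ 2 * (1 + ‖sgi p.1‖ ^ 2) ≤
              (4 / 5 * p.1.1 1 - 3 / 5 * p.1.1 2) ^ 2 * (1 + r ^ 2) := by rw [h4]; exact h3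
          have h8 := le_of_mul_le_mul_left h7 h5
          linarith
        exact le_of_pow_le_pow_left₀ two_ne_zero hr h6
    rw [h1]
    have hc : Continuous fun p : SP => 4 / 5 * p.1.1 1 - 3 / 5 * p.1.1 2 := NuT_cont.comp continuous_fst
    exact (isClosed_le continuous_const hc).inter (isClosed_le continuous_const ((hc.pow 2).mul continuous_const))

theorem nuB_iff {r : ℝ} {l : ℝ} {v : E3} : nu (l, v) ∈ NuB r ↔ ‖v‖ < r := by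
  constructor
  · rintro ⟨l', v', hv, h⟩
    rw [(nu_inj h).1]
    exact hv
  · intro h
    exact ⟨l, v, h, rfl⟩

theorem s1_s2 (x : S3) : ‖s1 x‖ ^ 2 + ‖s2 x‖ ^ 2 = 1 := RSG.S3_sq x

end Pool.Agent.LKS
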