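import Pool.Agent.LKS.Defs
import Pool.Agent.LKS.NuT
import Pool.Agent.LKT.UnA
import Pool.Agent.CLG.LnD
import Pool.Agent.CLG.IOa
import Pool.Agent.COR.Defs

/-!
# LKS/Kab (difficulty 2-3): the standard tori `κa`, `κb`

PROOFS.  `LKT/UnA.lean`: κa_s, κb_s (coordinates), κa_thick, κb_thick, link_ab, s_sq, s_mk, s_ext.  `nuB_s`: `sg_s1`, `sg_s2`.
`range_b`: `io (0, u) = pS3 0 ⟨u² - 1, 2u⟩`: the axis goes to the circle `s1 = 0` without `pol = (0, 1)`; `Hat U = insert pol (io '' U)`, `U = {q | q.1 = 0}`: both sides are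
`{x | s1 x = 0}` (`io_oi`: every `x ≠ pol` is `io (oi x)`).  `range_a`: for `‖w‖ = 1`: `io (w, 0) = pS3 (2 w) 0 = pS3 w 0`.
`ball_nu`: `sg '' ball 0 (1/20)` is open (`sg` is a local diffeomorphism: `sg_loc`), contains `sg 0 = io (I/2, 0)` (`io (I/2, 0) = pS3 I (1/4 - 1) = (4i/5, -3/5)`), `io` is continuous.
-/

open scoped Manifold ContDiff Topology
open Set Filter
open Complex (I)
open Pool.Agent.RSG (E3 E4 S2 S3 S4 ex cj c1 c2 ht fh pS3 pS4)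
open Pool.Agent.RBM (ThickT OnT)
open Pool.Agent.RBH (Tube)
open Pool.Agent.PTH (SP ISP)
open Pool.Agent.KNH (circ rot)
open Pool.Agent.LKF (LinkT OnF TubF TwinF)
open Pool.Agent.LKT (ThickC TubesC OffC SurgJ s1 s2 κa κb RR ΘU ΘH dir)
open Pool.Agent.LKB (Mf Std OLoop)

namespace Pool.Agent.LKS

theorem tub_a {p : SP} (h : p ∈ TubF fun _ : Unit => κa) : ‖s2 p.1‖ < 1 / 2 := by
  obtain ⟨-, l, v, t, hv, rfl⟩ := h
  rw [(LKT.κa_s (by linarith) l t).2.1, norm_div, Complex.norm_ofNat]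
  linarith

theorem tub_b {p : SP} (h : p ∈ TubF fun _ : Unit => κb) : ‖s1 p.1‖ < 1 / 2 := by
  obtain ⟨-, l, v, t, hv, rfl⟩ := h
  rw [(LKT.κb_s (by linarith) l t).2.1, norm_div, Complex.norm_ofNat]
  linarith

theorem tub_ab {p : SP} (h : p ∈ TubF ![κa, κb]) : ‖s2 p.1‖ < 1 / 2 ∨ ‖s1 p.1‖ < 1 / 2 := by
  obtain ⟨i, hi⟩ := h
  fin_cases i
  · left
    exact tub_a ⟨(), hi⟩
  · right
    exact tub_b ⟨(), hi⟩

theorem nuB_s {p : SP} (h : p ∈ NuB (1 / 10)) : 7 / 10 ≤ ‖s1 p.1‖ ∧ 1 / 2 ≤ ‖s2 p.1‖ := by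
  obtain ⟨l, v, hv, rfl⟩ := h
  exact ⟨sg_s1 hv.le, sg_s2 hv.le⟩

theorem link_b : LinkT ISP (fun _ : Unit => κb) := by
  refine ⟨fun _ => LKT.κb_thick, fun i i' _ _ _ _ _ _ _ _ _ => Subsingleton.elim i i'⟩

theorem disj_b : Disjoint (TubF fun _ : Unit => κb) (NuB (1 / 10)) := by
  rw [Set.disjoint_left]
  intro p h1 h2
  have h3 := tub_b h1
  have h4 := (nuB_s h2).1
  linarith

theorem disj_ab : Disjoint (TubF ![κa, κb]) (NuB (1 / 10)) := by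
  rw [Set.disjoint_left]
  intro p h1 h2
  have h4 := nuB_s h2
  rcases tub_ab h1 with h3 | h3
  · linarith [h4.2]
  · linarith [h4.1]

theorem Kab_circ0 : circ 0 = 1 := by
  unfold KNH.circ
  rw [mul_zero, Circle.exp_zero]

theorem core_a (l : ℝ) : κa (l, 0, 0) = (pS3 (ex l) 0, 1) := by
  unfold LKT.κa
  simp only [norm_zero, Kab_circ0]
  norm_num

theorem core_b (l : ℝ) : κb (l, 0, 0) = (pS3 0 (ex l), 1) := by
  unfold LKT.κb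
  simp only [norm_zero, Kab_circ0]
  norm_num

theorem equi_a : COR.Equi rot κa := by
  intro l v t
  unfold KNH.rot LKT.κa
  simp only [Kab_circ0, one_mul]

theorem equi_b : COR.Equi rot κb := by
  intro l v t
  unfold KNH.rot LKT.κb
  simp only [Kab_circ0, one_mul]

theorem Kab_io (y : ℂ × ℝ) : s1 (CLG.io y) = ⟨2 * y.1.re / (‖y.1‖ ^ 2 + y.2 ^ 2 + 1), 2 * y.1.im / (‖y.1‖ ^ 2 + y.2 ^ 2 + 1)⟩ ∧
    s2 (CLG.io y) = ⟨(‖y.1‖ ^ 2 + y.2 ^ 2 - 1) / (‖y.1‖ ^ 2 + y.2 ^ 2 + 1), 2 * y.2 / (‖y.1‖ ^ 2 + y.2 ^ 2 + 1)⟩ := by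
  unfold LKT.s1 LKT.s2
  rw [CLG.io_coe]
  exact ⟨rfl, rfl⟩

theorem Kab_mk0 (w : ℂ) (hw : ‖w‖ = 1) : s1 (pS3 0 w) = 0 ∧ s2 (pS3 0 w) = w :=
  LKT.s_mk (by rw [hw, norm_zero]; norm_num)

theorem Kab_mk1 (w : ℂ) (hw : ‖w‖ = 1) : s1 (pS3 w 0) = w ∧ s2 (pS3 w 0) = 0 :=
  LKT.s_mk (by rw [hw, norm_zero]; norm_num)

theorem Kab_one (w : ℂ) (hw : ‖w‖ = 1) : CLG.io (w, 0) = pS3 w 0 := by
  obtain ⟨h1, h2⟩ := Kab_io (w, 0)
  obtain ⟨h3, h4⟩ := Kab_mk1 w hw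
  refine LKT.s_ext ?_ ?_
  · rw [h1, h3]
    simp only [hw]
    apply Complex.ext <;> simp <;> ring
  · rw [h2, h4]
    simp only [hw]
    apply Complex.ext <;> simp

theorem range_b : range (fun l : ℝ => pS3 0 (ex l)) = KNH.Hat KNT.U := by
  ext x
  constructor
  · rintro ⟨l, rfl⟩
    by_cases h : pS3 0 (ex l) = CLG.pol
    · exact Or.inl h
    · right
      refine ⟨CLG.oi (pS3 0 (ex l)), ?_, CLG.io_oi h⟩
      have h1 := (Kab_mk0 (ex l) (RSG.ex_norm l)).1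
      have h2 : (pS3 0 (ex l)).1 0 = 0 := congrArg Complex.re h1
      have h3 : (pS3 0 (ex l)).1 1 = 0 := congrArg Complex.im h1
      show (CLG.oiE (pS3 0 (ex l)).1).1 = 0
      unfold CLG.oiE
      rw [h2, h3]
      simp
      rfl
  · rintro (rfl | ⟨y, hy, rfl⟩)
    · refine ⟨0, ?_⟩
      show pS3 0 (ex 0) = CLG.pol
      rw [RSG.ex_zero]
      rfl
    · have h1 : s1 (CLG.io y) = 0 := by
        have hy' : y.1 = 0 := hy
        rw [(Kab_io y).1, hy']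
        simp
        rfl
      have h2 : ‖s2 (CLG.io y)‖ = 1 := by
        have h3 := s1_s2 (CLG.io y)
        rw [h1, norm_zero] at h3
        nlinarith [norm_nonneg (s2 (CLG.io y))]
      obtain ⟨l, hl⟩ := RSG.ex_surj h2
      refine ⟨l, ?_⟩
      obtain ⟨h3, h4⟩ := Kab_mk0 (ex l) (RSG.ex_norm l)
      exact LKT.s_ext (by rw [h3, h1]) (by rw [h4, hl])

theorem range_a : range (fun l : ℝ => pS3 (ex l) 0) = CLG.io '' {q : ℂ × ℝ | ‖q.1‖ = 1 ∧ q.2 = 0} := by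
  ext x
  constructor
  · rintro ⟨l, rfl⟩
    exact ⟨(ex l, 0), ⟨RSG.ex_norm l, rfl⟩, Kab_one _ (RSG.ex_norm l)⟩
  · rintro ⟨⟨w, u⟩, ⟨hw, hu⟩, rfl⟩
    have hw' : ‖w‖ = 1 := hw
    have hu' : u = 0 := hu
    obtain ⟨l, hl⟩ := RSG.ex_surj hw'
    refine ⟨l, ?_⟩
    show pS3 (ex l) 0 = CLG.io (w, u)
    rw [hu', Kab_one w hw', hl]

theorem ball_nu : ∃ r : ℝ, 0 < r ∧ CLG.io '' Metric.ball (((1 / 2 : ℝ) : ℂ) * I, (0 : ℝ)) r ⊆ sg '' Metric.ball 0 (1 / 20) := by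
  have h1 : IsOpenMap sg := IsLocalDiffeomorph.isOpenMap (I := 𝓘(ℝ, E3)) (J := 𝓡 3) (n := ∞) sg_loc
  have h2 : IsOpen (CLG.io ⁻¹' (sg '' Metric.ball 0 (1 / 20))) :=
    (h1 _ Metric.isOpen_ball).preimage CLG.io_smooth.continuous
  have h3 : CLG.io (((1 / 2 : ℝ) : ℂ) * I, (0 : ℝ)) = sg 0 := by
    rw [sg_zero]
    have h4 : ‖((1 / 2 : ℝ) : ℂ) * I‖ = 1 / 2 := by
      rw [norm_mul, Complex.norm_I, mul_one, Complex.norm_real]
      norm_num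
    obtain ⟨h5, h6⟩ := Kab_io (((1 / 2 : ℝ) : ℂ) * I, (0 : ℝ))
    have h7 : ‖(4 / 5 * I : ℂ)‖ = 4 / 5 := by
      rw [norm_mul, Complex.norm_I, mul_one]
      norm_num
    have h8 : ‖(-3 / 5 : ℂ)‖ = 3 / 5 := by
      norm_num
    obtain ⟨h9, h10⟩ := LKT.s_mk (a := 4 / 5 * I) (b := -3 / 5) (by rw [h7, h8]; norm_num)
    refine LKT.s_ext ?_ ?_
    · rw [h5, h9]
      simp only [h4]
      apply Complex.ext <;> simp <;> norm_num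
    · rw [h6, h10]
      simp only [h4]
      apply Complex.ext <;> simp <;> norm_num
  have h4 : (((1 / 2 : ℝ) : ℂ) * I, (0 : ℝ)) ∈ CLG.io ⁻¹' (sg '' Metric.ball 0 (1 / 20)) := by
    rw [Set.mem_preimage, h3]
    exact ⟨0, Metric.mem_ball_self (by norm_num), rfl⟩
  obtain ⟨r, hr, hb⟩ := Metric.isOpen_iff.1 h2 _ h4
  refine ⟨r, hr, ?_⟩
  rintro _ ⟨y, hy, rfl⟩
  exact hb hy

end Pool.Agent.LKS
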