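import Pool.Agent.LKS.Defs

/-!
# LKS/Lnl (difficulty 3): closed curves of `ℝ³ - finite set` are null-homotopic

PROOF.  (1) for `a ∈ A` the map `f_a (λ, t) = a + λ (a - y t)` of `ℝ × ℝ` is smooth, so its range has Hausdorff dimension `≤ 2` (`ContDiff.dimH_range_le`), the finite union
of the ranges has dimension `≤ 2 < 3` (`dimH_iUnion`/`dimH_union`), so it has a dense complement (`dense_compl_of_dimH_lt_finrank`): there is `w'` outside (and outside `A`: `λ = 0`).
`H₁ s t = (1 - s) y t + s w'` avoids `A`: `a = (1 - s) y t + s w'` with `s > 0` gives `w' = a + ((1 - s)/s) (a - y t)`; `s = 0`: `y t = a`.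
(2) `Aᶜ` is path connected (`Set.Countable.isPathConnected_compl_of_one_lt_rank`): path from `w'` to `w`.
(3) concatenate (`H s t = H₁ (2s) t` for `s ≤ 1/2`, the path for `s ≥ 1/2`), parameter `s` clamped to `[0, 1]` (`projIcc`); see `ACB/FHm.lean` (FHom.mk', FHom.trans).
-/

open scoped Manifold ContDiff Topology
open Set Filter
open Complex (I)
open Pool.Agent.RSG (E3 E4 S2 S3 S4 ex cj c1 c2 ht fh pS3 pS4)
open Pool.Agent.RBM (ThickT OnT)
open Pool.Agent.RBH (Tube)
open Pool.Agent.PTH (SP ISP)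
open Pool.Agent.KNH (circ rot)
open Pool.Agent.LKF (LinkT OnF TubF TwinF)
open Pool.Agent.LKT (ThickC TubesC OffC SurgJ s1 s2 κa κb RR ΘU ΘH dir)
open Pool.Agent.LKB (Mf Std OLoop)

namespace Pool.Agent.LKS

theorem Lnl_point {V : Type*} [NormedAddCommGroup V] [NormedSpace ℝ V] [FiniteDimensional ℝ V]
    (hV : Module.finrank ℝ V = 3) {y : ℝ → V} (hy : ContDiff ℝ ∞ y) {A : Set V} (hA : A.Finite) :
    ∃ w' : V, ∀ a ∈ A, ∀ (μ t : ℝ), w' ≠ a + μ • (a - y t) := by
  have h1 : ∀ a : V, dimH (range fun q : ℝ × ℝ => a + q.1 • (a - y q.2)) ≤ 2 := by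
    intro a
    have h2 : ContDiff ℝ 1 fun q : ℝ × ℝ => a + q.1 • (a - y q.2) := by
      have h3 : ContDiff ℝ 1 y := hy.of_le (by norm_cast)
      exact contDiff_const.add (contDiff_fst.smul (contDiff_const.sub (h3.comp contDiff_snd)))
    have h3 := h2.dimH_range_le
    have h4 : Module.finrank ℝ (ℝ × ℝ) = 2 := by simp
    rw [h4] at h3
    exact_mod_cast h3
  have h2 : dimH (⋃ a ∈ A, range fun q : ℝ × ℝ => a + q.1 • (a - y q.2)) < (Module.finrank ℝ V : ENNReal) := by
    rw [dimH_bUnion hA.countable, hV]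
    refine lt_of_le_of_lt (iSup₂_le fun a _ => h1 a) ?_
    norm_num
  obtain ⟨w', hw'⟩ := (dense_compl_of_dimH_lt_finrank h2).nonempty
  refine ⟨w', fun a ha μ t he => hw' ?_⟩
  rw [mem_iUnion₂]
  exact ⟨a, ha, (μ, t), he.symm⟩

theorem lnl {V : Type*} [NormedAddCommGroup V] [NormedSpace ℝ V] [FiniteDimensional ℝ V] (hV : Module.finrank ℝ V = 3)
    {y : ℝ → V} (hy : ContDiff ℝ ∞ y) (hper : ∀ t, y (t + 1) = y t) {A : Set V} (hA : A.Finite) (hyA : ∀ t, y t ∉ A)
    {w : V} (hw : w ∉ A) :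
    ∃ H : ℝ → ℝ → V, Continuous (fun q : ℝ × ℝ => H q.1 q.2) ∧ (∀ s t, H s (t + 1) = H s t) ∧ H 0 = y ∧
      (H 1 = fun _ => w) ∧ ∀ s t, H s t ∉ A := by
  obtain ⟨w', hw'⟩ := Lnl_point hV hy hA
  have hwA : w' ∉ A := fun h => hw' w' h 0 0 (by rw [zero_smul, add_zero])
  have hrank : 1 < Module.rank ℝ V := by
    rw [← Module.finrank_eq_rank, hV]
    norm_num
  have hpc := hA.countable.isPathConnected_compl_of_one_lt_rank hrank
  have hj : JoinedIn Aᶜ w' w := hpc.joinedIn w' hwA w hw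
  obtain ⟨γ, hγ⟩ := hj
  have hσ : Continuous fun s : ℝ => max 0 (min 1 (2 * s)) := by fun_prop
  have hσ0 : ∀ s : ℝ, 0 ≤ max 0 (min 1 (2 * s)) := fun s => le_max_left _ _
  have hσ1 : ∀ s : ℝ, max 0 (min 1 (2 * s)) ≤ 1 := fun s => max_le zero_le_one (min_le_left _ _)
  refine ⟨fun s t => if s ≤ 1 / 2 then (1 - max 0 (min 1 (2 * s))) • y t + max 0 (min 1 (2 * s)) • w'
    else γ.extend (2 * s - 1), ?_, ?_, ?_, ?_, ?_⟩
  · refine Continuous.if_le (f' := fun q : ℝ × ℝ => (1 - max 0 (min 1 (2 * q.1))) • y q.2 +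
      max 0 (min 1 (2 * q.1)) • w') (g' := fun q : ℝ × ℝ => γ.extend (2 * q.1 - 1)) ?_ ?_
      continuous_fst continuous_const ?_
    · have h1 : Continuous fun q : ℝ × ℝ => max 0 (min 1 (2 * q.1)) := hσ.comp continuous_fst
      exact ((continuous_const.sub h1).smul (hy.continuous.comp continuous_snd)).add (h1.smul continuous_const)
    · exact γ.continuous_extend.comp ((continuous_const.mul continuous_fst).sub continuous_const)
    · intro q hq
      have h1 : max 0 (min 1 (2 * q.1)) = 1 := by rw [hq]; norm_num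
      have h2 : 2 * q.1 - 1 = 0 := by rw [hq]; norm_num
      rw [h1, h2, γ.extend_zero, sub_self, zero_smul, one_smul, zero_add]
  · intro s t
    simp only [hper]
  · funext t
    have h1 : max 0 (min 1 (2 * (0 : ℝ))) = 0 := by norm_num
    simp only
    rw [if_pos (by norm_num), h1, sub_zero, one_smul, zero_smul, add_zero]
  · funext t
    simp only
    rw [if_neg (by norm_num)]
    norm_num
  · intro s t
    simp only
    split_ifs with h
    · obtain ⟨σ, hσe⟩ : ∃ σ : ℝ, σ = max 0 (min 1 (2 * s)) := ⟨_, rfl⟩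
      have h0 := hσ0 s
      rw [← hσe] at h0 ⊢
      intro hm
      rcases eq_or_lt_of_le h0 with h1 | h1
      · rw [← h1, sub_zero, one_smul, zero_smul, add_zero] at hm
        exact hyA t hm
      · refine hw' _ hm ((1 - σ) / σ) t ?_
        have h2 : σ • w' = σ • (((1 - σ) • y t + σ • w') + ((1 - σ) / σ) • (((1 - σ) • y t + σ • w') - y t)) := by
          rw [smul_add σ, smul_smul σ, mul_div_cancel₀ _ h1.ne']
          module
        exact (smul_right_injective V h1.ne') h2
    · have h1 : γ.extend (2 * s - 1) ∈ range γ := by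
        rw [← γ.extend_range]
        exact mem_range_self _
      obtain ⟨x, hx⟩ := h1
      rw [← hx]
      exact hγ x

end Pool.Agent.LKS
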