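import Pool.Agent.LKS.Lnl
import Pool.Agent.LKS.NuT
import Pool.Agent.ACB.FHm
import Pool.Agent.CLG.IOa
import Pool.Agent.KNH.CirM
import Pool.Agent.LKS.Comm

/-!
# LKS/NulT (difficulty 3-4): null-homotopic circles in the surgery along fibres

PROOF.  `O = {β a 0}` is a subset of `{N1, N2}`, so finite.  `CLG.io : ℂ × ℝ → S3 - {pol}` (`pol = (0, 1)`), inverse `CLG.oi` (see `CLG/*.lean`: io_oi, oi_io, smoothness).
Choose a unit vector `e` and `0 < r < 1/4` with `β a₀ (r e) ≠ pol` (`y ↦ β a₀ y` is continuous at `0`: first component of `γ a₀ (0, y)`; `β a₀ 0 ∈ {N1, N2}`, so `≠ pol`).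
`w = oi (β a₀ (r e))`; it is not in `oi '' O` (tubes injective/disjoint).  `y t = oi (tor n j t)` is smooth, periodic, `tor n j t ∉ {pol, N1, N2}` (both coordinates `≠ 0`: `tor_s1`,
`tor_s2`).  `lnl` for `V = ℂ × ℝ` (finrank 3), `A = oi '' O`: `H`.  Then `(s, t) ↦ S.A (io (H s t), circ (k t + ζ))` is a homotopy (the points are off the circles: the core of `γ a` is
`(β a 0, circ u)`; `S.A` is continuous at the points off the circles) from the given curve to `S.A (β a₀ (r e), circ (k t + ζ)) = S.A (γ a₀ (k t + ζ, r e)) = S.Q a₀ (r ex (k t + ζ), e)`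
(`S.glue`), and `S.Q a₀ ((1 - s) r ex (k t + ζ), e)` is a homotopy to `p = S.Q a₀ (0, e)` (`S.Q_loc` gives continuity).  `p` does not depend on `n j k ζ`.
Use `ACB.FHom` lemmas of `ACB/FHm.lean` (mk', trans).
-/

open scoped Manifold ContDiff Topology
open Set Filter
open Complex (I)
open Pool.Agent.RSG (E3 E4 S2 S3 S4 ex cj c1 c2 ht fh pS3 pS4)
open Pool.Agent.RBM (ThickT OnT)
open Pool.Agent.RBH (Tube)
open Pool.Agent.PTH (SP ISP)
open Pool.Agent.KNH (circ rot)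
open Pool.Agent.LKF (LinkT OnF TubF TwinF)
open Pool.Agent.LKT (ThickC TubesC OffC SurgJ s1 s2 κa κb RR ΘU ΘH dir)
open Pool.Agent.LKB (Mf Std OLoop)

namespace Pool.Agent.LKS

open Pool.Agent.CLG (io oi pol)

theorem NulT_pol : s1 pol = 0 ∧ s2 pol = 1 := by
  have h := RSG.pS3_c (a := 0) (b := 1) (by simp)
  exact h

theorem NulT_N1 : s1 N1 = -1 ∧ s2 N1 = 0 := by
  have h := RSG.pS3_c (a := -1) (b := 0) (by simp)
  exact h

theorem NulT_N2 : s1 N2 = 0 ∧ s2 N2 = -1 := by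
  have h := RSG.pS3_c (a := 0) (b := -1) (by simp)
  exact h

theorem NulT_ne (n j : ℤ) (t : ℝ) : s1 (tor n j t) ≠ 0 ∧ s2 (tor n j t) ≠ 0 := by
  rw [tor_s1, tor_s2]
  constructor
  · exact mul_ne_zero (mul_ne_zero (by norm_num) Complex.I_ne_zero) (RSG.ex_ne _)
  · exact mul_ne_zero (by norm_num) (RSG.ex_ne _)

theorem NulT_tor_pol (n j : ℤ) (t : ℝ) : tor n j t ≠ pol := by
  intro h
  have h1 := (NulT_ne n j t).1
  rw [h, NulT_pol.1] at h1
  exact h1 rfl

theorem NulT_tor_N (n j : ℤ) (t : ℝ) {x : S3} (hx : x = N1 ∨ x = N2) : tor n j t ≠ x := by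
  rintro rfl
  rcases hx with h | h
  · have h1 := (NulT_ne n j t).2
    rw [h, NulT_N1.2] at h1
    exact h1 rfl
  · have h1 := (NulT_ne n j t).1
    rw [h, NulT_N2.1] at h1
    exact h1 rfl

theorem NulT_N_pol {x : S3} (hx : x = N1 ∨ x = N2) : x ≠ pol := by
  rintro rfl
  rcases hx with h | h
  · have h1 := NulT_N1.1
    rw [← h, NulT_pol.1] at h1
    norm_num at h1
  · have h1 := NulT_N2.2
    rw [← h, NulT_pol.2] at h1
    norm_num at h1

theorem NulT_smooth (n j : ℤ) : ContMDiff 𝓘(ℝ, ℝ) (𝓡 3) ∞ (tor n j) := by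
  intro t
  have hl : ∀ m : ℤ, ContDiff ℝ ∞ fun t : ℝ => ex (-m * t) := fun m =>
    RSG.ex_smooth.comp (contDiff_const.mul contDiff_id)
  refine RSG.pS3_smooth (a := fun t : ℝ => 4 / 5 * I * ex (-n * t)) (b := fun t : ℝ => -3 / 5 * ex (-j * t)) ?_ ?_ ?_
  · exact (contDiff_const.mul (hl n)).contMDiff t
  · exact (contDiff_const.mul (hl j)).contMDiff t
  · have h1 : (0 : ℝ) < ‖(4 / 5 * I * ex (-n * t) : ℂ)‖ :=
      norm_pos_iff.2 (mul_ne_zero (mul_ne_zero (by norm_num) Complex.I_ne_zero) (RSG.ex_ne _))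
    positivity

theorem NulT_per (n j : ℤ) (t : ℝ) : tor n j (t + 1) = tor n j t := by
  have h1 : ∀ m : ℤ, ex (-m * (t + 1)) = ex (-m * t) := by
    intro m
    have e : -(m : ℝ) * (t + 1) = -m * t + ((-m : ℤ) : ℝ) := by push_cast; ring
    rw [e, RSG.ex_add_int]
  unfold tor
  rw [h1, h1]

theorem NulT_circ (k : ℤ) (ζ t : ℝ) : circ (k * (t + 1) + ζ) = circ (k * t + ζ) := by
  have e : (k : ℝ) * (t + 1) + ζ = k * t + ζ + ((k : ℤ) : ℝ) := by ring
  rw [e, KNH.circ_add, KNH.circ_int, mul_one]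

theorem NulT_cc : Continuous circ := by
  unfold circ
  exact Circle.exp.continuous.comp (continuous_const.mul continuous_id)

theorem null_tor {α : Type*} {X : Type*} [TopologicalSpace X] [ChartedSpace E4 X] {γ : α → ℝ × E3 → SP} {β : α → E3 → S3}
    (hγ : TubesC ISP γ (1 / 4)) (hβ : ∀ a u y, ‖y‖ < 1 / 4 → γ a (u, y) = (β a y, circ u))
    (hN : ∀ a, β a 0 = N1 ∨ β a 0 = N2) (S : SurgJ ISP γ (1 / 4) X) (a₀ : α) :
    ∃ p : X, ∀ (n j k : ℤ) (ζ : ℝ), ACB.FHom univ (fun t => S.A (tor n j t, circ (k * t + ζ))) fun _ => p := by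
  have h0 : ‖(0 : E3)‖ < 1 / 4 := by rw [norm_zero]; norm_num
  obtain ⟨e⟩ : Nonempty S2 := ⟨⟨EuclideanSpace.single 0 1, by simp⟩⟩
  have hen : ∀ r : ℝ, 0 ≤ r → ‖r • e.1‖ = r := fun r hr => Comm_norm e r hr
  -- the point off the pole
  obtain ⟨r, hr0, hr1, hrp⟩ : ∃ r : ℝ, 0 < r ∧ r < 1 / 4 ∧ β a₀ (r • e.1) ≠ pol := by
    have hc : ContinuousAt (fun y : E3 => (γ a₀ (0, y)).1) 0 := by
      have h1 : ContinuousAt (γ a₀) (0, 0) := ((hγ.thick a₀).loc 0 0 h0).contMDiffAt.continuousAt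
      have h2 : ContinuousAt (fun y : E3 => γ a₀ (0, y)) 0 :=
        ContinuousAt.comp (f := fun y : E3 => ((0 : ℝ), y)) (x := (0 : E3)) h1 (by fun_prop)
      exact continuous_fst.continuousAt.comp h2
    have h1 : (γ a₀ (0, 0)).1 ≠ pol := by
      rw [hβ a₀ 0 0 h0]
      exact NulT_N_pol (hN a₀)
    have h2 : ∀ᶠ y : E3 in 𝓝 0, (γ a₀ (0, y)).1 ≠ pol := hc.eventually_ne h1
    have h3 : Tendsto (fun r : ℝ => r • e.1) (𝓝[>] 0) (𝓝 (0 : E3)) := by
      have h4 : Continuous fun r : ℝ => r • e.1 := continuous_id.smul continuous_const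
      have h5 := h4.tendsto 0
      rw [zero_smul] at h5
      exact h5.mono_left nhdsWithin_le_nhds
    have h6 : ∀ᶠ r : ℝ in 𝓝[>] 0, r < 1 / 4 := by
      refine Filter.Eventually.filter_mono nhdsWithin_le_nhds ?_
      exact gt_mem_nhds (by norm_num)
    have h7 : ∀ᶠ r : ℝ in 𝓝[>] (0 : ℝ), 0 < r := self_mem_nhdsWithin
    obtain ⟨r, ⟨g1, g2⟩, g3⟩ := ((h7.and h6).and (h3.eventually h2)).exists
    refine ⟨r, g1, g2, ?_⟩
    have g4 := hβ a₀ 0 (r • e.1) (by rw [hen r g1.le]; exact g2)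
    rw [g4] at g3
    exact g3
  have hre : ‖r • e.1‖ < 1 / 4 := by rw [hen r hr0.le]; exact hr1
  have hre0 : r • e.1 ≠ 0 := by rw [← norm_pos_iff, hen r hr0.le]; exact hr0
  obtain ⟨A, hA⟩ : ∃ A : Set (ℂ × ℝ), A = {y | ∃ a, y = oi (β a 0)} := ⟨_, rfl⟩
  have hAf : A.Finite := by
    refine Set.Finite.subset (s := {oi N1, oi N2}) (by simp) ?_
    rw [hA]
    rintro y ⟨a, rfl⟩
    rcases hN a with h | h
    · rw [h]; simp
    · rw [h]; simp
  have hw : oi (β a₀ (r • e.1)) ∉ A := by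
    rw [hA]
    rintro ⟨a, ha⟩
    have h1 : β a₀ (r • e.1) = β a 0 := by
      rw [← CLG.io_oi hrp, ha, CLG.io_oi (NulT_N_pol (hN a))]
    refine Comm_off hγ (a := a₀) (l := 0) hre hre0 a 0 ?_
    rw [hβ a₀ 0 _ hre, hβ a 0 0 h0, h1]
  have hoff : ∀ (y : ℂ × ℝ) (c : Circle), y ∉ A → OffC γ ((io y, c) : SP) := by
    intro y c hy a u e1
    rw [hβ a u 0 h0] at e1
    have h1 : io y = β a 0 := congrArg Prod.fst e1
    apply hy
    rw [hA]
    exact ⟨a, by rw [← h1, CLG.oi_io]⟩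
  refine ⟨S.Q a₀ (0, e), fun n j k ζ => ?_⟩
  have hys : ContDiff ℝ ∞ fun t => oi (tor n j t) := by
    rw [← contMDiff_iff_contDiff]
    intro t
    exact (CLG.oi_smooth (NulT_tor_pol n j t)).comp t (NulT_smooth n j t)
  obtain ⟨H, hHc, hHp, hH0, hH1, hHA⟩ := lnl (V := ℂ × ℝ) (by simp) hys
    (fun t => by rw [NulT_per]) hAf (by
      intro t ht
      rw [hA] at ht
      obtain ⟨a, ha⟩ := ht
      have h1 : tor n j t = β a 0 := by
        rw [← CLG.io_oi (NulT_tor_pol n j t), ha, CLG.io_oi (NulT_N_pol (hN a))]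
      exact NulT_tor_N n j t (hN a) h1) hw
  have hck : Continuous fun t : ℝ => circ (k * t + ζ) :=
    NulT_cc.comp ((continuous_const.mul continuous_id).add continuous_const)
  have F1 : ACB.FHom univ (fun t => S.A (tor n j t, circ (k * t + ζ)))
      (fun t => S.Q a₀ ((r : ℂ) * ex (k * t + ζ), e)) := by
    refine ⟨fun s t => S.A (io (H s t), circ (k * t + ζ)), ?_, ?_, ?_, ?_, fun _ _ => mem_univ _⟩
    · rw [continuous_iff_continuousAt]
      rintro ⟨s, t⟩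
      have g1 : ContinuousAt S.A ((io (H s t), circ (k * t + ζ)) : SP) :=
        (S.A_loc _ (hoff _ _ (hHA s t))).contMDiffAt.continuousAt
      have g2 : Continuous fun q : ℝ × ℝ => ((io (H q.1 q.2), circ (k * q.2 + ζ)) : SP) :=
        (CLG.io_smooth.continuous.comp hHc).prodMk (hck.comp continuous_snd)
      exact ContinuousAt.comp (f := fun q : ℝ × ℝ => ((io (H q.1 q.2), circ (k * q.2 + ζ)) : SP)) (x := (s, t)) g1
        g2.continuousAt
    · intro s t
      show S.A (io (H s (t + 1)), circ (k * (t + 1) + ζ)) = S.A (io (H s t), circ (k * t + ζ))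
      rw [hHp, NulT_circ]
    · funext t
      show S.A (io (H 0 t), circ (k * t + ζ)) = _
      rw [hH0, CLG.io_oi (NulT_tor_pol n j t)]
    · funext t
      show S.A (io (H 1 t), circ (k * t + ζ)) = _
      rw [hH1, CLG.io_oi hrp, S.glue a₀ _ r e hr0 hr1, hβ a₀ _ _ hre]
  have F2 : ACB.FHom univ (fun t => S.Q a₀ ((r : ℂ) * ex (k * t + ζ), e)) (fun _ => S.Q a₀ (0, e)) := by
    refine ACB.FHom.mk' (fun s t => S.Q a₀ (((1 - s : ℝ) : ℂ) * ((r : ℂ) * ex (k * t + ζ)), e)) ?_ ?_ ?_ ?_ fun _ _ _ => mem_univ _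
    · rintro ⟨s, t⟩ ⟨hs, _⟩
      refine ContinuousAt.continuousWithinAt ?_
      have hn : ‖((1 - s : ℝ) : ℂ) * ((r : ℂ) * ex (k * t + ζ))‖ < 1 / 4 := by
        rw [norm_mul, norm_mul, RSG.ex_norm, mul_one, Complex.norm_real, Complex.norm_real,
          Real.norm_of_nonneg (by linarith [hs.2]), Real.norm_of_nonneg hr0.le]
        have h1 : (1 - s) * r ≤ 1 * r := mul_le_mul_of_nonneg_right (by linarith [hs.1]) hr0.le
        linarith
      have g1 : ContinuousAt (S.Q a₀) (((1 - s : ℝ) : ℂ) * ((r : ℂ) * ex (k * t + ζ)), e) :=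
        (S.Q_loc a₀ _ e hn).contMDiffAt.continuousAt
      have g2 : Continuous fun q : ℝ × ℝ => ((((1 - q.1 : ℝ) : ℂ) * ((r : ℂ) * ex (k * q.2 + ζ)), e) : ℂ × S2) := by
        refine Continuous.prodMk ?_ continuous_const
        refine (Complex.continuous_ofReal.comp (continuous_const.sub continuous_fst)).mul (continuous_const.mul ?_)
        exact RSG.ex_smooth.continuous.comp ((continuous_const.mul continuous_snd).add continuous_const)
      exact ContinuousAt.comp (f := fun q : ℝ × ℝ => ((((1 - q.1 : ℝ) : ℂ) * ((r : ℂ) * ex (k * q.2 + ζ)), e) : ℂ × S2))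
        (x := (s, t)) g1 g2.continuousAt
    · intro s _ t
      have e2 : (k : ℝ) * (t + 1) + ζ = k * t + ζ + ((k : ℤ) : ℝ) := by ring
      show S.Q a₀ (((1 - s : ℝ) : ℂ) * ((r : ℂ) * ex (k * (t + 1) + ζ)), e) = _
      rw [e2, RSG.ex_add_int]
    · funext t
      show S.Q a₀ (((1 - 0 : ℝ) : ℂ) * ((r : ℂ) * ex (k * t + ζ)), e) = _
      rw [sub_zero, Complex.ofReal_one, one_mul]
    · funext t
      show S.Q a₀ (((1 - 1 : ℝ) : ℂ) * ((r : ℂ) * ex (k * t + ζ)), e) = _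
      rw [sub_self, Complex.ofReal_zero, zero_mul]
  exact F1.trans F2

end Pool.Agent.LKS
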