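import Pool.Agent.LKS.NuT
import Pool.Agent.CSG.Radial
import Pool.Agent.CSG.FunBasic
import Pool.Agent.KNH.CirM

/-!
# LKS/Sqz (difficulty 3-4): squeezing the tube of `nu`

PROOF.  Radial diffeomorphism of `ℝ³`: `ψ v = g (‖v‖²) v`, `g s = c + (1 - c) stp (1/400) (81/10000) s` (`CSG.stp`: `0` for `s ≤ 1/400`, `1` for `s ≥ 81/10000`, monotone),
`c = 10 δ`... (any `0 < c < 1` with `c / 20 < δ`; if `δ > 1/20` take `c = 1/2`).  `r ↦ g (r²) r` is strictly increasing (`g > 0` increasing), onto; `ψ` is bijective, a local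
diffeomorphism (its derivative is `g I + 2 g' ⟨v, ·⟩ v`, injective: `⟨Dψ w, w⟩ = g |w|² + 2 g' ⟨v, w⟩² > 0`), `ψ v = v` for `‖v‖ ≥ 9/100`, `‖ψ v‖ = c ‖v‖` for `‖v‖ ≤ 1/20`, and
`‖ψ v‖ < 9/100` for `‖v‖ < 9/100`.  (See `LKR/Sqz.lean`, `ACB/Rad.lean` for the same computation.)
`Φ p = nu (l, ψ v)` if `p = nu (l, v)`, `‖v‖ < 1/10`, `Φ p = p` otherwise.  Local diffeomorphism: on the open set `NuB (1/10)` conjugate of `id × ψ` by the injective (mod periods) local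
diffeomorphism `nu` (`ACB.cmt_quot`), on the complement of the closed set `‖v‖ ≤ 9/100` (`nuB_closed`) it is the identity.
-/

open scoped Manifold ContDiff Topology
open Set Filter
open Complex (I)
open Pool.Agent.RSG (E3 E4 S2 S3 S4 ex cj c1 c2 ht fh pS3 pS4)
open Pool.Agent.RBM (ThickT OnT)
open Pool.Agent.RBH (Tube)
open Pool.Agent.PTH (SP ISP)
open Pool.Agent.KNH (circ rot)
open Pool.Agent.LKF (LinkT OnF TubF TwinF)
open Pool.Agent.LKT (ThickC TubesC OffC SurgJ s1 s2 κa κb RR ΘU ΘH dir)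
open Pool.Agent.LKB (Mf Std OLoop)

namespace Pool.Agent.LKS

/-- the radial profile -/
noncomputable def Sqz_g (c : ℝ) (s : ℝ) : ℝ := c + (1 - c) * CSG.stp (1 / 400) (81 / 10000) s

/-- the radial map -/
noncomputable def Sqz_p (c : ℝ) (v : E3) : E3 := Sqz_g c (‖v‖ ^ 2) • v

theorem Sqz_low {c : ℝ} (h1 : c ≤ 1) (s : ℝ) : c ≤ Sqz_g c s := by
  have h := CSG.stp_nonneg (1 / 400) (81 / 10000) s
  have h2 : 0 ≤ (1 - c) * CSG.stp (1 / 400) (81 / 10000) s := mul_nonneg (by linarith) h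
  unfold Sqz_g
  linarith

theorem Sqz_gm {c : ℝ} (h1 : c ≤ 1) {s t : ℝ} (h : s ≤ t) : Sqz_g c s ≤ Sqz_g c t := by
  have h2 := CSG.stp_mono (a := 1 / 400) (b := 81 / 10000) (by norm_num) h
  unfold Sqz_g
  have h3 := mul_le_mul_of_nonneg_left h2 (show (0 : ℝ) ≤ 1 - c by linarith)
  linarith

theorem Sqz_gs (c : ℝ) : ContDiff ℝ ∞ (Sqz_g c) := by
  unfold Sqz_g
  exact contDiff_const.add (contDiff_const.mul (CSG.stp_smooth _ _))

theorem Sqz_ps (c : ℝ) : ContDiff ℝ ∞ (Sqz_p c) := by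
  unfold Sqz_p
  exact ((Sqz_gs c).comp (contDiff_norm_sq ℝ)).smul contDiff_id

theorem Sqz_in {a b c : ℝ} (hb : c ≤ b) (hab : b ≤ a) {v w : E3} (hvw : ‖w‖ ≤ ‖v‖) :
    c * ‖v - w‖ ^ 2 ≤ inner ℝ (a • v - b • w) (v - w) := by
  have e1 : inner ℝ (a • v - b • w) (v - w) = a * ‖v‖ ^ 2 - (a + b) * inner ℝ v w + b * ‖w‖ ^ 2 := by
    rw [inner_sub_left, inner_sub_right, inner_sub_right, inner_smul_left, inner_smul_left, inner_smul_left, inner_smul_left,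
      real_inner_self_eq_norm_sq, real_inner_self_eq_norm_sq, real_inner_comm v w]
    simp only [conj_trivial]
    ring
  have e2 : ‖v - w‖ ^ 2 = ‖v‖ ^ 2 - 2 * inner ℝ v w + ‖w‖ ^ 2 := norm_sub_sq_real v w
  have h1 : inner ℝ v w ≤ ‖v‖ * ‖w‖ := real_inner_le_norm v w
  have h2 : 0 ≤ (a - c + (b - c)) * (‖v‖ * ‖w‖ - inner ℝ v w) := mul_nonneg (by linarith) (by linarith)
  have h3 : (b - c) * ‖w‖ ≤ (a - c) * ‖v‖ :=
    mul_le_mul (by linarith) hvw (norm_nonneg _) (by linarith)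
  have h4 : 0 ≤ ((a - c) * ‖v‖ - (b - c) * ‖w‖) * (‖v‖ - ‖w‖) := mul_nonneg (by linarith) (by linarith)
  rw [e1, e2]
  nlinarith [h2, h4]

theorem Sqz_inc {c : ℝ} (h1 : c ≤ 1) (v w : E3) : c * ‖v - w‖ ≤ ‖Sqz_p c v - Sqz_p c w‖ := by
  have key : c * ‖v - w‖ ^ 2 ≤ inner ℝ (Sqz_p c v - Sqz_p c w) (v - w) := by
    rcases le_total ‖w‖ ‖v‖ with h | h
    · exact Sqz_in (Sqz_low h1 _) (Sqz_gm h1 (by gcongr)) h
    · have h2 := Sqz_in (c := c) (Sqz_low h1 (‖v‖ ^ 2)) (Sqz_gm h1 (show ‖v‖ ^ 2 ≤ ‖w‖ ^ 2 by gcongr)) h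
      rw [norm_sub_rev w v] at h2
      have e : inner ℝ (Sqz_p c v - Sqz_p c w) (v - w) =
          inner ℝ (Sqz_g c (‖w‖ ^ 2) • w - Sqz_g c (‖v‖ ^ 2) • v) (w - v) := by
        rw [← inner_neg_neg, neg_sub, neg_sub]
        rfl
      rw [e]
      exact h2
  have h2 := real_inner_le_norm (Sqz_p c v - Sqz_p c w) (v - w)
  rcases eq_or_lt_of_le (norm_nonneg (v - w)) with h | h
  · rw [← h, mul_zero]
    exact norm_nonneg _
  · have h3 : c * ‖v - w‖ * ‖v - w‖ ≤ ‖Sqz_p c v - Sqz_p c w‖ * ‖v - w‖ := by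
      nlinarith [key, h2]
    exact le_of_mul_le_mul_right h3 h

theorem Sqz_out (c : ℝ) {v : E3} (h : 9 / 100 ≤ ‖v‖) : Sqz_p c v = v := by
  unfold Sqz_p Sqz_g
  rw [CSG.stp_one (by norm_num) (by nlinarith)]
  rw [mul_one, add_sub_cancel, one_smul]

theorem Sqz_inn (c : ℝ) {v : E3} (h : ‖v‖ < 1 / 20) : Sqz_p c v = c • v := by
  unfold Sqz_p Sqz_g
  rw [CSG.stp_zero (by norm_num) (by nlinarith [norm_nonneg v])]
  rw [mul_zero, add_zero]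

theorem Sqz_bij {c : ℝ} (h0 : 0 < c) (h1 : c ≤ 1) : Function.Bijective (Sqz_p c) := by
  refine ⟨fun v w h => ?_, fun w => ?_⟩
  · have h2 := Sqz_inc h1 v w
    rw [h, sub_self, norm_zero] at h2
    have h3 : ‖v - w‖ ≤ 0 := by
      by_contra hc
      push Not at hc
      have := mul_pos h0 hc
      linarith
    exact sub_eq_zero.1 (norm_le_zero_iff.1 h3)
  · by_cases hw : w = 0
    · exact ⟨0, by rw [hw]; unfold Sqz_p; rw [smul_zero]⟩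
    have hW : 0 < ‖w‖ := norm_pos_iff.2 hw
    have hcont : Continuous fun r : ℝ => Sqz_g c (r ^ 2) * r :=
      ((Sqz_gs c).continuous.comp (continuous_pow 2)).mul continuous_id
    have hle : (0 : ℝ) ≤ ‖w‖ / c := by positivity
    have hmem : ‖w‖ ∈ Icc (Sqz_g c ((0 : ℝ) ^ 2) * 0) (Sqz_g c ((‖w‖ / c) ^ 2) * (‖w‖ / c)) := by
      constructor
      · rw [mul_zero]
        exact hW.le
      · have h3 := mul_le_mul_of_nonneg_right (Sqz_low h1 ((‖w‖ / c) ^ 2)) hle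
        have e : c * (‖w‖ / c) = ‖w‖ := by field_simp
        linarith
    obtain ⟨r, hr, hr2⟩ := intermediate_value_Icc hle hcont.continuousOn hmem
    refine ⟨(r / ‖w‖) • w, ?_⟩
    have hn : ‖(r / ‖w‖) • w‖ = r := by
      rw [norm_smul, Real.norm_eq_abs, abs_of_nonneg (div_nonneg hr.1 hW.le)]
      field_simp
    unfold Sqz_p
    rw [hn, smul_smul]
    have e : Sqz_g c (r ^ 2) * (r / ‖w‖) = 1 := by
      have hr3 : Sqz_g c (r ^ 2) * r = ‖w‖ := hr2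
      rw [← mul_div_assoc, hr3]
      field_simp
    rw [e, one_smul]

theorem Sqz_ld {c : ℝ} (h0 : 0 < c) (h1 : c ≤ 1) (q : ℝ × E3) :
    IsLocalDiffeomorphAt 𝓘(ℝ, ℝ × E3) 𝓘(ℝ, ℝ × E3) ∞ (fun q : ℝ × E3 => (q.1, Sqz_p c q.2)) q := by
  have hs : ContDiff ℝ ∞ (fun q : ℝ × E3 => (q.1, Sqz_p c q.2)) :=
    contDiff_fst.prodMk ((Sqz_ps c).comp contDiff_snd)
  refine CSG.ld_of_fderiv (Eventually.of_forall fun y => hs.contDiffAt) rfl ?_
  refine CSG.fderiv_inj_of_lower ((hs.differentiable (by simp)).differentiableAt) h0 ?_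
  refine Eventually.of_forall fun y => ?_
  have h2 := Sqz_inc h1 y.2 q.2
  have e1 : ‖y - q‖ = max ‖y.1 - q.1‖ ‖y.2 - q.2‖ := rfl
  have e2 : ‖((y.1, Sqz_p c y.2) : ℝ × E3) - (q.1, Sqz_p c q.2)‖ = max ‖y.1 - q.1‖ ‖Sqz_p c y.2 - Sqz_p c q.2‖ := rfl
  rw [e1]
  change c * max ‖y.1 - q.1‖ ‖y.2 - q.2‖ ≤ ‖((y.1, Sqz_p c y.2) : ℝ × E3) - (q.1, Sqz_p c q.2)‖
  rw [e2]
  rcases le_total ‖y.1 - q.1‖ ‖y.2 - q.2‖ with h | h
  · rw [max_eq_right h]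
    exact h2.trans (le_max_right _ _)
  · rw [max_eq_left h]
    refine le_trans ?_ (le_max_left _ _)
    have := norm_nonneg (y.1 - q.1)
    nlinarith

open Classical in
/-- extension by the identity -/
noncomputable def Sqz_M (f : E3 → E3) (p : SP) : SP :=
  if h : ∃ (l : ℝ) (v : E3), ‖v‖ < 1 / 10 ∧ p = nu (l, v) then nu (h.choose, f h.choose_spec.choose) else p

theorem Sqz_M_nu {f : E3 → E3} (hf : ∀ v, 9 / 100 ≤ ‖v‖ → f v = v) (l : ℝ) (v : E3) :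
    Sqz_M f (nu (l, v)) = nu (l, f v) := by
  unfold Sqz_M
  split_ifs with h
  · have h2 := h.choose_spec.choose_spec.2
    obtain ⟨h3, m, hm⟩ := nu_inj h2
    rw [← h3]
    have e : circ h.choose = circ l := KNH.circ_eq.2 ⟨m, hm⟩
    change ((sg (f v), circ h.choose) : SP) = (sg (f v), circ l)
    rw [e]
  · have h2 : 9 / 100 ≤ ‖v‖ := by
      by_contra hc
      push Not at hc
      exact h ⟨l, v, by linarith, rfl⟩
    rw [hf v h2]

theorem Sqz_M_out {f : E3 → E3} {p : SP} (hp : p ∉ NuB (1 / 10)) : Sqz_M f p = p := by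
  unfold Sqz_M
  exact dif_neg hp

theorem Sqz_M_inv {f g : E3 → E3} (hf : ∀ v, 9 / 100 ≤ ‖v‖ → f v = v) (hg : ∀ v, 9 / 100 ≤ ‖v‖ → g v = v)
    (hfg : ∀ v, f (g v) = v) (p : SP) : Sqz_M f (Sqz_M g p) = p := by
  by_cases hp : p ∈ NuB (1 / 10)
  · obtain ⟨l, v, _, rfl⟩ := hp
    rw [Sqz_M_nu hg, Sqz_M_nu hf, hfg]
  · rw [Sqz_M_out hp, Sqz_M_out hp]

theorem sqz {δ : ℝ} (hδ : 0 < δ) : ∃ Φ : Equiv.Perm SP, PD ISP Φ ∧
    (∀ (l : ℝ) (v : E3), ‖v‖ < 1 / 20 → ∃ v' : E3, ‖v'‖ < δ ∧ Φ (nu (l, v)) = nu (l, v')) ∧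
    ∀ p, p ∉ NuB (1 / 10) → Φ p = p := by
  obtain ⟨c, hc⟩ : ∃ c : ℝ, c = min (1 / 2) (10 * δ) := ⟨_, rfl⟩
  have h0 : 0 < c := by rw [hc]; exact lt_min (by norm_num) (by linarith)
  have h1 : c ≤ 1 := by rw [hc]; exact (min_le_left _ _).trans (by norm_num)
  have h2 : c ≤ 10 * δ := by rw [hc]; exact min_le_right _ _
  have hf : ∀ v, 9 / 100 ≤ ‖v‖ → Sqz_p c v = v := fun v hv => Sqz_out c hv
  obtain ⟨g, hg⟩ : ∃ g : E3 ≃ E3, ∀ v, g v = Sqz_p c v := ⟨Equiv.ofBijective _ (Sqz_bij h0 h1), fun v => rfl⟩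
  have hg2 : ∀ v, 9 / 100 ≤ ‖v‖ → g.symm v = v := fun v hv => by
    rw [Equiv.symm_apply_eq, hg, hf v hv]
  refine ⟨⟨Sqz_M (Sqz_p c), Sqz_M g.symm, Sqz_M_inv hg2 hf fun v => ?_, Sqz_M_inv hf hg2 fun v => ?_⟩, fun p => ?_, fun l v hv => ?_, fun p hp => ?_⟩
  · rw [← hg, Equiv.symm_apply_apply]
  · rw [← hg, Equiv.apply_symm_apply]
  · change IsLocalDiffeomorphAt ISP ISP ∞ (Sqz_M (Sqz_p c)) p
    by_cases hp : p ∈ NuB (1 / 10)
    · obtain ⟨l, v, _, rfl⟩ := hp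
      refine CSG.ld_of_comp_left (f := nu) (I := 𝓘(ℝ, ℝ × E3)) ?_ (nu_loc (l, v))
      have e : Sqz_M (Sqz_p c) ∘ nu = nu ∘ fun q : ℝ × E3 => (q.1, Sqz_p c q.2) := by
        funext q
        exact Sqz_M_nu hf q.1 q.2
      rw [e]
      exact IsLocalDiffeomorphAt.comp (hf := Sqz_ld h0 h1 (l, v)) (hg := nu_loc _) ..
    · refine CSG.ld_congr (CSG.ld_id p) ?_
      have hcl := nuB_closed (9 / 100)
      have hp2 : p ∉ {p : SP | ∃ (l : ℝ) (v : E3), ‖v‖ ≤ 9 / 100 ∧ p = nu (l, v)} := by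
        rintro ⟨l, v, hv, rfl⟩
        exact hp ⟨l, v, by linarith, rfl⟩
      filter_upwards [hcl.isOpen_compl.mem_nhds hp2] with q hq
      change Sqz_M (Sqz_p c) q = q
      by_cases hq2 : q ∈ NuB (1 / 10)
      · obtain ⟨l, v, _, rfl⟩ := hq2
        have hv : 9 / 100 ≤ ‖v‖ := by
          by_contra hc2
          push Not at hc2
          exact hq ⟨l, v, hc2.le, rfl⟩
        rw [Sqz_M_nu hf, hf v hv]
      · exact Sqz_M_out hq2
  · refine ⟨c • v, ?_, ?_⟩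
    · rw [norm_smul, Real.norm_eq_abs, abs_of_pos h0]
      have := norm_nonneg v
      nlinarith
    · change Sqz_M (Sqz_p c) (nu (l, v)) = _
      rw [Sqz_M_nu hf, Sqz_inn c hv]
  · exact Sqz_M_out hp

end Pool.Agent.LKS
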