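import Pool.Agent.LKS.Defs
import Pool.Agent.ACB.Gpo
import Pool.Agent.ACB.NFd

/-!
# LKS/TIs (difficulty 2): freely homotopic thick circles are equivalent up to a framing loop

PROOF.  The cores are embedded circles (`ACB.Circ`; see `ACB/ThC.lean` or `ACB/CrA.lean` for the core of a thick circle), `ACB.gp_iso` with `Z = ∅` (`Obst ∅`) gives `F₁` with
`F₁ (c (t, 0)) = c' (t, 0)`; `F₁ ∘ c` is a thick circle with the core of `c'`; `ACB.tube_nf` with `U = univ` gives `F₂`, `L`.  `F = F₁.trans F₂`, `δ` as in `tube_nf`.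
-/

open scoped Manifold ContDiff Topology
open Set Filter
open Complex (I)
open Pool.Agent.RSG (E3 E4 S2 S3 S4 ex cj c1 c2 ht fh pS3 pS4)
open Pool.Agent.RBM (ThickT OnT)
open Pool.Agent.RBH (Tube)
open Pool.Agent.PTH (SP ISP)
open Pool.Agent.KNH (circ rot)
open Pool.Agent.LKF (LinkT OnF TubF TwinF)
open Pool.Agent.LKT (ThickC TubesC OffC SurgJ s1 s2 κa κb RR ΘU ΘH dir)
open Pool.Agent.LKB (Mf Std OLoop)

namespace Pool.Agent.LKS

universe u

theorem tIso {N : Type u} [TopologicalSpace N] [ChartedSpace E4 N] [T2Space N] [IsManifold (𝓡 4) ∞ N]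
    {c c' : ℝ × E3 → N} {ε : ℝ} (h : ACB.Thick c ε) (h' : ACB.Thick c' ε)
    (hF : ACB.FHom univ (fun t => c (t, 0)) (fun t => c' (t, 0))) :
    ∃ L : ℝ → E3 →L[ℝ] E3, OLoop L ∧ ∃ F : N ≃ₘ⟮𝓡 4, 𝓡 4⟯ N, ∃ δ > 0, ∀ (l : ℝ) (v : E3), ‖v‖ < δ → F (c (l, v)) = c' (l, L l v) := by
  have hc := h.circ
  have hc' := h'.circ
  obtain ⟨F₁, hF₁, -⟩ := ACB.gp_iso ACB.Obst.empty hc hc' (fun _ => notMem_empty _) (fun _ => notMem_empty _) hF
  have hT : ACB.Thick (fun x => F₁ (c x)) ε :=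
    ACB.thick_comp h (U := univ) (fun _ _ _ => mem_univ _) (fun x _ => F₁.isLocalDiffeomorph x) F₁.injective.injOn
  have hcore : ACB.core (fun x => F₁ (c x)) = ACB.core c' := funext fun l => hF₁ l
  obtain ⟨L, hLs, hLp, hLn, F₂, -, δ, hδ, hF₂⟩ := ACB.tube_nf hT h' hcore isOpen_univ (fun _ => mem_univ _)
  exact ⟨L, ⟨hLs, hLp, hLn⟩, F₁.trans F₂, δ, hδ, hF₂⟩

end Pool.Agent.LKS
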