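import Pool.Agent.LKS.NuT
import Pool.Agent.CSG.LDa
import Pool.Agent.RSG.LDc
import Pool.Agent.RSG.SphA
import Pool.Agent.KNH.CirM

/-!
# LKS/Thr (difficulty 3): rotations around the circle

PROOF.  `F v = (v 0, 3/5 v 1, 4/5 v 1, v 2)`, `G x = (x 0, 3/5 x 1 + 4/5 x 2, x 3)` (`G F = 1`), `h x = 4/5 x 1 - 3/5 x 2`, `p = (0, 4/5, -3/5, 0)`;
`x = h x p + F (G x)`.  `Θ (x, circ l) = (h x p + F (L l (G x)), circ l)` (norm preserved because `L l` is isometric).  `sg v = (p + F v)/√(1+|v|²)` gives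
`Θ (nu (l, v)) = nu (l, L l v)`.  Well defined because `L` is periodic.  Inverse: the same with `M l = (L l)⁻¹` (isometric, bijective: finite dimension;
smooth in `l`: `M l = adjoint of L l`, `ContinuousLinearMap.adjoint` is linear and continuous, or `ContinuousLinearMap.inverse` with `contDiffAt_map_inverse`).
SMOOTHNESS: `π (x, l) = (x, circ l)` is a surjective local diffeomorphism `S3 × ℝ → SP`, and `Θ ∘ π = π ∘ Θ'`, `Θ' (x, l) = (.., l)` smooth (restriction of a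
smooth map of `E4 × ℝ` to the sphere: `ContMDiff.codRestrict_sphere`) with the smooth inverse given by `M`; `ACB.cmt_quot`.
-/

open scoped Manifold ContDiff Topology
open Set Filter
open Complex (I)
open Pool.Agent.RSG (E3 E4 S2 S3 S4 ex cj c1 c2 ht fh pS3 pS4)
open Pool.Agent.RBM (ThickT OnT)
open Pool.Agent.RBH (Tube)
open Pool.Agent.PTH (SP ISP)
open Pool.Agent.KNH (circ rot)
open Pool.Agent.LKF (LinkT OnF TubF TwinF)
open Pool.Agent.LKT (ThickC TubesC OffC SurgJ s1 s2 κa κb RR ΘU ΘH dir)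
open Pool.Agent.LKB (Mf Std OLoop)

namespace Pool.Agent.LKS

noncomputable def Thr_G (x : E4) : E3 := WithLp.toLp 2 ![x 0, 3 / 5 * x 1 + 4 / 5 * x 2, x 3]

noncomputable def Thr_h (x : E4) : ℝ := 4 / 5 * x 1 - 3 / 5 * x 2

noncomputable def Thr_K (h : ℝ) (y : E3) : E4 :=
  WithLp.toLp 2 ![y 0, 4 / 5 * h + 3 / 5 * y 1, -3 / 5 * h + 4 / 5 * y 1, y 2]

theorem Thr_norm (h : ℝ) (y : E3) : ‖Thr_K h y‖ ^ 2 = h ^ 2 + ‖y‖ ^ 2 := by
  rw [EuclideanSpace.norm_sq_eq, EuclideanSpace.norm_sq_eq, Fin.sum_univ_four, Fin.sum_univ_three]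
  simp only [Real.norm_eq_abs, sq_abs]
  change y 0 ^ 2 + (4 / 5 * h + 3 / 5 * y 1) ^ 2 + (-3 / 5 * h + 4 / 5 * y 1) ^ 2 + y 2 ^ 2 = _
  ring

theorem Thr_hK (h : ℝ) (y : E3) : Thr_h (Thr_K h y) = h := by
  change 4 / 5 * (4 / 5 * h + 3 / 5 * y 1) - 3 / 5 * (-3 / 5 * h + 4 / 5 * y 1) = h
  ring

theorem Thr_GK (h : ℝ) (y : E3) : Thr_G (Thr_K h y) = y := by
  ext i
  fin_cases i
  · rfl
  · change 3 / 5 * (4 / 5 * h + 3 / 5 * y 1) + 4 / 5 * (-3 / 5 * h + 4 / 5 * y 1) = y 1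
    ring
  · rfl

theorem Thr_KK (x : E4) : Thr_K (Thr_h x) (Thr_G x) = x := by
  ext i
  fin_cases i
  · rfl
  · change 4 / 5 * (4 / 5 * x 1 - 3 / 5 * x 2) + 3 / 5 * (3 / 5 * x 1 + 4 / 5 * x 2) = x 1
    ring
  · change -3 / 5 * (4 / 5 * x 1 - 3 / 5 * x 2) + 4 / 5 * (3 / 5 * x 1 + 4 / 5 * x 2) = x 2
    ring
  · rfl

theorem Thr_Ks (c h : ℝ) (y : E3) : c • Thr_K h y = Thr_K (c * h) (c • y) := by
  ext i
  fin_cases i
  · rfl
  · change c * (4 / 5 * h + 3 / 5 * y 1) = 4 / 5 * (c * h) + 3 / 5 * (c * y 1)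
    ring
  · change c * (-3 / 5 * h + 4 / 5 * y 1) = -3 / 5 * (c * h) + 4 / 5 * (c * y 1)
    ring
  · rfl

/-- families of isometries -/
structure Thr_Ok (A : ℝ → E3 → E3) : Prop where
  smooth : ContDiff ℝ ∞ (fun q : ℝ × E3 => A q.1 q.2)
  per : ∀ l v, A (l + 1) v = A l v
  isom : ∀ l v, ‖A l v‖ = ‖v‖

theorem Thr_mem {A : ℝ → E3 → E3} (hA : Thr_Ok A) (l : ℝ) (x : S3) :
    Thr_K (Thr_h x.1) (A l (Thr_G x.1)) ∈ Metric.sphere (0 : E4) 1 := by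
  have h1 : ‖x.1‖ = 1 := norm_eq_of_mem_sphere x
  have h2 := Thr_norm (Thr_h x.1) (A l (Thr_G x.1))
  rw [hA.isom, ← Thr_norm, Thr_KK, h1] at h2
  rw [mem_sphere_zero_iff_norm]
  have h3 : (‖Thr_K (Thr_h x.1) (A l (Thr_G x.1))‖ - 1) * (‖Thr_K (Thr_h x.1) (A l (Thr_G x.1))‖ + 1) = 0 := by
    nlinarith
  rcases mul_eq_zero.1 h3 with h | h
  · linarith
  · have := norm_nonneg (Thr_K (Thr_h x.1) (A l (Thr_G x.1)))
    linarith

noncomputable def Thr_T {A : ℝ → E3 → E3} (hA : Thr_Ok A) (l : ℝ) (x : S3) : S3 :=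
  ⟨Thr_K (Thr_h x.1) (A l (Thr_G x.1)), Thr_mem hA l x⟩

theorem Thr_perm {A : ℝ → E3 → E3} (hA : Thr_Ok A) (l : ℝ) (m : ℤ) (v : E3) : A (l + m) v = A l v := by
  have h : Function.Periodic (fun l => A l v) 1 := fun l => hA.per l v
  have h2 := (h.int_mul m) l
  rw [mul_one] at h2
  exact h2

theorem Thr_Tper {A : ℝ → E3 → E3} (hA : Thr_Ok A) {l l' : ℝ} (h : circ l' = circ l) (x : S3) :
    Thr_T hA l' x = Thr_T hA l x := by
  obtain ⟨m, rfl⟩ := KNH.circ_eq.1 h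
  apply Subtype.ext
  change Thr_K (Thr_h x.1) (A (l + m) (Thr_G x.1)) = Thr_K (Thr_h x.1) (A l (Thr_G x.1))
  rw [Thr_perm hA]

noncomputable def Thr_Q {A : ℝ → E3 → E3} (hA : Thr_Ok A) (p : SP) : SP :=
  (Thr_T hA (Complex.arg (p.2 : ℂ) / (2 * Real.pi)) p.1, p.2)

theorem Thr_Q_circ {A : ℝ → E3 → E3} (hA : Thr_Ok A) (x : S3) (l : ℝ) :
    Thr_Q hA (x, circ l) = (Thr_T hA l x, circ l) := by
  unfold Thr_Q
  rw [Thr_Tper hA (KNH.CirM_arg (circ l))]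

theorem Thr_TT {A B : ℝ → E3 → E3} (hA : Thr_Ok A) (hB : Thr_Ok B) (h : ∀ l v, A l (B l v) = v) (l : ℝ) (x : S3) :
    Thr_T hA l (Thr_T hB l x) = x := by
  apply Subtype.ext
  change Thr_K (Thr_h (Thr_K (Thr_h x.1) (B l (Thr_G x.1)))) (A l (Thr_G (Thr_K (Thr_h x.1) (B l (Thr_G x.1))))) = x.1
  rw [Thr_hK, Thr_GK, h, Thr_KK]

theorem Thr_QQ {A B : ℝ → E3 → E3} (hA : Thr_Ok A) (hB : Thr_Ok B) (h : ∀ l v, A l (B l v) = v) (p : SP) :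
    Thr_Q hA (Thr_Q hB p) = p := by
  unfold Thr_Q
  change ((Thr_T hA _ (Thr_T hB _ p.1), p.2) : SP) = p
  rw [Thr_TT hA hB h]

theorem Thr_Gs : ContDiff ℝ ∞ Thr_G := by
  rw [contDiff_euclidean]
  intro i
  fin_cases i
  · change ContDiff ℝ ∞ fun x : E4 => x 0
    fun_prop
  · change ContDiff ℝ ∞ fun x : E4 => 3 / 5 * x 1 + 4 / 5 * x 2
    fun_prop
  · change ContDiff ℝ ∞ fun x : E4 => x 3
    fun_prop

theorem Thr_hs : ContDiff ℝ ∞ Thr_h := by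
  unfold Thr_h
  fun_prop

theorem Thr_Ksm : ContDiff ℝ ∞ fun q : ℝ × E3 => Thr_K q.1 q.2 := by
  rw [contDiff_euclidean]
  intro i
  fin_cases i
  · change ContDiff ℝ ∞ fun q : ℝ × E3 => q.2 0
    fun_prop
  · change ContDiff ℝ ∞ fun q : ℝ × E3 => 4 / 5 * q.1 + 3 / 5 * q.2 1
    fun_prop
  · change ContDiff ℝ ∞ fun q : ℝ × E3 => -3 / 5 * q.1 + 4 / 5 * q.2 1
    fun_prop
  · change ContDiff ℝ ∞ fun q : ℝ × E3 => q.2 2
    fun_prop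

theorem Thr_sm {A : ℝ → E3 → E3} (hA : Thr_Ok A) :
    ContMDiff ((𝓡 3).prod 𝓘(ℝ, ℝ)) (𝓡 3) ∞ fun q : S3 × ℝ => Thr_T hA q.2 q.1 := by
  have hF : Fact (Module.finrank ℝ E4 = 3 + 1) := ⟨finrank_euclideanSpace_fin⟩
  have h0 : ContDiff ℝ ∞ fun r : E4 × ℝ => (r.2, Thr_G r.1) := contDiff_snd.prodMk (Thr_Gs.comp contDiff_fst)
  have h1 : ContDiff ℝ ∞ fun r : E4 × ℝ => (Thr_h r.1, A r.2 (Thr_G r.1)) :=
    (Thr_hs.comp contDiff_fst).prodMk (hA.smooth.comp h0)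
  have h2 : ContDiff ℝ ∞ fun r : E4 × ℝ => Thr_K (Thr_h r.1) (A r.2 (Thr_G r.1)) := Thr_Ksm.comp h1
  have h3 : ContMDiff (𝓡 3) 𝓘(ℝ, E4) ∞ (fun x : S3 => (x : E4)) := contMDiff_coe_sphere
  have h4 : ContMDiff ((𝓡 3).prod 𝓘(ℝ, ℝ)) 𝓘(ℝ, E4 × ℝ) ∞ fun q : S3 × ℝ => ((q.1 : E4), q.2) :=
    (h3.comp contMDiff_fst).prodMk_space contMDiff_snd
  have h5 : ContMDiff ((𝓡 3).prod 𝓘(ℝ, ℝ)) 𝓘(ℝ, E4) ∞
      fun q : S3 × ℝ => Thr_K (Thr_h (q.1 : E4)) (A q.2 (Thr_G (q.1 : E4))) := h2.contMDiff.comp h4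
  exact h5.codRestrict_sphere fun q => Thr_mem hA q.2 q.1

theorem Thr_ld {A B : ℝ → E3 → E3} (hA : Thr_Ok A) (hB : Thr_Ok B) (hAB : ∀ l v, A l (B l v) = v)
    (hBA : ∀ l v, B l (A l v) = v) (q : S3 × ℝ) :
    IsLocalDiffeomorphAt ((𝓡 3).prod 𝓘(ℝ, ℝ)) ((𝓡 3).prod 𝓘(ℝ, ℝ)) ∞
      (fun q : S3 × ℝ => (Thr_T hA q.2 q.1, q.2)) q := by
  refine RSG.ld_two (g := fun q : S3 × ℝ => (Thr_T hB q.2 q.1, q.2)) (Eventually.of_forall fun y => ?_)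
    (Eventually.of_forall fun y => ?_) (Eventually.of_forall fun y => ?_) (Eventually.of_forall fun y => ?_)
  · exact ((Thr_sm hA).prodMk contMDiff_snd) y
  · exact ((Thr_sm hB).prodMk contMDiff_snd) y
  · change (Thr_T hB y.2 (Thr_T hA y.2 y.1), y.2) = y
    rw [Thr_TT hB hA hBA]
  · change (Thr_T hA y.2 (Thr_T hB y.2 y.1), y.2) = y
    rw [Thr_TT hA hB hAB]

theorem Thr_PD {A B : ℝ → E3 → E3} (hA : Thr_Ok A) (hB : Thr_Ok B) (hAB : ∀ l v, A l (B l v) = v)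
    (hBA : ∀ l v, B l (A l v) = v) (p : SP) :
    IsLocalDiffeomorphAt ISP ISP ∞ (Thr_Q hA) p := by
  obtain ⟨x, z⟩ := p
  obtain ⟨l, rfl⟩ := KNH.circ_surj z
  have hpi : ∀ q : S3 × ℝ, IsLocalDiffeomorphAt ((𝓡 3).prod 𝓘(ℝ, ℝ)) ISP ∞ (Prod.map (id : S3 → S3) circ) q :=
    fun q => RSG.ld_prodMap (CSG.ld_id q.1) (KNH.circ_ld q.2)
  have h := CSG.ld_of_comp_left (f := Prod.map (id : S3 → S3) circ) (g := Thr_Q hA) (K := ISP) (n := ∞)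
    (x := ((x, l) : S3 × ℝ)) ?_ (hpi (x, l))
  · exact h
  · have e : Thr_Q hA ∘ Prod.map (id : S3 → S3) circ =
        Prod.map (id : S3 → S3) circ ∘ fun q : S3 × ℝ => (Thr_T hA q.2 q.1, q.2) := by
      funext q
      exact Thr_Q_circ hA q.1 q.2
    rw [e]
    exact IsLocalDiffeomorphAt.comp (hf := Thr_ld hA hB hAB hBA (x, l)) (hg := hpi _) ..

theorem Thr_sg (v : E3) : (sg v).1 = ‖Thr_K 1 v‖⁻¹ • Thr_K 1 v := by
  have h1 : Thr_K 1 v ≠ 0 := by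
    intro h
    have h2 := Thr_norm 1 v
    rw [h, norm_zero] at h2
    nlinarith [norm_nonneg v]
  have e : (WithLp.toLp 2 ![(⟨v 0, 4 / 5 + 3 / 5 * v 1⟩ : ℂ).re, (⟨v 0, 4 / 5 + 3 / 5 * v 1⟩ : ℂ).im,
      (⟨-3 / 5 + 4 / 5 * v 1, v 2⟩ : ℂ).re, (⟨-3 / 5 + 4 / 5 * v 1, v 2⟩ : ℂ).im] : E4) = Thr_K 1 v := by
    ext i
    fin_cases i
    · rfl
    · change 4 / 5 + 3 / 5 * v 1 = 4 / 5 * 1 + 3 / 5 * v 1
      ring
    · change -3 / 5 + 4 / 5 * v 1 = -3 / 5 * 1 + 4 / 5 * v 1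
      ring
    · rfl
  unfold sg pS3
  rw [e]
  exact RSG.toSph_coe _ h1

theorem Thr_Tsg {L : ℝ → E3 →L[ℝ] E3} (hA : Thr_Ok fun l v => L l v) (l : ℝ) (v : E3) :
    Thr_T hA l (sg v) = sg (L l v) := by
  apply Subtype.ext
  change Thr_K (Thr_h (sg v).1) (L l (Thr_G (sg v).1)) = (sg (L l v)).1
  rw [Thr_sg, Thr_sg, Thr_Ks, Thr_hK, Thr_GK, map_smul]
  have hn : ‖Thr_K 1 (L l v)‖ = ‖Thr_K 1 v‖ := by
    have h1 := Thr_norm 1 (L l v)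
    have h2 := Thr_norm 1 v
    have h3 : ‖L l v‖ = ‖v‖ := hA.isom l v
    rw [h3, ← h2] at h1
    exact (sq_eq_sq₀ (norm_nonneg _) (norm_nonneg _)).1 h1
  rw [hn, Thr_Ks]

theorem thr {L : ℝ → E3 →L[ℝ] E3} (hL : OLoop L) :
    ∃ Θ : Equiv.Perm SP, PD ISP Θ ∧ ∀ l v, Θ (nu (l, v)) = nu (l, L l v) := by
  have hA : Thr_Ok fun l v => L l v := by
    refine ⟨?_, fun l v => ?_, hL.isom⟩
    · exact (hL.smooth.comp contDiff_fst).clm_apply contDiff_snd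
    · rw [hL.per]
  have hadj : ∀ l v, ContinuousLinearMap.adjoint (L l) (L l v) = v := by
    intro l v
    have h1 := ((L l).norm_map_iff_adjoint_comp_self).1 (hL.isom l)
    have h2 := congrArg (fun T : E3 →L[ℝ] E3 => T v) h1
    exact h2
  have hsurj : ∀ l, Function.Surjective (L l) := by
    intro l
    have hinj : Function.Injective (L l : E3 →ₗ[ℝ] E3) := by
      intro v w h
      have h2 : L l v = L l w := h
      rw [← hadj l v, h2, hadj]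
    exact LinearMap.surjective_of_injective hinj
  have hadj2 : ∀ l v, L l (ContinuousLinearMap.adjoint (L l) v) = v := by
    intro l v
    obtain ⟨w, rfl⟩ := hsurj l v
    rw [hadj]
  have hB : Thr_Ok fun l v => ContinuousLinearMap.adjoint (L l) v := by
    refine ⟨?_, fun l v => ?_, fun l v => ?_⟩
    · rw [contDiff_euclidean]
      intro i
      have e : (fun q : ℝ × E3 => (ContinuousLinearMap.adjoint (L q.1) q.2) i) =
          fun q : ℝ × E3 => inner ℝ (L q.1 (EuclideanSpace.single i (1 : ℝ))) q.2 := by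
        funext q
        rw [← ContinuousLinearMap.adjoint_inner_right, EuclideanSpace.inner_single_left]
        simp only [conj_trivial, one_mul]
      rw [e]
      exact ((hL.smooth.comp contDiff_fst).clm_apply contDiff_const).inner ℝ contDiff_snd
    · rw [hL.per]
    · obtain ⟨w, rfl⟩ := hsurj l v
      rw [hadj, hL.isom]
  refine ⟨⟨Thr_Q hA, Thr_Q hB, Thr_QQ hB hA hadj, Thr_QQ hA hB hadj2⟩, fun p => Thr_PD hA hB hadj2 hadj p, fun l v => ?_⟩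
  change Thr_Q hA (sg v, circ l) = (sg (L l v), circ l)
  rw [Thr_Q_circ, Thr_Tsg]

end Pool.Agent.LKS
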