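import Pool.Agent.LKS.Tr
import Pool.Agent.LKS.LkA
import Pool.Agent.LKS.Comp
import Pool.Agent.LKS.Comm
import Pool.Agent.LKS.Cnv
import Pool.Agent.LKS.NuT
import Pool.Agent.LKS.Thr
import Pool.Agent.LKS.Sqz
import Pool.Agent.LKS.TIs
import Pool.Agent.LKF.GerF

/-!
# LKS/SplG (difficulty 3-4): the general splitting theorem

PROOF.  `c = D₀.A ∘ nu`, `c' = S.A ∘ nu` are thick circles of radius `1/10` in `Y` (`thick_A`, `thick_S`, `nu_thick`: the points of `NuB (1/10)` are in no tube), `thick_iff`;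
`tIso`: `L`, `F`, `δ` with `F (D₀.A (nu (l, v))) = S.A (nu (l, L l v))` for `‖v‖ < δ`.  `δ' = min δ (1/10)`.  `thr`: `Θ`; `sqz` for `δ'`: `Φ`.
`κ₂ i q = Θ (Φ (κ₁ i q))`; `TubF κ₂ ⊆ NuB δ'` (a point of the tube of `κ₁ i` is `nu (l, v)`, `‖v‖ < 1/20`, `Φ` sends it to `nu (l, v')`, `‖v'‖ < δ'`, `Θ` to `nu (l, L l v')`, `L` isometric).
`D₂ : TwinF ISP κ₂ n₁ j₁ Z` (`twin_P` for `Φ.trans Θ`).  `γ' a q = D₂.A (γ a q)`: `tubes_A`.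
Given `X`, `S' : SurgJ (𝓡 4) γ' (1/4) X`: `comm`: `TwinF (𝓡 4) (fun i q => S.A (κ₂ i q)) n₁ j₁ X`.  `twin_P` for `F⁻¹` and then `LKF.germF` (the two families agree for `‖v‖ < 1`:
`F⁻¹ (S.A (Θ (Φ (κ₁ i q)))) = D₀.A (Φ (κ₁ i q))`; both are links: `link_S`, `link_P`, `link_A`): `TwinF (𝓡 4) (fun i q => D₀.A (Φ (κ₁ i q))) n₁ j₁ X`.
`comp` (`link_sum`: `TubF (Φ ∘ κ₁) ⊆ NuB (1/10)` is disjoint from `TubF κ₀`): `TwinF ISP (Sum.elim κ₀ (Φ ∘ κ₁)) .. X`.  `twin_P` for `Φ⁻¹` and `germF` (`Φ⁻¹` fixes the points outside `NuB (1/10)`, so the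
tubes of `κ₀`; `Φ⁻¹ (Φ (κ₁ i q)) = κ₁ i q`): `TwinF ISP (Sum.elim κ₀ κ₁) .. X`.
-/

open scoped Manifold ContDiff Topology
open Set Filter
open Complex (I)
open Pool.Agent.RSG (E3 E4 S2 S3 S4 ex cj c1 c2 ht fh pS3 pS4)
open Pool.Agent.RBM (ThickT OnT)
open Pool.Agent.RBH (Tube)
open Pool.Agent.PTH (SP ISP)
open Pool.Agent.KNH (circ rot)
open Pool.Agent.LKF (LinkT OnF TubF TwinF)
open Pool.Agent.LKT (ThickC TubesC OffC SurgJ s1 s2 κa κb RR ΘU ΘH dir)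
open Pool.Agent.LKB (Mf Std OLoop)

namespace Pool.Agent.LKS

theorem splG {ι₀ α : Type} [Finite α] {κ₀ : ι₀ → ℝ × ℂ × ℝ → SP} (hκ₀ : LinkT ISP κ₀)
    (hd₀ : Disjoint (TubF κ₀) (NuB (1 / 10)))
    {γ : α → ℝ × E3 → SP} (hγ : TubesC ISP γ (1 / 4)) (hdγ : Disjoint (TubsC γ (1 / 4)) (NuB (1 / 10)))
    {Y : Type} [TopologicalSpace Y] [ChartedSpace E4 Y] [T2Space Y] [IsManifold (𝓡 4) ∞ Y] {n₀ j₀ : ι₀ → ℤ}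
    (S : SurgJ ISP γ (1 / 4) Y) (D₀ : TwinF ISP κ₀ n₀ j₀ Y)
    (hF : ACB.FHom univ (fun t => D₀.A (nu (t, 0))) (fun t => S.A (nu (t, 0))))
    {ι₁ : Type} {κ₁ : ι₁ → ℝ × ℂ × ℝ → SP} (hκ₁ : LinkT ISP κ₁) (h₁ : TubF κ₁ ⊆ NuB (1 / 20)) {n₁ j₁ : ι₁ → ℤ}
    {Z : Type} [TopologicalSpace Z] [ChartedSpace E4 Z] (D₁ : TwinF ISP κ₁ n₁ j₁ Z) :
    ∃ γ' : α → ℝ × E3 → Z, TubesC (𝓡 4) γ' (1 / 4) ∧ ∀ (X : Type) [TopologicalSpace X] [ChartedSpace E4 X],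
      SurgJ (𝓡 4) γ' (1 / 4) X → Nonempty (TwinF ISP (Sum.elim κ₀ κ₁) (Sum.elim n₀ n₁) (Sum.elim j₀ j₁) X) := by
  have htA : ACB.Thick (fun q => D₀.A (nu q)) (1 / 10) :=
    thick_iff.1 (thick_A D₀ (nu_thick (by norm_num)) (fun l v hv h => Set.disjoint_left.1 hd₀ h ⟨l, v, hv, rfl⟩))
  have htS : ACB.Thick (fun q => S.A (nu q)) (1 / 10) :=
    thick_iff.1 (thick_S (by norm_num) S (nu_thick (by norm_num)) (fun l v hv h => Set.disjoint_left.1 hdγ h ⟨l, v, hv, rfl⟩))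
  obtain ⟨L, hL, F, δ, hδ, hFc⟩ := tIso htA htS hF
  obtain ⟨δ', hδ', hδ1, hδ2⟩ : ∃ δ' : ℝ, 0 < δ' ∧ δ' ≤ δ ∧ δ' ≤ 1 / 10 :=
    ⟨min δ (1 / 10), lt_min hδ (by norm_num), min_le_left _ _, min_le_right _ _⟩
  obtain ⟨Θ, hΘ, hΘn⟩ := thr hL
  obtain ⟨Φ, hΦ, hΦn, hΦo⟩ := sqz hδ'
  have hk1 : ∀ i l v t, ‖v‖ < 1 → κ₁ i (l, v, t) ∈ NuB (1 / 20) := fun i l v t hv => h₁ ⟨i, l, v, t, hv, rfl⟩
  have hΦ1 : ∀ i l v t, ‖v‖ < 1 → ∃ (l' : ℝ) (v' : E3), ‖v'‖ < δ' ∧ Φ (κ₁ i (l, v, t)) = nu (l', v') := by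
    intro i l v t hv
    obtain ⟨l', w, hw, he⟩ := hk1 i l v t hv
    obtain ⟨v', hv', he'⟩ := hΦn l' w hw
    exact ⟨l', v', hv', by rw [he, he']⟩
  have hΘB : ∀ i l v t, ‖v‖ < 1 → Θ (Φ (κ₁ i (l, v, t))) ∈ NuB (1 / 10) := by
    intro i l v t hv
    obtain ⟨l', v', hv', he⟩ := hΦ1 i l v t hv
    rw [he, hΘn]
    exact ⟨l', L l' v', by rw [hL.isom]; exact lt_of_lt_of_le hv' hδ2, rfl⟩
  have hFA : ∀ i l v t, ‖v‖ < 1 → F (D₀.A (Φ (κ₁ i (l, v, t)))) = S.A (Θ (Φ (κ₁ i (l, v, t)))) := by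
    intro i l v t hv
    obtain ⟨l', v', hv', he⟩ := hΦ1 i l v t hv
    rw [he, hΘn]
    exact hFc l' v' (lt_of_lt_of_le hv' hδ1)
  have hPD : PD ISP (Φ.trans Θ) := hΦ.trans hΘ
  obtain ⟨D₂, hD₂, -⟩ := twin_P D₁ (Φ.trans Θ) hPD
  have hL2 : LinkT ISP (fun i q => (Φ.trans Θ) (κ₁ i q)) := link_P hκ₁ _ hPD
  have hTub2 : TubF (fun i q => (Φ.trans Θ) (κ₁ i q)) ⊆ NuB (1 / 10) := by
    rintro p ⟨i, l, v, t, hv, rfl⟩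
    exact hΘB i l v t hv
  have hdis2 : Disjoint (TubF (fun i q => (Φ.trans Θ) (κ₁ i q))) (TubsC γ (1 / 4)) := (hdγ.mono_right hTub2).symm
  refine ⟨fun a q => D₂.A (γ a q), tubes_A D₂ hγ hdis2, ?_⟩
  intro X _ _ S'
  obtain ⟨E₁⟩ := comm hL2 (by norm_num) hγ hdis2 D₂ S S'
  have hFl : ∀ p, IsLocalDiffeomorphAt (𝓡 4) (𝓡 4) ∞ F.symm.toEquiv p := fun p => F.symm.isLocalDiffeomorph p
  obtain ⟨E₂⟩ := LKF.diffF F.symm.toEquiv hFl E₁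
  have hLS : LinkT (𝓡 4) (fun i q => S.A ((Φ.trans Θ) (κ₁ i q))) := link_S (by norm_num) S hL2 hdis2.symm
  have hLF := LKF.link_diff F.symm.toEquiv hFl hLS
  have hLΦ : LinkT ISP (fun i q => Φ (κ₁ i q)) := link_P hκ₁ Φ hΦ
  have hTΦ : TubF (fun i q => Φ (κ₁ i q)) ⊆ NuB (1 / 10) := by
    rintro p ⟨i, l, v, t, hv, rfl⟩
    obtain ⟨l', v', hv', he⟩ := hΦ1 i l v t hv
    exact ⟨l', v', lt_of_lt_of_le hv' hδ2, he⟩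
  have hdΦ : Disjoint (TubF κ₀) (TubF (fun i q => Φ (κ₁ i q))) := hd₀.mono_right hTΦ
  have hLA : LinkT (𝓡 4) (fun i q => D₀.A (Φ (κ₁ i q))) := link_A D₀ hLΦ hdΦ
  obtain ⟨E₃⟩ := LKF.germF one_pos hLF hLA (fun i l v t hv => by
    show D₀.A (Φ (κ₁ i (l, v, t))) = F.symm (S.A (Θ (Φ (κ₁ i (l, v, t)))))
    rw [← hFA i l v t hv]
    exact (F.symm_apply_apply _).symm) E₂
  have hLs : LinkT ISP (Sum.elim κ₀ (fun i q => Φ (κ₁ i q))) := link_sum hκ₀ hLΦ hdΦ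
  obtain ⟨E₄⟩ := comp hLs D₀ E₃
  obtain ⟨E₅⟩ := LKF.diffF Φ.symm (PD.symm hΦ) E₄
  have hT1 : TubF κ₁ ⊆ NuB (1 / 10) := by
    intro p hp
    obtain ⟨l, v, hv, he⟩ := h₁ hp
    exact ⟨l, v, lt_trans hv (by norm_num), he⟩
  have hLf : LinkT ISP (Sum.elim κ₀ κ₁) := link_sum hκ₀ hκ₁ (hd₀.mono_right hT1)
  refine LKF.germF one_pos (LKF.link_diff Φ.symm (PD.symm hΦ) hLs) hLf (fun i l v t hv => ?_) E₅
  rcases i with i | i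
  · show κ₀ i (l, v, t) = Φ.symm (κ₀ i (l, v, t))
    rw [Equiv.eq_symm_apply]
    exact hΦo _ (fun h => Set.disjoint_left.1 hd₀ ⟨i, l, v, t, hv, rfl⟩ h)
  · show κ₁ i (l, v, t) = Φ.symm (Φ (κ₁ i (l, v, t)))
    rw [Equiv.symm_apply_apply]

end Pool.Agent.LKS
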