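import Pool.Agent.LKS.SplG
import Pool.Agent.LKS.Kab
import Pool.Agent.LKS.NulT
import Pool.Agent.LKT.ExJ
import Pool.Agent.LKT.UnH

/-!
# LKS/SplH (difficulty 3): splitting a Hopf pair

PROOF.  As `SplU` with `LKT.hopf n₁ n₂`: `β 0 0 = N1` (`s1 = -1`), `β 1 0 = N2` (`s2 = -1`); `disj_ab`; `TubsC γ (1/4)` is contained in `{‖s2‖ ≤ 1/4} ∪ {‖s1‖ ≤ 1/4}`.
FREE HOMOTOPY: `D₀.A (nu (t, 0)) = S.A (ΘH (RR n₁ n₂ (sg 0, circ t)))`, first coordinate `tor n₁ n₂ t`, second `circ t * dir (4i/5 ex (-n₁ t)) * dir (-3/5 ex (-n₂ t)) = circ ((1 - n₁ - n₂) t + 1/4 + 1/2)`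
(`-1 = ex (1/2)`, `I = ex (1/4)`, `LKT.dir_mul_ex`); `S.A (nu (t, 0)) = S.A (tor 0 0 t, circ ((1 : ℤ) * t + 0))`; `null_tor`.
-/

open scoped Manifold ContDiff Topology
open Set Filter
open Complex (I)
open Pool.Agent.RSG (E3 E4 S2 S3 S4 ex cj c1 c2 ht fh pS3 pS4)
open Pool.Agent.RBM (ThickT OnT)
open Pool.Agent.RBH (Tube)
open Pool.Agent.PTH (SP ISP)
open Pool.Agent.KNH (circ rot)
open Pool.Agent.LKF (LinkT OnF TubF TwinF)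
open Pool.Agent.LKT (ThickC TubesC OffC SurgJ s1 s2 κa κb RR ΘU ΘH dir)
open Pool.Agent.LKB (Mf Std OLoop)

namespace Pool.Agent.LKS

theorem SplH_N1 {x : S3} (h : s1 x = -1) : x = N1 := by
  have h1 := LKT.s_sq x
  rw [h, norm_neg, norm_one] at h1
  have h2 : s2 x = 0 := by
    rw [← norm_eq_zero]
    nlinarith [norm_nonneg (s2 x)]
  obtain ⟨h3, h4⟩ := LKT.s_mk (a := -1) (b := 0) (by norm_num)
  exact LKT.s_ext (h.trans h3.symm) (h2.trans h4.symm)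

theorem SplH_N2 {x : S3} (h : s2 x = -1) : x = N2 := by
  have h1 := LKT.s_sq x
  rw [h, norm_neg, norm_one] at h1
  have h2 : s1 x = 0 := by
    rw [← norm_eq_zero]
    nlinarith [norm_nonneg (s1 x)]
  obtain ⟨h3, h4⟩ := LKT.s_mk (a := 0) (b := -1) (by norm_num)
  exact LKT.s_ext (h2.trans h3.symm) (h.trans h4.symm)

theorem SplH_sg : s1 (sg 0) = 4 / 5 * I ∧ s2 (sg 0) = -3 / 5 := by
  rw [sg_zero]
  refine LKT.s_mk ?_
  rw [norm_mul, Complex.norm_I, mul_one, norm_div, norm_div, norm_neg, Complex.norm_ofNat, Complex.norm_ofNat,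
    Complex.norm_ofNat]
  norm_num

theorem SplH_RR (n j : ℤ) (t : ℝ) : RR n j (nu (t, 0)) = (tor n j t, circ t) := by
  obtain ⟨h1, h2, h3⟩ := LKT.RR_s n j (nu (t, 0))
  obtain ⟨g1, g2⟩ := SplH_sg
  have e1 : (nu (t, 0)).1 = sg 0 := rfl
  have e2 : (nu (t, 0)).2 = circ t := rfl
  rw [e1, e2, LKT.circ_zpow, g1] at h1
  rw [e1, e2, LKT.circ_zpow, g2] at h2
  refine Prod.ext (LKT.s_ext ?_ ?_) h3
  · rw [h1]
    show _ = s1 (tor n j t)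
    rw [tor_s1]
    push_cast
    rfl
  · rw [h2]
    show _ = s2 (tor n j t)
    rw [tor_s2]
    push_cast
    rfl

theorem SplH_dir1 (x : ℝ) : dir (4 / 5 * I * ex x) = circ (x + 1 / 4) := by
  rw [← LKT.dir_mul_ex (r := 4 / 5) (by norm_num), RSG.ex_add, RSG.ex_quarter]
  congr 1
  push_cast
  ring

theorem SplH_dir2 (x : ℝ) : dir (-3 / 5 * ex x) = circ (x + 1 / 2) := by
  rw [← LKT.dir_mul_ex (r := 3 / 5) (by norm_num), RSG.ex_add, RSG.ex_half]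
  congr 1
  push_cast
  ring

theorem SplH_Th (n j : ℤ) (t : ℝ) :
    ΘH (RR n j (nu (t, 0))) = (tor n j t, circ (((1 - n - j : ℤ) : ℝ) * t + 3 / 4)) := by
  rw [SplH_RR]
  refine Prod.ext rfl ?_
  show circ t * dir (s1 (tor n j t)) * dir (s2 (tor n j t)) = _
  rw [tor_s1, tor_s2, SplH_dir1, SplH_dir2, ← KNH.circ_add, ← KNH.circ_add]
  congr 1
  push_cast
  ring

theorem SplH_nu (t : ℝ) : nu (t, 0) = (tor 0 0 t, circ (((1 : ℤ) : ℝ) * t + 0)) := by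
  obtain ⟨g1, g2⟩ := SplH_sg
  refine Prod.ext (LKT.s_ext ?_ ?_) ?_
  · show s1 (sg 0) = s1 (tor 0 0 t)
    rw [g1, tor_s1]
    simp [RSG.ex_zero]
  · show s2 (sg 0) = s2 (tor 0 0 t)
    rw [g2, tor_s2]
    simp [RSG.ex_zero]
  · show circ t = circ (((1 : ℤ) : ℝ) * t + 0)
    congr 1
    push_cast
    ring

theorem splH (m₁ m₂ : ℤ) {ι₁ : Type} {κ₁ : ι₁ → ℝ × ℂ × ℝ → SP} (hκ₁ : LinkT ISP κ₁) (h₁ : TubF κ₁ ⊆ NuB (1 / 20))
    {n₁ j₁ : ι₁ → ℤ} {Z : Type} [TopologicalSpace Z] [ChartedSpace E4 Z] (D₁ : TwinF ISP κ₁ n₁ j₁ Z) :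
    ∃ γ' : Fin 2 → ℝ × E3 → Z, ACB.Tubes γ' (1 / 4) ∧ ∀ (X : Type) [TopologicalSpace X] [ChartedSpace E4 X],
      Nonempty (ACB.Surg γ' (1 / 4) X) →
        Nonempty (TwinF ISP (Sum.elim ![κa, κb] κ₁) (Sum.elim ![m₁, m₂] n₁) (Sum.elim ![m₂, m₁] j₁) X) := by
  obtain ⟨γ, hγ, hs, ⟨β, hβ⟩, hD⟩ := LKT.hopf m₁ m₂
  obtain ⟨Y, iY1, iY2, iY3, iY4, ⟨S⟩⟩ := LKT.exists_surgJ hγ
  obtain ⟨D₀, hD₀⟩ := hD Y S
  have h0 : ‖(0 : E3)‖ < 1 / 4 := by rw [norm_zero]; norm_num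
  have hdγ : Disjoint (TubsC γ (1 / 4)) (NuB (1 / 10)) := by
    rw [Set.disjoint_left]
    rintro p ⟨i, u, y, hy, rfl⟩ hp
    obtain ⟨g1, g2⟩ := nuB_s hp
    obtain ⟨a1, -, a3, -⟩ := hs u y hy
    fin_cases i
    · change 1 / 2 ≤ ‖s2 (γ 0 (u, y)).1‖ at g2
      linarith
    · change 7 / 10 ≤ ‖s1 (γ 1 (u, y)).1‖ at g1
      linarith
  have hN : ∀ a, β a 0 = N1 ∨ β a 0 = N2 := by
    intro a
    obtain ⟨-, a2, -, a4⟩ := hs 0 0 h0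
    fin_cases a
    · left
      apply SplH_N1
      rw [hβ 0 0 0 h0] at a2
      exact a2
    · right
      apply SplH_N2
      rw [hβ 1 0 0 h0] at a4
      exact a4
  obtain ⟨p, hp⟩ := null_tor hγ hβ hN S 0
  have hF : ACB.FHom univ (fun t => D₀.A (nu (t, 0))) (fun t => S.A (nu (t, 0))) := by
    have e1 : (fun t => D₀.A (nu (t, 0))) =
        fun t => S.A (tor m₁ m₂ t, circ (((1 - m₁ - m₂ : ℤ) : ℝ) * t + 3 / 4)) := by
      funext t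
      have a1 := sg_s1 (v := 0) (by rw [norm_zero]; norm_num)
      have a2 := sg_s2 (v := 0) (by rw [norm_zero]; norm_num)
      rw [hD₀ (nu (t, 0)) (by
        show 3 / 8 ≤ ‖s1 (sg 0)‖
        linarith) (by
        show 3 / 8 ≤ ‖s2 (sg 0)‖
        linarith), SplH_Th]
    have e2 : (fun t => S.A (nu (t, 0))) = fun t => S.A (tor 0 0 t, circ (((1 : ℤ) : ℝ) * t + 0)) := by
      funext t
      rw [SplH_nu]
    rw [e1, e2]
    exact (hp m₁ m₂ (1 - m₁ - m₂) (3 / 4)).trans (hp 0 0 1 0).symm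
  obtain ⟨γ', hγ', hX⟩ := splG LKT.link_ab disj_ab hγ hdγ S D₀ hF hκ₁ h₁ D₁
  refine ⟨γ', tubes_iff.1 hγ', ?_⟩
  intro X _ _ hS
  obtain ⟨S'⟩ := surg_iff.2 hS
  exact hX X S'

end Pool.Agent.LKS
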