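import Pool.Agent.LKS.Tr
import Pool.Agent.LKS.Kab
import Pool.Agent.LKT.UnH

/-!
# LKS/Ukb (difficulty 3): the unknot `s1 = 0`

PROOF.  `W p = (sw p.1, p.2)` (`LKT.sw` exchanges `s1`, `s2`: UnA), an involution of `SP`, a diffeomorphism (`sw_ld`).  `W (κa q) = κb q` (unfold; pS3 coordinates).  `unk n j` gives `γ₀`, `β₀`; `γ = W ∘ γ₀`,
`β = sw ∘ β₀`.  For `S : SurgJ ISP γ (1/4) X` put `S₀ : SurgJ ISP γ₀ (1/4) X`, `S₀.A = S.A ∘ W`, `S₀.Q = S.Q`.  `unk` gives `D₀ : TwinF ISP (fun _ => κa) .. X` with `D₀.A p = S₀.A (ΘU (RR n j p))` for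
`3/8 ≤ ‖s2 p.1‖`; `twin_P` for `W`: `D`, `D.A (W p) = D₀.A p`, tori `W ∘ κa = κb`.  So `D.A p = D₀.A (W p) = S.A (W (ΘU (RR n j (W p))))` for `3/8 ≤ ‖s1 p.1‖`.
-/

open scoped Manifold ContDiff Topology
open Set Filter
open Complex (I)
open Pool.Agent.RSG (E3 E4 S2 S3 S4 ex cj c1 c2 ht fh pS3 pS4)
open Pool.Agent.RBM (ThickT OnT)
open Pool.Agent.RBH (Tube)
open Pool.Agent.PTH (SP ISP)
open Pool.Agent.KNH (circ rot)
open Pool.Agent.LKF (LinkT OnF TubF TwinF)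
open Pool.Agent.LKT (ThickC TubesC OffC SurgJ s1 s2 κa κb RR ΘU ΘH dir)
open Pool.Agent.LKB (Mf Std OLoop)

namespace Pool.Agent.LKS

/-- exchange of the coordinates -/
noncomputable def Wsw (p : SP) : SP := (LKT.sw p.1, p.2)

theorem Ukb_W2 (p : SP) : Wsw (Wsw p) = p := Prod.ext (LKT.sw_sw p.1) rfl

theorem Ukb_s (p : SP) : s1 (Wsw p).1 = s2 p.1 ∧ s2 (Wsw p).1 = s1 p.1 := LKT.sw_s p.1

theorem Ukb_smooth (p : SP) : ContMDiffAt ISP ISP ∞ Wsw p := by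
  have h1 : ContMDiffAt ISP (𝓡 3) ∞ (fun p : SP => p.1) p := contMDiffAt_fst
  have h2 : ContMDiffAt ISP (𝓡 1) ∞ (fun p : SP => p.2) p := contMDiffAt_snd
  exact ContMDiffAt.prodMk ((LKT.sw_smooth p.1).comp p h1) h2

theorem Ukb_ld (p : SP) : IsLocalDiffeomorphAt ISP ISP ∞ Wsw p :=
  RSG.ld_two (g := Wsw) (Eventually.of_forall Ukb_smooth) (Eventually.of_forall Ukb_smooth)
    (Eventually.of_forall Ukb_W2) (Eventually.of_forall Ukb_W2)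

/-- the exchange as a bijection -/
noncomputable def UkbE : Equiv.Perm SP := ⟨Wsw, Wsw, Ukb_W2, Ukb_W2⟩

theorem Ukb_sw {a b : ℂ} (h : ‖a‖ ^ 2 + ‖b‖ ^ 2 ≠ 0) : LKT.sw (pS3 a b) = pS3 b a := by
  have ne : ∀ a b : ℂ, ‖a‖ ^ 2 + ‖b‖ ^ 2 ≠ 0 →
      (WithLp.toLp 2 ![a.re, a.im, b.re, b.im] : E4) ≠ 0 := by
    intro a b h h1
    apply h
    have e0 : a.re = 0 := congrArg (fun v : E4 => v 0) h1
    have e1 : a.im = 0 := congrArg (fun v : E4 => v 1) h1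
    have e2 : b.re = 0 := congrArg (fun v : E4 => v 2) h1
    have e3 : b.im = 0 := congrArg (fun v : E4 => v 3) h1
    have ea : a = 0 := Complex.ext e0 e1
    have eb : b = 0 := Complex.ext e2 e3
    rw [ea, eb]
    simp
  have hn : ‖(WithLp.toLp 2 ![a.re, a.im, b.re, b.im] : E4)‖ =
      ‖(WithLp.toLp 2 ![b.re, b.im, a.re, a.im] : E4)‖ := by
    rw [EuclideanSpace.norm_eq, EuclideanSpace.norm_eq, Fin.sum_univ_four, Fin.sum_univ_four]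
    congr 1
    simp only [Matrix.cons_val_zero, Matrix.cons_val_one, Matrix.cons_val]
    ring
  have k1 : (pS3 a b : E4) = ‖(WithLp.toLp 2 ![a.re, a.im, b.re, b.im] : E4)‖⁻¹ •
      (WithLp.toLp 2 ![a.re, a.im, b.re, b.im] : E4) := RSG.toSph_coe _ (ne a b h)
  have k2 : (pS3 b a : E4) = ‖(WithLp.toLp 2 ![a.re, a.im, b.re, b.im] : E4)‖⁻¹ •
      (WithLp.toLp 2 ![b.re, b.im, a.re, a.im] : E4) := by
    rw [hn]
    exact RSG.toSph_coe _ (ne b a (by rw [add_comm]; exact h))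
  obtain ⟨h1, h2⟩ := LKT.sw_s (pS3 a b)
  refine LKT.s_ext ?_ ?_
  · rw [h1]
    unfold LKT.s1 LKT.s2
    rw [k1, k2]
    rfl
  · rw [h2]
    unfold LKT.s1 LKT.s2
    rw [k1, k2]
    rfl

theorem Ukb_ab (q : ℝ × ℂ × ℝ) : Wsw (κa q) = κb q := by
  refine Prod.ext ?_ rfl
  refine Ukb_sw ?_
  intro h
  have h5 : 0 ≤ ‖((Real.sqrt (1 - ‖q.2.1‖ ^ 2 / 4) : ℝ) : ℂ) * ex q.1‖ ^ 2 := by positivity
  have h6 : 0 ≤ ‖q.2.1 / 2‖ ^ 2 := by positivity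
  have h1 : ‖q.2.1 / 2‖ ^ 2 = 0 := by linarith
  have h2 : ‖((Real.sqrt (1 - ‖q.2.1‖ ^ 2 / 4) : ℝ) : ℂ) * ex q.1‖ ^ 2 = 0 := by
    rw [h1, add_zero] at h
    exact h
  have h3 : q.2.1 = 0 := by
    have h4 : ‖q.2.1 / 2‖ = 0 := by simpa using h1
    rw [norm_eq_zero] at h4
    simpa using h4
  rw [h3, norm_mul, RSG.ex_norm] at h2
  simp at h2

theorem unkb (n j : ℤ) : ∃ γ : Unit → ℝ × E3 → SP, TubesC ISP γ (1 / 4) ∧
    (∀ (i : Unit) (u : ℝ) (y : E3), ‖y‖ < 1 / 4 → ‖s1 (γ i (u, y)).1‖ ≤ 1 / 4 ∧ s2 (γ i (u, 0)).1 = -1) ∧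
    (∃ β : E3 → S3, ∀ (i : Unit) (u : ℝ) (y : E3), ‖y‖ < 1 / 4 → γ i (u, y) = (β y, KNH.circ u)) ∧
    ∀ (X : Type) [TopologicalSpace X] [ChartedSpace E4 X] (S : SurgJ ISP γ (1 / 4) X),
      ∃ D : TwinF ISP (fun _ : Unit => κb) (fun _ => n) (fun _ => j) X,
        ∀ p : SP, 3 / 8 ≤ ‖s1 p.1‖ → D.A p = S.A (Wsw (ΘU (RR n j (Wsw p)))) := by
  obtain ⟨γ, hγ, h1, ⟨β, hβ⟩, h3⟩ := LKT.unk n j
  have hW : ∀ p q : SP, Wsw p = Wsw q → p = q := by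
    intro p q h
    rw [← Ukb_W2 p, h, Ukb_W2]
  refine ⟨fun i q => Wsw (γ i q), ⟨?_, ?_⟩, ?_, ⟨fun y => LKT.sw (β y), ?_⟩, ?_⟩
  · intro i
    refine ⟨(hγ.thick i).pos, ?_, ?_, ?_⟩
    · intro l v hv
      exact congrArg Wsw ((hγ.thick i).per l v hv)
    · intro l v hv
      exact IsLocalDiffeomorphAt.comp (hf := (hγ.thick i).loc l v hv) (hg := Ukb_ld _) ..
    · intro l v l' v' hv hv' he
      exact (hγ.thick i).inj l v l' v' hv hv' (hW _ _ he)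
  · intro i i' hi l v l' v' hv hv' he
    exact hγ.disj i i' hi l v l' v' hv hv' (hW _ _ he)
  · intro i u y hy
    obtain ⟨a1, a2⟩ := h1 i u y hy
    refine ⟨?_, ?_⟩
    · rw [(Ukb_s _).1]
      exact a1
    · rw [(Ukb_s _).2]
      exact a2
  · intro i u y hy
    show Wsw (γ i (u, y)) = _
    rw [hβ i u y hy]
    rfl
  · intro X _ _ S
    have hoff : ∀ p, OffC γ p → OffC (fun i q => Wsw (γ i q)) (Wsw p) := by
      intro p hp i l he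
      exact hp i l (hW _ _ he)
    have hoff' : ∀ p, OffC (fun i q => Wsw (γ i q)) p → OffC γ (Wsw p) := by
      intro p hp i l he
      apply hp i l
      show p = Wsw (γ i (l, 0))
      rw [← he, Ukb_W2]
    have S₀ : ∃ S₀ : SurgJ ISP γ (1 / 4) X, ∀ p, S₀.A p = S.A (Wsw p) := by
      refine ⟨{ A := fun p => S.A (Wsw p), Q := S.Q, A_loc := ?_, A_inj := ?_, Q_loc := S.Q_loc,
                glue := ?_, Q_inj := S.Q_inj, disj := ?_, cover := ?_ }, fun p => rfl⟩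
      · intro p hp
        exact IsLocalDiffeomorphAt.comp (hf := Ukb_ld p) (hg := S.A_loc _ (hoff p hp)) ..
      · intro p p' hp hp' he
        exact hW _ _ (S.A_inj _ _ (hoff p hp) (hoff p' hp') he)
      · intro i l r v hr hr'
        exact S.glue i l r v hr hr'
      · intro i v p hp
        exact S.disj i v _ (hoff p hp)
      · intro q
        rcases S.cover q with ⟨p, hp, e⟩ | h
        · refine Or.inl ⟨Wsw p, hoff' p hp, ?_⟩
          show q = S.A (Wsw (Wsw p))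
          rw [Ukb_W2]
          exact e
        · exact Or.inr h
    obtain ⟨S₀, hS₀⟩ := S₀
    obtain ⟨D₀, hD₀⟩ := h3 X S₀
    have hfun : (fun (i : Unit) (q : ℝ × ℂ × ℝ) => UkbE ((fun _ : Unit => κa) i q)) =
        fun _ : Unit => κb := by
      funext i q
      exact Ukb_ab q
    have hT := twin_P D₀ UkbE (fun p => Ukb_ld p)
    rw [hfun] at hT
    obtain ⟨D, hD, -⟩ := hT
    refine ⟨D, fun p hp => ?_⟩
    have e1 : D.A (UkbE (Wsw p)) = D₀.A (Wsw p) := hD (Wsw p)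
    have e2 : UkbE (Wsw p) = p := Ukb_W2 p
    rw [e2] at e1
    rw [e1, hD₀ (Wsw p) (by rw [(Ukb_s p).2]; exact hp), hS₀]

end Pool.Agent.LKS
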