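import Pool.Agent.LKS.SplG
import Pool.Agent.LKS.Ukb
import Pool.Agent.LKS.NulT
import Pool.Agent.LKT.ExJ

/-!
# LKS/SplU (difficulty 3): splitting an unknot

PROOF.  `unkb n j`: `γ`, `β`; `LKT.exists_surgJ`: `Y`, `S : SurgJ ISP γ (1/4) Y`; `D₀` from `unkb`.  `β 0 = N2` (`s2 = -1`, so `s1 = 0`; `s_ext`).  `disj_b`; `TubsC γ (1/4)` is contained in `‖s1‖ ≤ 1/4`, so
disjoint from `NuB (1/10)` (`nuB_s`).
FREE HOMOTOPY: `D₀.A (nu (t, 0)) = S.A (Wsw (ΘU (RR n j (Wsw (sg 0, circ t)))))`, `sg 0 = (4i/5, -3/5)`, so `Wsw (..) = (-3/5, 4i/5; circ t)`, `RR`: `(-3/5 ex (-n t), 4i/5 ex (-j t); circ t)`,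
`ΘU`: second coordinate `circ t * dir (4i/5 ex (-j t)) = circ ((1 - j) t + 1/4)` (`LKT.dir_mul_ex`, `I = ex (1/4)`), `Wsw`: first coordinate `tor j n t`:
so it is `S.A (tor j n t, circ ((1 - j : ℤ) * t + 1/4))`; and `S.A (nu (t, 0)) = S.A (tor 0 0 t, circ ((1 : ℤ) * t + 0))`.  `null_tor` gives the same point `p` for both; `FHom.trans`, `FHom.symm`.
`splG`, then `thick_iff`, `surg_iff` (`TubesC` for `Unit` gives `ThickC`).
-/

open scoped Manifold ContDiff Topology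
open Set Filter
open Complex (I)
open Pool.Agent.RSG (E3 E4 S2 S3 S4 ex cj c1 c2 ht fh pS3 pS4)
open Pool.Agent.RBM (ThickT OnT)
open Pool.Agent.RBH (Tube)
open Pool.Agent.PTH (SP ISP)
open Pool.Agent.KNH (circ rot)
open Pool.Agent.LKF (LinkT OnF TubF TwinF)
open Pool.Agent.LKT (ThickC TubesC OffC SurgJ s1 s2 κa κb RR ΘU ΘH dir)
open Pool.Agent.LKB (Mf Std OLoop)

namespace Pool.Agent.LKS

theorem SplU_ex : ex (1 / 4) = I := by
  unfold RSG.ex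
  rw [show (2 * Real.pi * (1 / 4) : ℝ) = Real.pi / 2 by ring]
  push_cast
  exact Complex.exp_pi_div_two_mul_I

theorem SplU_dir (x : ℝ) : dir (4 / 5 * I * ex x) = circ (x + 1 / 4) := by
  rw [show (4 / 5 * I * ex x : ℂ) = ((4 / 5 : ℝ) : ℂ) * ex (x + 1 / 4) by
    rw [RSG.ex_add, SplU_ex]; push_cast; ring]
  exact LKT.dir_mul_ex (by norm_num)

theorem SplU_sg : s1 (sg 0) = 4 / 5 * I ∧ s2 (sg 0) = -3 / 5 := by
  have h := tor_s1 0 0 0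
  have h' := tor_s2 0 0 0
  have h0 : tor 0 0 0 = sg 0 := by
    rw [sg_zero]
    unfold tor
    simp [RSG.ex_zero]
  rw [h0] at h h'
  rw [h, h']
  simp [RSG.ex_zero]

theorem SplU_key (n j : ℤ) (t : ℝ) :
    Wsw (ΘU (RR n j (Wsw (nu (t, 0))))) = (tor j n t, circ ((1 - j : ℤ) * t + 1 / 4)) := by
  obtain ⟨g1, g2⟩ := SplU_sg
  obtain ⟨w1, w2⟩ := LKT.sw_s (sg 0)
  obtain ⟨r1, r2, r3⟩ := LKT.RR_s n j (Wsw (nu (t, 0)))
  have e1 : s1 (RR n j (Wsw (nu (t, 0)))).1 = -3 / 5 * ex (-n * t) := by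
    rw [r1]
    show s1 (LKT.sw (sg 0)) * ((circ t ^ (-n) : Circle) : ℂ) = _
    rw [w1, g2, LKT.circ_zpow]
    push_cast
    rfl
  have e2 : s2 (RR n j (Wsw (nu (t, 0)))).1 = 4 / 5 * I * ex (-j * t) := by
    rw [r2]
    show s2 (LKT.sw (sg 0)) * ((circ t ^ (-j) : Circle) : ℂ) = _
    rw [w2, g1, LKT.circ_zpow]
    push_cast
    rfl
  refine Prod.ext (LKT.s_ext ?_ ?_) ?_
  · show s1 (LKT.sw (RR n j (Wsw (nu (t, 0)))).1) = s1 (tor j n t)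
    rw [(LKT.sw_s _).1, e2, tor_s1]
  · show s2 (LKT.sw (RR n j (Wsw (nu (t, 0)))).1) = s2 (tor j n t)
    rw [(LKT.sw_s _).2, e1, tor_s2]
  · show (RR n j (Wsw (nu (t, 0)))).2 * dir (s2 (RR n j (Wsw (nu (t, 0)))).1) = circ ((1 - j : ℤ) * t + 1 / 4)
    rw [r3, e2, SplU_dir]
    show circ t * circ (-j * t + 1 / 4) = _
    rw [← KNH.circ_add]
    congr 1
    push_cast
    ring

theorem SplU_nu (t : ℝ) : nu (t, 0) = (tor 0 0 t, circ ((1 : ℤ) * t + 0)) := by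
  unfold nu tor
  rw [sg_zero]
  simp [RSG.ex_zero]

theorem splU (n j : ℤ) {ι₁ : Type} {κ₁ : ι₁ → ℝ × ℂ × ℝ → SP} (hκ₁ : LinkT ISP κ₁) (h₁ : TubF κ₁ ⊆ NuB (1 / 20))
    {n₁ j₁ : ι₁ → ℤ} {Z : Type} [TopologicalSpace Z] [ChartedSpace E4 Z] (D₁ : TwinF ISP κ₁ n₁ j₁ Z) :
    ∃ γ' : Unit → ℝ × E3 → Z, ACB.Tubes γ' (1 / 4) ∧ ∀ (X : Type) [TopologicalSpace X] [ChartedSpace E4 X],
      Nonempty (ACB.Surg γ' (1 / 4) X) →
        Nonempty (TwinF ISP (Sum.elim (fun _ : Unit => κb) κ₁) (Sum.elim (fun _ => n) n₁) (Sum.elim (fun _ => j) j₁) X) := by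
  obtain ⟨γ, hγ, hs, ⟨β, hβ⟩, hD⟩ := unkb n j
  obtain ⟨Y, _, _, _, _, ⟨S⟩⟩ := LKT.exists_surgJ hγ
  obtain ⟨D₀, hD₀⟩ := hD Y S
  have hN : ∀ a : Unit, β 0 = N1 ∨ β 0 = N2 := by
    intro a
    right
    have h1 : s2 (β 0) = -1 := by
      have := (hs a 0 0 (by norm_num)).2
      rw [hβ a 0 0 (by norm_num)] at this
      exact this
    have h2 : s1 (β 0) = 0 := by
      have h3 := LKT.s_sq (β 0)
      rw [h1, norm_neg, norm_one] at h3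
      have h4 : ‖s1 (β 0)‖ ^ 2 = 0 := by linarith
      exact norm_eq_zero.1 (pow_eq_zero_iff (two_ne_zero) |>.1 h4)
    obtain ⟨h5, h6⟩ := Kab_mk0 (-1) (by norm_num)
    exact LKT.s_ext (by rw [h2]; exact h5.symm) (by rw [h1]; exact h6.symm)
  obtain ⟨p, hp⟩ := null_tor (β := fun _ => β) hγ (fun a u y hy => hβ a u y hy) hN S ()
  have hF : ACB.FHom univ (fun t => D₀.A (nu (t, 0))) (fun t => S.A (nu (t, 0))) := by
    have h1 : (fun t => D₀.A (nu (t, 0))) = fun t => S.A (tor j n t, circ ((1 - j : ℤ) * t + 1 / 4)) := by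
      funext t
      rw [hD₀ (nu (t, 0)) (by
        show 3 / 8 ≤ ‖s1 (sg 0)‖
        rw [SplU_sg.1, norm_mul, Complex.norm_I]
        norm_num), SplU_key]
    have h2 : (fun t => S.A (nu (t, 0))) = fun t => S.A (tor 0 0 t, circ ((1 : ℤ) * t + 0)) := by
      funext t
      rw [SplU_nu]
    rw [h1, h2]
    exact (hp j n (1 - j) (1 / 4)).trans (hp 0 0 1 0).symm
  have hdγ : Disjoint (TubsC γ (1 / 4)) (NuB (1 / 10)) := by
    rw [Set.disjoint_left]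
    rintro q ⟨i, u, y, hy, rfl⟩ hq
    have h1 := (hs i u y hy).1
    have h2 := (nuB_s hq).1
    linarith
  obtain ⟨γ', hγ', hX⟩ := splG link_b disj_b hγ hdγ S D₀ hF hκ₁ h₁ D₁
  exact ⟨γ', tubes_iff.1 hγ', fun X _ _ h => by
    obtain ⟨S'⟩ := surg_iff.2 h
    exact hX X S'⟩

end Pool.Agent.LKS
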