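import Pool.Agent.LKS.SplU
import Pool.Agent.LKS.SplH
import Pool.Agent.LKJ.Main
import Pool.Agent.ACB.ExS
import Pool.Agent.ACB.CmF
import Pool.Agent.ACB.CmT

/-!
# LKS/StdS (difficulty 3): the splitting steps for `Std`

PROOFS.  `stdU`: `splU` for `Z = M.X`, `exists_surg` (or `LKT.exists_surgF`) gives `X` (T2, manifold), `M' = ⟨X⟩`, `Std (r + 1) M'` by definition (`IsSurg`: radius `1/4`, the family over `Unit` is `fun _ => γ' ()`).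
`stdH`: `splH m₁ m₂` (the twists `![m₂, m₁]` become `![a₁, a₂]` by `LKJ.jany`, all families are links: `link_sum`, `disj_ab`); `γ' = ![k₁, k₂]` (funext, Fin 2); first `V` = surgery of `M.X` along `k₂` (`Std (r + 1)`),
`SV : Surg (fun _ => k₂) (1/4) V`; the circle `SV.A ∘ k₁` is thick in `V` (the tubes are disjoint: copy the first lines of `ACB.surg_to`); `X` = surgery of `V` along it (`Std (r + 2)`); `ACB.surg_from`: `Surg ![k₁, k₂] (1/4) X`.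
-/

open scoped Manifold ContDiff Topology
open Set Filter
open Complex (I)
open Pool.Agent.RSG (E3 E4 S2 S3 S4 ex cj c1 c2 ht fh pS3 pS4)
open Pool.Agent.RBM (ThickT OnT)
open Pool.Agent.RBH (Tube)
open Pool.Agent.PTH (SP ISP)
open Pool.Agent.KNH (circ rot)
open Pool.Agent.LKF (LinkT OnF TubF TwinF)
open Pool.Agent.LKT (ThickC TubesC OffC SurgJ s1 s2 κa κb RR ΘU ΘH dir)
open Pool.Agent.LKB (Mf Std OLoop)

namespace Pool.Agent.LKS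

theorem StdS_sub : NuB (1 / 20) ⊆ NuB (1 / 10) := by
  rintro p ⟨l, v, hv, hp⟩
  exact ⟨l, v, by linarith, hp⟩

theorem stdU (n j : ℤ) {ι₁ : Type} {κ₁ : ι₁ → ℝ × ℂ × ℝ → SP} (hκ₁ : LinkT ISP κ₁) (h₁ : TubF κ₁ ⊆ NuB (1 / 20))
    {n₁ j₁ : ι₁ → ℤ} {r : ℕ} {M : Mf} (hM : Std r M) (D₁ : Nonempty (TwinF ISP κ₁ n₁ j₁ M.X)) :
    ∃ M' : Mf, Std (r + 1) M' ∧
      Nonempty (TwinF ISP (Sum.elim (fun _ : Unit => κb) κ₁) (Sum.elim (fun _ => n) n₁) (Sum.elim (fun _ => j) j₁) M'.X) := by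
  obtain ⟨D⟩ := D₁
  obtain ⟨γ', hγ', hX⟩ := splU n j hκ₁ h₁ D
  obtain ⟨V, i1, i2, i3, i4, ⟨S⟩⟩ := ACB.exists_surg (hγ'.thick ())
  refine ⟨⟨V⟩, ⟨M, hM, γ' (), 1 / 4, ⟨fun _ => hγ'.thick (), fun i j hij => absurd (Subsingleton.elim i j) hij⟩, ⟨S⟩⟩, ?_⟩
  exact hX V ⟨S⟩

theorem stdH (m a : Fin 2 → ℤ) {ι₁ : Type} [Finite ι₁] {κ₁ : ι₁ → ℝ × ℂ × ℝ → SP} (hκ₁ : LinkT ISP κ₁)
    (h₁ : TubF κ₁ ⊆ NuB (1 / 20)) {n₁ j₁ : ι₁ → ℤ} {r : ℕ} {M : Mf} (hM : Std r M)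
    (D₁ : Nonempty (TwinF ISP κ₁ n₁ j₁ M.X)) :
    ∃ M' : Mf, Std (r + 2) M' ∧
      Nonempty (TwinF ISP (Sum.elim ![κa, κb] κ₁) (Sum.elim m n₁) (Sum.elim a j₁) M'.X) := by
  obtain ⟨D⟩ := D₁
  obtain ⟨γ', hγ', hX⟩ := splH (m 0) (m 1) hκ₁ h₁ D
  have hm : (![m 0, m 1] : Fin 2 → ℤ) = m := by
    funext i
    fin_cases i <;> rfl
  have hg : (![γ' 0, γ' 1] : Fin 2 → ℝ × E3 → M.X) = γ' := by
    funext i
    fin_cases i <;> rfl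
  obtain ⟨k₁, hk₁⟩ : ∃ k, k = γ' 0 := ⟨_, rfl⟩
  obtain ⟨k₂, hk₂⟩ : ∃ k, k = γ' 1 := ⟨_, rfl⟩
  rw [← hk₁, ← hk₂] at hg
  rw [← hg] at hγ' hX
  have hT : ACB.Tubes ![k₁, k₂] (1 / 4) := hγ'
  have ht1 : ACB.Thick k₁ (1 / 4) := hT.thick 0
  have ht2 : ACB.Thick k₂ (1 / 4) := hT.thick 1
  have hd : ∀ (l : ℝ) (v : E3) (l' : ℝ) (v' : E3), ‖v‖ < 1 / 4 → ‖v'‖ < 1 / 4 → k₁ (l, v) ≠ k₂ (l', v') :=
    hT.disj 0 1 (by decide)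
  have h0 : ‖(0 : E3)‖ < 1 / 4 := by rw [norm_zero]; norm_num
  have hoff1 : ∀ (l : ℝ) (v : E3), ‖v‖ < 1 / 4 → ACB.Off (fun _ : Unit => k₂) (k₁ (l, v)) :=
    fun l v hv _ l' => hd l v l' 0 hv h0
  obtain ⟨V, i1, i2, i3, i4, ⟨SV⟩⟩ := ACB.exists_surg ht2
  have hTV : ACB.Thick (fun x => SV.A (k₁ x)) (1 / 4) :=
    ACB.thick_comp (U := {p | ACB.Off (fun _ : Unit => k₂) p}) ht1 (fun l v hv => hoff1 l v hv)
      (fun x hx => SV.A_loc x hx) (fun x hx y hy hxy => SV.A_inj x y hx hy hxy)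
  obtain ⟨X, i5, i6, i7, i8, ⟨S⟩⟩ := ACB.exists_surg hTV
  have hF := ACB.surg_from hT SV S
  have h2 := hX X hF
  rw [hm] at h2
  have hL : LinkT ISP (Sum.elim ![κa, κb] κ₁) := by
    refine link_sum LKT.link_ab hκ₁ ?_
    exact disj_ab.mono_right (h₁.trans StdS_sub)
  have h3 := LKJ.jany hL (Sum.elim a j₁) h2
  refine ⟨⟨X⟩, ⟨⟨V⟩, ⟨M, hM, k₂, 1 / 4, ⟨fun _ => ht2, fun i j hij => absurd (Subsingleton.elim i j) hij⟩, ⟨SV⟩⟩,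
    (fun x => SV.A (k₁ x)), 1 / 4, ⟨fun _ => hTV, fun i j hij => absurd (Subsingleton.elim i j) hij⟩, ⟨S⟩⟩, ?_⟩
  exact h3

end Pool.Agent.LKS
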