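import Pool.Agent.LKS.Defs

/-!
# LKS/Tr (difficulty 2): transport of twins and of thick circles

PROOFS.  Copy `LKF/GerF.lean` (`diffF`): `twin_P`: `A' p = D.A (F.symm p)`, `Q' = D.Q` (`OnF (F ∘ κ) p ↔ OnF κ (F.symm p)`); `F.symm` is a local
diffeomorphism because `F` is one and is bijective (`IsLocalDiffeomorphAt` of the inverse: see `LKF/GerF.lean` / `CSG.ld_symm`-like lemmas there).
`twin_X`: `A' = G ∘ D.A`, `Q' i = G ∘ D.Q i`.  `twin_e`: `A' = D.A`, `Q' i = D.Q (e i)` (`OnF (κ ∘ e) p ↔ OnF κ p`, `e` is onto).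
`twin_eq`: `subst`.
-/

open scoped Manifold ContDiff Topology
open Set Filter
open Complex (I)
open Pool.Agent.RSG (E3 E4 S2 S3 S4 ex cj c1 c2 ht fh pS3 pS4)
open Pool.Agent.RBM (ThickT OnT)
open Pool.Agent.RBH (Tube)
open Pool.Agent.PTH (SP ISP)
open Pool.Agent.KNH (circ rot)
open Pool.Agent.LKF (LinkT OnF TubF TwinF)
open Pool.Agent.LKT (ThickC TubesC OffC SurgJ s1 s2 κa κb RR ΘU ΘH dir)
open Pool.Agent.LKB (Mf Std OLoop)

namespace Pool.Agent.LKS

variable {E : Type*} [NormedAddCommGroup E] [NormedSpace ℝ E] {H : Type*} [TopologicalSpace H]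
  {J : ModelWithCorners ℝ E H}
  {P : Type*} [TopologicalSpace P] [ChartedSpace H P]

theorem Tr_inv {F : Equiv.Perm P} (hF : PD J F) (p : P) : IsLocalDiffeomorphAt J J ∞ F.symm p := by
  have h1 : IsLocalDiffeomorphAt J J ∞ (F.symm ∘ F) (F.symm p) := by
    refine Pool.Agent.CSG.ld_congr (Pool.Agent.CSG.ld_id _) ?_
    exact Filter.Eventually.of_forall fun x => by simp
  have := Pool.Agent.CSG.ld_of_comp_left h1 (hF (F.symm p))
  rwa [Equiv.apply_symm_apply] at this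

omit [TopologicalSpace P] in
theorem Tr_onF {ι : Type*} (κ : ι → ℝ × ℂ × ℝ → P) (F : Equiv.Perm P) (p : P) :
    OnF (fun i q => F (κ i q)) p ↔ OnF κ (F.symm p) := by
  constructor
  · rintro ⟨i, l, t, h⟩
    exact ⟨i, l, t, by rw [h, Equiv.symm_apply_apply]⟩
  · rintro ⟨i, l, t, h⟩
    exact ⟨i, l, t, by show p = F (κ i (l, 0, t)); rw [← h, Equiv.apply_symm_apply]⟩

omit [TopologicalSpace P] in
theorem Tr_onE {ι ι' : Type*} (κ : ι → ℝ × ℂ × ℝ → P) (e : ι' ≃ ι) (p : P) :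
    OnF (fun i => κ (e i)) p ↔ OnF κ p := by
  constructor
  · rintro ⟨i, h⟩
    exact ⟨e i, h⟩
  · rintro ⟨i, h⟩
    refine ⟨e.symm i, ?_⟩
    show OnT (κ (e (e.symm i))) p
    rw [Equiv.apply_symm_apply]
    exact h

theorem twin_P {ι : Type*} {κ : ι → ℝ × ℂ × ℝ → P} {n j : ι → ℤ} {X : Type*} [TopologicalSpace X] [ChartedSpace E4 X]
    (D : TwinF J κ n j X) (F : Equiv.Perm P) (hF : PD J F) :
    ∃ D' : TwinF J (fun i q => F (κ i q)) n j X, (∀ p, D'.A (F p) = D.A p) ∧ ∀ i z, D'.Q i z = D.Q i z := by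
  refine ⟨{ A := fun p => D.A (F.symm p), Q := D.Q, A_loc := ?_, A_inj := ?_, Q_loc := D.Q_loc,
            Q_inj := D.Q_inj, glue := ?_, disj := ?_, cover := ?_ }, ?_, fun _ _ => rfl⟩
  · intro p hp
    rw [Tr_onF] at hp
    exact IsLocalDiffeomorphAt.comp (hf := Tr_inv hF p) (hg := D.A_loc _ hp)
  · intro p p' hp hp' he
    rw [Tr_onF] at hp hp'
    exact F.symm.injective (D.A_inj _ _ hp hp' he)
  · intro i z l m t hf h1 h2 e1 e2 e3
    rw [Equiv.symm_apply_apply]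
    exact D.glue i z l m t hf h1 h2 e1 e2 e3
  · intro i z p hf hz hp
    rw [Tr_onF] at hp
    exact D.disj i z _ hf hz hp
  · intro q
    rcases D.cover q with ⟨p, h1, h2⟩ | h
    · refine Or.inl ⟨F p, ?_, ?_⟩
      · rw [Tr_onF, Equiv.symm_apply_apply]; exact h1
      · rw [Equiv.symm_apply_apply]; exact h2
    · exact Or.inr h
  · intro p
    show D.A (F.symm (F p)) = D.A p
    rw [Equiv.symm_apply_apply]

theorem twin_X {ι : Type*} {κ : ι → ℝ × ℂ × ℝ → P} {n j : ι → ℤ} {X : Type*} [TopologicalSpace X] [ChartedSpace E4 X]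
    (D : TwinF J κ n j X) {Y : Type*} [TopologicalSpace Y] [ChartedSpace E4 Y] (G : X ≃ₘ⟮𝓡 4, 𝓡 4⟯ Y) :
    ∃ D' : TwinF J κ n j Y, (∀ p, D'.A p = G (D.A p)) ∧ ∀ i z, D'.Q i z = G (D.Q i z) := by
  refine ⟨{ A := fun p => G (D.A p), Q := fun i z => G (D.Q i z), A_loc := ?_, A_inj := ?_, Q_loc := ?_,
            Q_inj := ?_, glue := ?_, disj := ?_, cover := ?_ }, fun _ => rfl, fun _ _ => rfl⟩
  · intro p hp
    exact IsLocalDiffeomorphAt.comp (hf := D.A_loc p hp) (hg := G.isLocalDiffeomorph _)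
  · intro p p' hp hp' he
    exact D.A_inj _ _ hp hp' (G.injective he)
  · intro i z hz
    exact IsLocalDiffeomorphAt.comp (hf := D.Q_loc i z hz) (hg := G.isLocalDiffeomorph _)
  · intro i z i' z' hz hz' he
    exact D.Q_inj i z i' z' hz hz' (G.injective he)
  · intro i z l m t hf h1 h2 e1 e2 e3
    show G (D.Q i z) = G _
    rw [D.glue i z l m t hf h1 h2 e1 e2 e3]
  · intro i z p hf hz hp he
    exact D.disj i z p hf hz hp (G.injective he)
  · intro q
    obtain ⟨x, rfl⟩ := G.surjective q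
    rcases D.cover x with ⟨p, h1, h2⟩ | ⟨i, z, h1, h2⟩
    · exact Or.inl ⟨p, h1, by rw [h2]; rfl⟩
    · exact Or.inr ⟨i, z, h1, by rw [h2]; rfl⟩

theorem twin_e {ι ι' : Type*} {κ : ι → ℝ × ℂ × ℝ → P} {n j : ι → ℤ} {X : Type*} [TopologicalSpace X] [ChartedSpace E4 X]
    (D : TwinF J κ n j X) (e : ι' ≃ ι) :
    ∃ D' : TwinF J (fun i => κ (e i)) (fun i => n (e i)) (fun i => j (e i)) X, ∀ p, D'.A p = D.A p := by
  refine ⟨{ A := D.A, Q := fun i => D.Q (e i), A_loc := ?_, A_inj := ?_, Q_loc := fun i => D.Q_loc (e i),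
            Q_inj := ?_, glue := fun i => D.glue (e i), disj := ?_, cover := ?_ }, fun _ => rfl⟩
  · intro p hp
    rw [Tr_onE] at hp
    exact D.A_loc p hp
  · intro p p' hp hp' he
    rw [Tr_onE] at hp hp'
    exact D.A_inj p p' hp hp' he
  · intro i z i' z' hz hz' he
    obtain ⟨h1, h2⟩ := D.Q_inj (e i) z (e i') z' hz hz' he
    exact ⟨e.injective h1, h2⟩
  · intro i z p hf hz hp
    rw [Tr_onE] at hp
    exact D.disj (e i) z p hf hz hp
  · intro q
    rcases D.cover q with ⟨p, h1, h2⟩ | ⟨i, z, h1, h2⟩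
    · exact Or.inl ⟨p, by rw [Tr_onE]; exact h1, h2⟩
    · refine Or.inr ⟨e.symm i, z, h1, ?_⟩
      rw [Equiv.apply_symm_apply]
      exact h2

/-- inverse of a diffeomorphism -/
theorem PD.symm {F : Equiv.Perm P} (hF : PD J F) : PD J F.symm := fun p => Tr_inv hF p

theorem PD.trans {F G : Equiv.Perm P} (hF : PD J F) (hG : PD J G) : PD J (F.trans G) := fun p =>
  IsLocalDiffeomorphAt.comp (hf := hF p) (hg := hG (F p))

theorem link_P {ι : Type*} {κ : ι → ℝ × ℂ × ℝ → P} (hκ : LinkT J κ) (F : Equiv.Perm P) (hF : PD J F) :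
    LinkT J (fun i q => F (κ i q)) := by
  refine ⟨fun i => ⟨fun l v t => ?_, fun l v t => ?_, fun l v t hv => ?_, ?_⟩, ?_⟩
  · rw [(hκ.thick i).perl]
  · rw [(hκ.thick i).pert]
  · exact IsLocalDiffeomorphAt.comp (hf := (hκ.thick i).loc l v t hv) (hg := hF _)
  · intro l v t l' v' t' hv hv' he
    exact (hκ.thick i).inj l v t l' v' t' hv hv' (F.injective he)
  · intro i i' l v t l' v' t' hv hv' he
    exact hκ.disj i i' l v t l' v' t' hv hv' (F.injective he)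

theorem link_sub {ι ι' : Type*} {κ : ι → ℝ × ℂ × ℝ → P} (hκ : LinkT J κ) {f : ι' → ι} (hf : Function.Injective f) :
    LinkT J (fun i => κ (f i)) :=
  ⟨fun i => hκ.thick (f i), fun i i' l v t l' v' t' hv hv' he =>
    hf (hκ.disj (f i) (f i') l v t l' v' t' hv hv' he)⟩

theorem link_e {ι ι' : Type*} {κ : ι → ℝ × ℂ × ℝ → P} (hκ : LinkT J κ) (e : ι' ≃ ι) : LinkT J (fun i => κ (e i)) :=
  link_sub hκ e.injective

theorem link_sum {ι ι' : Type*} {κ : ι → ℝ × ℂ × ℝ → P} {κ' : ι' → ℝ × ℂ × ℝ → P} (hκ : LinkT J κ) (hκ' : LinkT J κ')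
    (hd : Disjoint (TubF κ) (TubF κ')) : LinkT J (Sum.elim κ κ') := by
  refine ⟨?_, ?_⟩
  · rintro (i | i)
    · exact hκ.thick i
    · exact hκ'.thick i
  · rintro (i | i) (i' | i') l v t l' v' t' hv hv' he
    · rw [hκ.disj i i' l v t l' v' t' hv hv' he]
    · exact (Set.disjoint_left.1 hd ⟨i, l, v, t, hv, rfl⟩ ⟨i', l', v', t', hv', he⟩).elim
    · exact (Set.disjoint_left.1 hd ⟨i', l', v', t', hv', rfl⟩ ⟨i, l, v, t, hv, he.symm⟩).elim
    · rw [hκ'.disj i i' l v t l' v' t' hv hv' he]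

end Pool.Agent.LKS
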