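import Pool.Agent.LKS.Defs
import Pool.Agent.LKF.TopF
import Pool.Agent.CSG.LDa

/-!
# LKS/Uni (difficulty 3): the manifold carried by a link is unique

PROOF.  `G (D.A p) = D'.A p` for `p` off the tori, `G (D.Q i z) = D'.Q i z` for `fh z ≠ 0`.
WELL DEFINED: if `D.A p = D.Q i z` (`p` off the tori, `fh z ≠ 0`) then `c1 z ≠ 0`, `c2 z ≠ 0` (`D.disj`); choose `l m t` with the three equations of `glue`
(`t = arg c1 - arg c2`, `m = arg c2 + j i t`, `l = arg fh + n i t`, arguments divided by `2π`); then `D.A p = D.A (κ i (l, ρ ex m, t))`,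
`0 < ρ = 2|c1||c2| < 1` (`|fh|² + ρ² = 1`), the point `κ i (l, ρ ex m, t)` is off the tori (thick torus, disjoint tubes), so `p = κ i (l, ρ ex m, t)` and
`D'.A p = D'.Q i z`.  Define `G x` by choice (`D.cover`) and prove the two formulas; the same construction in the other direction gives the inverse;
`G` is a local diffeomorphism (`ACB.cmt_quot` / `CSG.ld_of_comp_left`: `G ∘ D.A = D'.A` on the open set `{p | ¬ OnF κ p}` (closed tori: compact images,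
`P` Hausdorff, `ι` finite), `G ∘ D.Q i = D'.Q i` on the open set `fh ≠ 0`).  Pattern: `ACB/SrU.lean` (uniqueness of surgery: sru_map).
-/

open scoped Manifold ContDiff Topology
open Set Filter
open Complex (I)
open Pool.Agent.RSG (E3 E4 S2 S3 S4 ex cj c1 c2 ht fh pS3 pS4)
open Pool.Agent.RBM (ThickT OnT)
open Pool.Agent.RBH (Tube)
open Pool.Agent.PTH (SP ISP)
open Pool.Agent.KNH (circ rot)
open Pool.Agent.LKF (LinkT OnF TubF TwinF)
open Pool.Agent.LKT (ThickC TubesC OffC SurgJ s1 s2 κa κb RR ΘU ΘH dir)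
open Pool.Agent.LKB (Mf Std OLoop)

namespace Pool.Agent.LKS

variable {E : Type*} [NormedAddCommGroup E] [NormedSpace ℝ E] {H : Type*} [TopologicalSpace H]
  {J : ModelWithCorners ℝ E H}
  {P : Type*} [TopologicalSpace P] [ChartedSpace H P]

theorem onF_closed [T2Space P] {ι : Type*} [Finite ι] {κ : ι → ℝ × ℂ × ℝ → P} (hκ : LinkT J κ) :
    IsClosed {p | OnF κ p} :=
  Pool.Agent.LKF.torF_closed hκ.thick

theorem Uni_eqs (nn jj : ℤ) (z : S4) :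
    ∃ l m t : ℝ, c1 z = ‖c1 z‖ * ex (m + (1 - jj) * t) ∧ c2 z = ‖c2 z‖ * ex (m - jj * t) ∧
      fh z = ‖fh z‖ * ex (l - nn * t) := by
  have ht : ∃ t : ℝ, t = Complex.arg (c1 z) / (2 * Real.pi) - Complex.arg (c2 z) / (2 * Real.pi) := ⟨_, rfl⟩
  obtain ⟨t, ht⟩ := ht
  have hm : ∃ m : ℝ, m = Complex.arg (c2 z) / (2 * Real.pi) + jj * t := ⟨_, rfl⟩
  obtain ⟨m, hm⟩ := hm
  have hl : ∃ l : ℝ, l = Complex.arg (fh z) / (2 * Real.pi) + nn * t := ⟨_, rfl⟩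
  obtain ⟨l, hl⟩ := hl
  refine ⟨l, m, t, ?_, ?_, ?_⟩
  · have e : m + (1 - jj) * t = Complex.arg (c1 z) / (2 * Real.pi) := by
      rw [hm, ht]; ring
    rw [e, Pool.Agent.RSG.ex_arg]
  · have e : m - jj * t = Complex.arg (c2 z) / (2 * Real.pi) := by
      rw [hm]; ring
    rw [e, Pool.Agent.RSG.ex_arg]
  · have e : l - nn * t = Complex.arg (fh z) / (2 * Real.pi) := by
      rw [hl]; ring
    rw [e, Pool.Agent.RSG.ex_arg]

theorem Uni_v {z : S4} (hz : fh z ≠ 0) (h1 : c1 z ≠ 0) (h2 : c2 z ≠ 0) (m : ℝ) :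
    ‖((2 * ‖c1 z‖ * ‖c2 z‖ : ℝ) : ℂ) * ex m‖ < 1 ∧ ((2 * ‖c1 z‖ * ‖c2 z‖ : ℝ) : ℂ) * ex m ≠ 0 := by
  have hr0 : 0 < 2 * ‖c1 z‖ * ‖c2 z‖ := by
    have := norm_pos_iff.2 h1
    have := norm_pos_iff.2 h2
    positivity
  have hr1 : 2 * ‖c1 z‖ * ‖c2 z‖ < 1 := (Pool.Agent.RSG.fh_ne_iff z).1 hz
  have hn : ‖((2 * ‖c1 z‖ * ‖c2 z‖ : ℝ) : ℂ) * ex m‖ = 2 * ‖c1 z‖ * ‖c2 z‖ := by
    rw [norm_mul, Pool.Agent.RSG.ex_norm, mul_one, Complex.norm_real, Real.norm_eq_abs, abs_of_pos hr0]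
  refine ⟨by rw [hn]; exact hr1, ?_⟩
  intro h
  rw [h, norm_zero] at hn
  exact hr0.ne hn

/-- coordinates of the points of the twin -/
theorem twin_pt {ι : Type*} {κ : ι → ℝ × ℂ × ℝ → P} (hκ : LinkT J κ) {n j : ι → ℤ} {X : Type*} [TopologicalSpace X]
    [ChartedSpace E4 X] (D : TwinF J κ n j X) (i : ι) {z : S4} (hz : fh z ≠ 0) (h1 : c1 z ≠ 0) (h2 : c2 z ≠ 0) :
    ∃ (l : ℝ) (v : ℂ) (t : ℝ), ‖v‖ < 1 ∧ v ≠ 0 ∧ ¬ OnF κ (κ i (l, v, t)) ∧
      ∀ (Y : Type*) [TopologicalSpace Y] [ChartedSpace E4 Y] (D' : TwinF J κ n j Y), D'.Q i z = D'.A (κ i (l, v, t)) := by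
  obtain ⟨l, m, t, e1, e2, e3⟩ := Uni_eqs (n i) (j i) z
  obtain ⟨hv1, hv0⟩ := Uni_v hz h1 h2 m
  refine ⟨l, ((2 * ‖c1 z‖ * ‖c2 z‖ : ℝ) : ℂ) * ex m, t, hv1, hv0, Pool.Agent.LKF.kap_notF hκ t hv0 hv1, ?_⟩
  intro Y _ _ D'
  exact D'.glue i z l m t hz h1 h2 e1 e2 e3

section uni
variable {ι : Type*} {κ : ι → ℝ × ℂ × ℝ → P} {n j : ι → ℤ}
  {X : Type*} [TopologicalSpace X] [ChartedSpace E4 X] {X' : Type*} [TopologicalSpace X'] [ChartedSpace E4 X']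

open Classical in
/-- the comparison map -/
noncomputable def Uni_map (D : TwinF J κ n j X) (D' : TwinF J κ n j X') (q : X) : X' :=
  if h : ∃ p, ¬ OnF κ p ∧ q = D.A p then D'.A (Classical.choose h)
  else
    have h2 : ∃ (i : ι) (z : S4), fh z ≠ 0 ∧ q = D.Q i z := (D.cover q).resolve_left h
    D'.Q (Classical.choose h2) (Classical.choose (Classical.choose_spec h2))

theorem Uni_map_A (D : TwinF J κ n j X) (D' : TwinF J κ n j X') {p : P} (hp : ¬ OnF κ p) :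
    Uni_map D D' (D.A p) = D'.A p := by
  have h : ∃ p', ¬ OnF κ p' ∧ D.A p = D.A p' := ⟨p, hp, rfl⟩
  unfold Uni_map
  rw [dif_pos h]
  have h1 := Classical.choose_spec h
  rw [← D.A_inj p _ hp h1.1 h1.2]

theorem Uni_map_Q (hκ : LinkT J κ) (D : TwinF J κ n j X) (D' : TwinF J κ n j X') (i : ι) {z : S4} (hz : fh z ≠ 0) :
    Uni_map D D' (D.Q i z) = D'.Q i z := by
  by_cases hc : c1 z = 0 ∨ c2 z = 0
  · have h : ¬ ∃ p', ¬ OnF κ p' ∧ D.Q i z = D.A p' := by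
      rintro ⟨p', hp', he⟩
      exact D.disj i z p' hz hc hp' he
    have h2 : ∃ (i' : ι) (z' : S4), fh z' ≠ 0 ∧ D.Q i z = D.Q i' z' := ⟨i, z, hz, rfl⟩
    unfold Uni_map
    rw [dif_neg h]
    have h3 := Classical.choose_spec (Classical.choose_spec h2)
    obtain ⟨h4, h5⟩ := D.Q_inj _ _ _ _ hz h3.1 h3.2
    show D'.Q (Classical.choose h2) (Classical.choose (Classical.choose_spec h2)) = D'.Q i z
    rw [← h5, ← h4]
  · rw [not_or] at hc
    obtain ⟨l, m, t, e1, e2, e3⟩ := Uni_eqs (n i) (j i) z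
    obtain ⟨hv1, hv0⟩ := Uni_v hz hc.1 hc.2 m
    rw [D.glue i z l m t hz hc.1 hc.2 e1 e2 e3, D'.glue i z l m t hz hc.1 hc.2 e1 e2 e3]
    exact Uni_map_A D D' (Pool.Agent.LKF.kap_notF hκ t hv0 hv1)

theorem Uni_map_map (hκ : LinkT J κ) (D : TwinF J κ n j X) (D' : TwinF J κ n j X') (q : X) :
    Uni_map D' D (Uni_map D D' q) = q := by
  rcases D.cover q with ⟨p, hp, rfl⟩ | ⟨i, z, hz, rfl⟩
  · rw [Uni_map_A D D' hp, Uni_map_A D' D hp]
  · rw [Uni_map_Q hκ D D' i hz, Uni_map_Q hκ D' D i hz]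

theorem Uni_map_ld [T2Space P] [Finite ι] (hκ : LinkT J κ) (D : TwinF J κ n j X) (D' : TwinF J κ n j X') (q : X) :
    IsLocalDiffeomorphAt (𝓡 4) (𝓡 4) ∞ (Uni_map D D') q := by
  rcases D.cover q with ⟨p, hp, rfl⟩ | ⟨i, z, hz, rfl⟩
  · apply Pool.Agent.CSG.ld_of_comp_left (f := D.A) _ (D.A_loc p hp)
    apply Pool.Agent.CSG.ld_congr (D'.A_loc p hp)
    filter_upwards [(onF_closed hκ).isOpen_compl.mem_nhds hp] with y hy
    exact Uni_map_A D D' hy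
  · apply Pool.Agent.CSG.ld_of_comp_left (f := D.Q i) _ (D.Q_loc i z hz)
    apply Pool.Agent.CSG.ld_congr (D'.Q_loc i z hz)
    have ho : IsOpen {x : S4 | fh x ≠ 0} := isOpen_ne_fun Pool.Agent.RSG.fh_smooth.continuous continuous_const
    filter_upwards [ho.mem_nhds hz] with x hx
    exact Uni_map_Q hκ D D' i hx

end uni

theorem twin_uniq [T2Space P] {ι : Type*} [Finite ι] {κ : ι → ℝ × ℂ × ℝ → P} (hκ : LinkT J κ) {n j : ι → ℤ}
    {X : Type*} [TopologicalSpace X] [ChartedSpace E4 X] {X' : Type*} [TopologicalSpace X'] [ChartedSpace E4 X']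
    (D : TwinF J κ n j X) (D' : TwinF J κ n j X') :
    ∃ G : X ≃ₘ⟮𝓡 4, 𝓡 4⟯ X', (∀ p, ¬ OnF κ p → G (D.A p) = D'.A p) ∧ ∀ i z, fh z ≠ 0 → G (D.Q i z) = D'.Q i z := by
  have hb : Function.Bijective (Uni_map D D') :=
    ⟨(Function.LeftInverse.injective (Uni_map_map hκ D D')), (Function.RightInverse.surjective (Uni_map_map hκ D' D))⟩
  refine ⟨IsLocalDiffeomorph.diffeomorphOfBijective (f := Uni_map D D') (fun q => Uni_map_ld hκ D D' q) hb, ?_, ?_⟩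
  · intro p hp
    exact Uni_map_A D D' hp
  · intro i z hz
    exact Uni_map_Q hκ D D' i hz

end Pool.Agent.LKS
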